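import Pool.Agent.Lib.MP_d36e13_an.Potential

/-!
Disc case of the reverse Faber-Krahn inequality for a localized field: basic objects.
-/

open MeasureTheory Set Filter Topology Metric
open scoped ENNReal ContDiff

namespace Pool.Agent.Lib.MP_d36e13_an.DC

/-- square of the Euclidean radius -/
def sq2 (p : ℝ × ℝ) : ℝ := p.1 ^ 2 + p.2 ^ 2

/-- the coefficient of the rotation invariant potential -/
noncomputable def ca (Φ R₀ : ℝ) (p : ℝ × ℝ) : ℝ := Φ / max (sq2 p) (R₀ ^ 2)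

/-- first component of the rotation invariant potential -/
noncomputable def P1 (Φ R₀ : ℝ) (p : ℝ × ℝ) : ℝ := -(ca Φ R₀ p * p.2)

/-- second component of the rotation invariant potential -/
noncomputable def P2 (Φ R₀ : ℝ) (p : ℝ × ℝ) : ℝ := ca Φ R₀ p * p.1

/-- magnetic energy density for the rotation invariant potential -/
noncomputable def en (Φ R₀ : ℝ) (F : ℝ × ℝ → ℂ) (p : ℝ × ℝ) : ℝ :=
  ‖-Complex.I * fderiv ℝ F p (1, 0) - (P1 Φ R₀ p : ℂ) * F p‖ ^ 2 +
    ‖-Complex.I * fderiv ℝ F p (0, 1) - (P2 Φ R₀ p : ℂ) * F p‖ ^ 2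

/-- rotation by the angle `t` -/
noncomputable def rot (t : ℝ) (p : ℝ × ℝ) : ℝ × ℝ :=
  (Real.cos t * p.1 - Real.sin t * p.2, Real.sin t * p.1 + Real.cos t * p.2)

/-- rotation as a continuous linear map -/
noncomputable def rotL (t : ℝ) : ℝ × ℝ →L[ℝ] ℝ × ℝ :=
  (Real.cos t • ContinuousLinearMap.fst ℝ ℝ ℝ - Real.sin t • ContinuousLinearMap.snd ℝ ℝ ℝ).prod
    (Real.sin t • ContinuousLinearMap.fst ℝ ℝ ℝ + Real.cos t • ContinuousLinearMap.snd ℝ ℝ ℝ)

/-- `F` has angular momentum `m` -/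
def Equi (m : ℤ) (F : ℝ × ℝ → ℂ) : Prop :=
  ∀ (t : ℝ) (p : ℝ × ℝ), F (rot t p) = Complex.exp ((m : ℂ) * (t : ℂ) * Complex.I) * F p

/-- the open disc with centre `c` -/
def discAt (c : ℝ × ℝ) (R : ℝ) : Set (ℝ × ℝ) := {p | (p.1 - c.1) ^ 2 + (p.2 - c.2) ^ 2 < R ^ 2}

theorem rotL_apply (t : ℝ) (p : ℝ × ℝ) : rotL t p = rot t p := by
  simp [rotL, rot]

theorem sq2_nonneg (p : ℝ × ℝ) : 0 ≤ sq2 p := by unfold sq2; positivity

theorem continuous_sq2 : Continuous sq2 := by unfold sq2; fun_prop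

theorem sq2_rot (t : ℝ) (p : ℝ × ℝ) : sq2 (rot t p) = sq2 p := by
  unfold sq2 rot
  simp only
  linear_combination (p.1 ^ 2 + p.2 ^ 2) * Real.sin_sq_add_cos_sq t

theorem rot_add (s t : ℝ) (p : ℝ × ℝ) : rot (s + t) p = rot s (rot t p) := by
  unfold rot
  simp only [Real.cos_add, Real.sin_add]
  ext <;> simp only <;> ring

theorem rot_zero (p : ℝ × ℝ) : rot 0 p = p := by simp [rot]

theorem rot_two_pi (t : ℝ) (p : ℝ × ℝ) : rot (t + 2 * Real.pi) p = rot t p := by
  simp [rot]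

theorem continuous_rot : Continuous fun q : ℝ × (ℝ × ℝ) => rot q.1 q.2 := by
  unfold rot; fun_prop

theorem mem_disc {R : ℝ} {p : ℝ × ℝ} : p ∈ disc R ↔ sq2 p < R ^ 2 := Iff.rfl

theorem mem_discAt {c p : ℝ × ℝ} {R : ℝ} : p ∈ discAt c R ↔ p - c ∈ disc R := Iff.rfl

theorem discAt_zero (R : ℝ) : discAt 0 R = disc R := by
  ext p; simp [mem_discAt]

theorem ca_rot (Φ R₀ t : ℝ) (p : ℝ × ℝ) : ca Φ R₀ (rot t p) = ca Φ R₀ p := by
  unfold ca; rw [sq2_rot]

theorem continuous_ca (Φ : ℝ) {R₀ : ℝ} (hR₀ : 0 < R₀) : Continuous (ca Φ R₀) := by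
  unfold ca
  exact continuous_const.div (continuous_sq2.max continuous_const)
    fun p => (lt_of_lt_of_le (by positivity) (le_max_right _ _)).ne'

theorem continuous_P1 (Φ : ℝ) {R₀ : ℝ} (hR₀ : 0 < R₀) : Continuous (P1 Φ R₀) :=
  ((continuous_ca Φ hR₀).mul continuous_snd).neg

theorem continuous_P2 (Φ : ℝ) {R₀ : ℝ} (hR₀ : 0 < R₀) : Continuous (P2 Φ R₀) :=
  (continuous_ca Φ hR₀).mul continuous_fst

theorem en_nonneg (Φ R₀ : ℝ) (F : ℝ × ℝ → ℂ) (p : ℝ × ℝ) : 0 ≤ en Φ R₀ F p := by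
  unfold en; positivity

theorem continuous_en (Φ : ℝ) {R₀ : ℝ} (hR₀ : 0 < R₀) {F : ℝ × ℝ → ℂ} (hF : ContDiff ℝ 1 F) :
    Continuous (en Φ R₀ F) := by
  have h0 := hF.continuous
  have h1 : Continuous (fderiv ℝ F) := hF.continuous_fderiv (by simp)
  have h2 := continuous_P1 Φ hR₀
  have h3 := continuous_P2 Φ hR₀
  unfold en
  fun_prop

theorem memLp_top_of_continuous {Ω : Set (ℝ × ℝ)} (hb : Bornology.IsBounded Ω) {f : ℝ × ℝ → ℝ}
    (hf : Continuous f) : MemLp f ⊤ (volume.restrict Ω) :=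
  memLp_sub subset_closure (memLp_on_compact hb.isCompact_closure hf ⊤)

theorem integrableOn_of_continuous {S : Set (ℝ × ℝ)} (hb : Bornology.IsBounded S) {f : ℝ × ℝ → ℝ}
    (hf : Continuous f) : IntegrableOn f S :=
  (hf.continuousOn.integrableOn_compact hb.isCompact_closure).mono_set subset_closure

theorem vol_disc {R : ℝ} (hR : 0 ≤ R) : volume (disc R) = ENNReal.ofReal (Real.pi * R ^ 2) := by
  have h := Complex.volume_preserving_equiv_real_prod.measure_preimage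
    (s := disc R) (isOpen_disc R).measurableSet.nullMeasurableSet
  have e : Complex.measurableEquivRealProd ⁻¹' disc R = Metric.ball 0 R := by
    ext z
    simp only [mem_preimage, disc, mem_ofPred_eq, Complex.measurableEquivRealProd_apply,
      mem_ball_zero_iff]
    rw [← sq_lt_sq₀ (norm_nonneg _) hR, Complex.sq_norm, Complex.normSq_apply, sq, sq]
  rw [← h, e, Complex.volume_ball, ← ENNReal.ofReal_pow hR, mul_comm,
    ENNReal.ofReal_mul Real.pi_pos.le, ← NNReal.coe_real_pi, ENNReal.ofReal_coe_nnreal]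

theorem vol_discAt (c : ℝ × ℝ) (R : ℝ) : volume (discAt c R) = volume (disc R) := by
  have e : discAt c R = (fun p => p + -c) ⁻¹' disc R := by
    ext p; rw [mem_discAt, mem_preimage, sub_eq_add_neg]
  rw [e, measure_preimage_add_right]

/-- circles are null sets -/
theorem ae_sq2_ne (s : ℝ) : ∀ᵐ p : ℝ × ℝ, sq2 p ≠ s := by
  have hm : MeasurableSet {p : ℝ × ℝ | sq2 p = s} :=
    (isClosed_eq continuous_sq2 continuous_const).measurableSet
  have : (volume : Measure (ℝ × ℝ)) {p : ℝ × ℝ | sq2 p = s} = 0 := by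
    rw [Measure.volume_eq_prod, Measure.measure_prod_null hm]
    refine Eventually.of_forall fun x => ?_
    have hf : (Prod.mk x ⁻¹' {p : ℝ × ℝ | sq2 p = s}) ⊆
        {Real.sqrt (s - x ^ 2), -Real.sqrt (s - x ^ 2)} := by
      intro y hy
      have hy : x ^ 2 + y ^ 2 = s := hy
      have h1 : Real.sqrt (s - x ^ 2) = |y| := by
        rw [← Real.sqrt_sq_eq_abs]; congr 1; linarith
      rw [h1]
      rcases le_total 0 y with h | h
      · left; exact (abs_of_nonneg h).symm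
      · right; simp [abs_of_nonpos h]
    exact measure_mono_null hf ((Set.toFinite _).measure_zero _)
  rw [ae_iff]
  simpa using this

end Pool.Agent.Lib.MP_d36e13_an.DC
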