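import Pool.Agent.Lib.MP_d36e13_an.DC.Lip

open MeasureTheory Set Filter Topology Metric
open scoped ENNReal ContDiff

namespace Pool.Agent.Lib.MP_d36e13_an.DC

theorem can_locLip_comp {E F : Type*} [PseudoMetricSpace E] [NormedAddCommGroup F]
    [NormedSpace ℝ F] {m : E → F} {H : F → ℝ} (hm : LocallyLipschitz m)
    (hH : ∀ x, ContDiffAt ℝ 1 H (m x)) : LocallyLipschitz fun x => H (m x) := by
  intro x
  obtain ⟨K, t, ht, hK⟩ := (hH x).exists_lipschitzOnWith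
  obtain ⟨K', s, hs, hK'⟩ := hm x
  refine ⟨K * K', s ∩ m ⁻¹' t, inter_mem hs (hm.continuous.continuousAt.preimage_mem_nhds ht), ?_⟩
  exact hK.comp (hK'.mono inter_subset_left) fun y hy => hy.2

theorem can_inner (c : ℝ × ℝ) (R₀ : ℝ) :
    LocallyLipschitz fun p : ℝ × ℝ => (max (sq2 (p - c)) (R₀ ^ 2), p - c) := by
  have h1 : ContDiff ℝ 1 fun p : ℝ × ℝ => sq2 (p - c) := by unfold sq2; fun_prop
  have h2 : ContDiff ℝ 1 fun p : ℝ × ℝ => p - c := by fun_prop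
  exact (h1.locallyLipschitz.max_const _).prodMk h2.locallyLipschitz

theorem can_max_ne (c : ℝ × ℝ) {R₀ : ℝ} (hR₀ : 0 < R₀) (p : ℝ × ℝ) :
    max (sq2 (p - c)) (R₀ ^ 2) ≠ 0 :=
  (lt_of_lt_of_le (by positivity) (le_max_right _ _)).ne'

theorem can_lip1 (c : ℝ × ℝ) {R₀ : ℝ} (hR₀ : 0 < R₀) (Φ : ℝ) :
    LocallyLipschitz fun p : ℝ × ℝ => P1 Φ R₀ (p - c) := by
  refine can_locLip_comp (H := fun q : ℝ × (ℝ × ℝ) => -(Φ / q.1 * q.2.2)) (can_inner c R₀)
    fun x => ?_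
  refine ((contDiffAt_const.div contDiffAt_fst (can_max_ne c hR₀ x)).mul ?_).neg
  exact contDiffAt_snd.snd

theorem can_lip2 (c : ℝ × ℝ) {R₀ : ℝ} (hR₀ : 0 < R₀) (Φ : ℝ) :
    LocallyLipschitz fun p : ℝ × ℝ => P2 Φ R₀ (p - c) := by
  refine can_locLip_comp (H := fun q : ℝ × (ℝ × ℝ) => Φ / q.1 * q.2.1) (can_inner c R₀)
    fun x => ?_
  refine (contDiffAt_const.div contDiffAt_fst (can_max_ne c hR₀ x)).mul ?_
  exact contDiffAt_snd.fst

theorem can_dd_congr {f g : ℝ × ℝ → ℝ} {p : ℝ × ℝ} (h : f =ᶠ[𝓝 p] g) (v : ℝ × ℝ) :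
    dd v f p = dd v g p := by
  unfold dd; rw [h.fderiv_eq]

theorem can_fst (c p : ℝ × ℝ) :
    HasFDerivAt (fun q : ℝ × ℝ => q.1 - c.1) (ContinuousLinearMap.fst ℝ ℝ ℝ) p :=
  hasFDerivAt_fst.sub_const c.1

theorem can_snd (c p : ℝ × ℝ) :
    HasFDerivAt (fun q : ℝ × ℝ => q.2 - c.2) (ContinuousLinearMap.snd ℝ ℝ ℝ) p :=
  hasFDerivAt_snd.sub_const c.2

theorem can_curl_in (c : ℝ × ℝ) (Φ R₀ : ℝ) {p : ℝ × ℝ} (hp : sq2 (p - c) < R₀ ^ 2) :
    dd (1, 0) (fun q => P2 Φ R₀ (q - c)) p =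
      dd (0, 1) (fun q => P1 Φ R₀ (q - c)) p + 2 * Φ / R₀ ^ 2 := by
  have hc : Continuous fun q : ℝ × ℝ => sq2 (q - c) := continuous_sq2.comp (by fun_prop)
  have hn : ∀ᶠ q in 𝓝 p, sq2 (q - c) < R₀ ^ 2 := (isOpen_lt hc continuous_const).mem_nhds hp
  have e1 : (fun q => P1 Φ R₀ (q - c)) =ᶠ[𝓝 p] fun q => -(Φ / R₀ ^ 2) * (q.2 - c.2) := by
    filter_upwards [hn] with q hq
    simp only [P1, ca, max_eq_right hq.le, Prod.snd_sub]; ring
  have e2 : (fun q => P2 Φ R₀ (q - c)) =ᶠ[𝓝 p] fun q => (Φ / R₀ ^ 2) * (q.1 - c.1) := by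
    filter_upwards [hn] with q hq
    simp only [P2, ca, max_eq_right hq.le, Prod.fst_sub]
  rw [can_dd_congr e1, can_dd_congr e2, dd_of_hasFDerivAt ((can_snd c p).const_mul _),
    dd_of_hasFDerivAt ((can_fst c p).const_mul _)]
  simp
  ring

theorem can_curl_out (c : ℝ × ℝ) (Φ R₀ : ℝ) {p : ℝ × ℝ} (hp : R₀ ^ 2 < sq2 (p - c)) :
    dd (1, 0) (fun q => P2 Φ R₀ (q - c)) p = dd (0, 1) (fun q => P1 Φ R₀ (q - c)) p := by
  have hc : Continuous fun q : ℝ × ℝ => sq2 (q - c) := continuous_sq2.comp (by fun_prop)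
  have hn : ∀ᶠ q in 𝓝 p, R₀ ^ 2 < sq2 (q - c) := (isOpen_lt continuous_const hc).mem_nhds hp
  have h0 : (p.1 - c.1) * (p.1 - c.1) + (p.2 - c.2) * (p.2 - c.2) ≠ 0 := by
    have : sq2 (p - c) = (p.1 - c.1) * (p.1 - c.1) + (p.2 - c.2) * (p.2 - c.2) := by
      simp only [sq2, Prod.fst_sub, Prod.snd_sub]; ring
    rw [← this]
    exact (lt_of_le_of_lt (sq_nonneg R₀) hp).ne'
  let s : ℝ × ℝ → ℝ := fun q => (q.1 - c.1) * (q.1 - c.1) + (q.2 - c.2) * (q.2 - c.2)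
  have hs : DifferentiableAt ℝ s p := by fun_prop
  have d1 : DifferentiableAt ℝ (fun q : ℝ × ℝ => q.1 - c.1) p := (can_fst c p).differentiableAt
  have d2 : DifferentiableAt ℝ (fun q : ℝ × ℝ => q.2 - c.2) p := (can_snd c p).differentiableAt
  have ds : ∀ v : ℝ × ℝ, dd v s p = 2 * (p.1 - c.1) * v.1 + 2 * (p.2 - c.2) * v.2 := by
    intro v
    have e : dd v s p = dd v (fun q : ℝ × ℝ => (q.1 - c.1) * (q.1 - c.1)) p +
        dd v (fun q : ℝ × ℝ => (q.2 - c.2) * (q.2 - c.2)) p :=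
      dd_add (f := fun q : ℝ × ℝ => (q.1 - c.1) * (q.1 - c.1))
        (g := fun q : ℝ × ℝ => (q.2 - c.2) * (q.2 - c.2)) (d1.mul d1) (d2.mul d2)
    rw [e, dd_mul d1 d1, dd_mul d2 d2,
      dd_of_hasFDerivAt (can_fst c p), dd_of_hasFDerivAt (can_snd c p)]
    simp
    ring
  have hi : HasDerivAt (fun t : ℝ => Φ * t⁻¹) (Φ * -((s p) ^ 2)⁻¹) (s p) :=
    (hasDerivAt_inv h0).const_mul Φ
  have da : DifferentiableAt ℝ (fun q => Φ * (s q)⁻¹) p :=
    (hi.comp_hasFDerivAt p hs.hasFDerivAt).differentiableAt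
  have dda : ∀ v : ℝ × ℝ, dd v (fun q => Φ * (s q)⁻¹) p =
      Φ * -((s p) ^ 2)⁻¹ * (2 * (p.1 - c.1) * v.1 + 2 * (p.2 - c.2) * v.2) := by
    intro v
    rw [← ds v]
    exact dd_comp (h := fun t : ℝ => Φ * t⁻¹) hi hs
  have es : ∀ q : ℝ × ℝ, sq2 (q - c) = s q := by
    intro q; simp only [s, sq2, Prod.fst_sub, Prod.snd_sub]; ring
  have e1 : (fun q => P1 Φ R₀ (q - c)) =ᶠ[𝓝 p] fun q => Φ * (s q)⁻¹ * (-1 * (q.2 - c.2)) := by
    filter_upwards [hn] with q hq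
    rw [P1, ca, max_eq_left hq.le, es q, Prod.snd_sub]; ring
  have e2 : (fun q => P2 Φ R₀ (q - c)) =ᶠ[𝓝 p] fun q => Φ * (s q)⁻¹ * (q.1 - c.1) := by
    filter_upwards [hn] with q hq
    rw [P2, ca, max_eq_left hq.le, es q, Prod.fst_sub]; ring
  rw [can_dd_congr e1, can_dd_congr e2, dd_mul da d1, dd_mul da (d2.const_mul _), dda, dda,
    dd_of_hasFDerivAt (can_fst c p), dd_of_hasFDerivAt ((can_snd c p).const_mul _)]
  have h1 : s p ≠ 0 := h0
  have h2 : s p = (p.1 - c.1) * (p.1 - c.1) + (p.2 - c.2) * (p.2 - c.2) := rfl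
  simp only [ContinuousLinearMap.coe_fst', smul_apply,
    ContinuousLinearMap.coe_snd', smul_eq_mul]
  field_simp
  rw [h2]
  ring

/-- The rotation invariant field centred at `c` is a potential for the disc with centre `c`. -/
theorem isPotential_can {Ω : Set (ℝ × ℝ)} (hΩ : IsOpen Ω) (hb : Bornology.IsBounded Ω)
    (c : ℝ × ℝ) {R₀ : ℝ} (hR₀ : 0 < R₀) (hD : discAt c R₀ ⊆ Ω) (Φ : ℝ) :
    IsPotential Φ Ω (discAt c R₀) (fun p => P1 Φ R₀ (p - c)) (fun p => P2 Φ R₀ (p - c)) := by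
  have l1 := can_lip1 c hR₀ Φ
  have l2 := can_lip2 c hR₀ Φ
  refine ⟨memLp_top_of_continuous hb l1.continuous, memLp_top_of_continuous hb l2.continuous,
    fun φ hφ => ?_⟩
  have c1 : ContDiff ℝ 1 φ := hφ.1.of_le top_one
  have lφ : LocallyLipschitzOn Ω φ := c1.locallyLipschitz.locallyLipschitzOn
  have i1 : IntegrableOn (fun p => P1 Φ R₀ (p - c) * dd (0, 1) φ p) Ω :=
    integrableOn_of_continuous hb (l1.continuous.mul (continuous_dd c1))
  have i2 : IntegrableOn (fun p => P2 Φ R₀ (p - c) * dd (1, 0) φ p) Ω :=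
    integrableOn_of_continuous hb (l2.continuous.mul (continuous_dd c1))
  have iφ : IntegrableOn φ Ω := integrableOn_of_continuous hb c1.continuous
  have mD : MeasurableSet (discAt c R₀) :=
    (isOpen_lt (by fun_prop) continuous_const : IsOpen (discAt c R₀)).measurableSet
  have i3 : IntegrableOn (fun p => dd (0, 1) (fun q => P1 Φ R₀ (q - c)) p * φ p) Ω := by
    have hK : IsCompact (tsupport φ) := hφ.2.1
    have m := memLp_dd hΩ l1.locallyLipschitzOn hK hφ.2.2 (0, 1)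
    have j : IntegrableOn φ (tsupport φ) := c1.continuous.continuousOn.integrableOn_compact hK
    have k : IntegrableOn (fun p => dd (0, 1) (fun q => P1 Φ R₀ (q - c)) p * φ p) (tsupport φ) :=
      Integrable.mul_of_top_right j m
    refine k.of_forall_sdiff_eq_zero hΩ.measurableSet fun x hx => ?_
    rw [image_eq_zero_of_notMem_tsupport hx.2, mul_zero]
  have i4 : IntegrableOn (fun p => 2 * Φ / R₀ ^ 2 * (discAt c R₀).indicator φ p) Ω :=
    (Integrable.indicator iφ mD).const_mul _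
  have hae : ∀ᵐ p : ℝ × ℝ, sq2 (p - c) ≠ R₀ ^ 2 :=
    (measurePreserving_sub_right volume c).quasiMeasurePreserving.ae (ae_sq2_ne (R₀ ^ 2))
  have key : ∫ p in Ω, dd (1, 0) (fun q => P2 Φ R₀ (q - c)) p * φ p =
      ∫ p in Ω, (dd (0, 1) (fun q => P1 Φ R₀ (q - c)) p * φ p +
        2 * Φ / R₀ ^ 2 * (discAt c R₀).indicator φ p) := by
    refine integral_congr_ae (ae_restrict_of_ae ?_)
    filter_upwards [hae] with p hp
    rcases lt_or_gt_of_ne hp with h | h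
    · have hm : p ∈ discAt c R₀ := h
      rw [can_curl_in c Φ R₀ h, indicator_of_mem hm]; ring
    · have hm : p ∉ discAt c R₀ := fun hm => absurd (show sq2 (p - c) < R₀ ^ 2 from hm) h.not_gt
      rw [can_curl_out c Φ R₀ h, indicator_of_notMem hm]; ring
  rw [d1_eq, d2_eq, integral_sub i1 i2,
    ibp_lip hΩ l1.locallyLipschitzOn lφ hφ.2.1 hφ.2.2 (0, 1),
    ibp_lip hΩ l2.locallyLipschitzOn lφ hφ.2.1 hφ.2.2 (1, 0), key, integral_add i3 i4,
    integral_const_mul, setIntegral_indicator mD, inter_eq_self_of_subset_right hD, vol_discAt,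
    vol_disc hR₀.le, ENNReal.toReal_ofReal (by positivity)]
  have := Real.pi_pos
  field_simp
  ring

end Pool.Agent.Lib.MP_d36e13_an.DC
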