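import Pool.Agent.Lib.MP_d36e13_an.DC.Lip

open MeasureTheory Set Filter Topology Metric
open scoped ENNReal ContDiff

namespace Pool.Agent.Lib.MP_d36e13_an.DC

theorem const_dd_mol {U : Set (ℝ × ℝ)} (hU : IsOpen U) {f : ℝ × ℝ → ℝ} {K : NNReal}
    (hf : LipschitzWith K f) {v : ℝ × ℝ} (h0 : ∀ᵐ p ∂(volume.restrict U), dd v f p = 0)
    {φ : ContDiffBump (0 : ℝ × ℝ)} {y : ℝ × ℝ} (hy : closedBall y φ.rOut ⊆ U) :
    dd v (mol φ f) y = 0 := by
  have ht := isTest_shift hy
  have c1 : ContDiff ℝ 1 (fun t => φ.normed volume (y - t)) := ht.1.of_le top_one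
  have h := ibp_lip hU (p := f) (ψ := fun t => φ.normed volume (y - t))
    hf.locallyLipschitz.locallyLipschitzOn c1.locallyLipschitz.locallyLipschitzOn ht.2.1 ht.2.2 v
  have h2 : ∫ x in U, dd v f x * φ.normed volume (y - x) = 0 := by
    refine integral_eq_zero_of_ae (h0.mono fun p hp => ?_)
    simp only [hp, zero_mul, Pi.zero_apply]
  rw [h2, neg_zero, setIntegral_eq_integral_of_forall_compl_eq_zero (fun x hx => by
    rw [dd_eq_zero_of_notMem fun h => hx (ht.2.2 h), mul_zero])] at h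
  rw [dd_mol hf.continuous.locallyIntegrable]
  simp only [dd_shift, mul_neg, integral_neg, neg_eq_zero] at h
  exact h

theorem const_mol_tendsto {f : ℝ × ℝ → ℝ} (hf : Continuous f) {φ : ℕ → ContDiffBump (0 : ℝ × ℝ)}
    (hφ : Tendsto (fun i => (φ i).rOut) atTop (𝓝 0)) (y : ℝ × ℝ) :
    Tendsto (fun i => mol (φ i) f y) atTop (𝓝 (f y)) := by
  have h := ContDiffBump.convolution_tendsto_right_of_continuous (μ := volume) hφ hf y
  refine h.congr fun i => ?_
  rw [mol_eq, convolution_eq_swap]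
  refine integral_congr_ae (Eventually.of_forall fun t => ?_)
  simp [mul_comm]

/-- A Lipschitz function whose derivative vanishes a.e. on an open set is locally constant there. -/
theorem eventually_const {U : Set (ℝ × ℝ)} (hU : IsOpen U) {f : ℝ × ℝ → ℝ} {K : NNReal}
    (hf : LipschitzWith K f)
    (h0 : ∀ᵐ p ∂(volume.restrict U), dd (1, 0) f p = 0 ∧ dd (0, 1) f p = 0) {x : ℝ × ℝ}
    (hx : x ∈ U) : ∀ᶠ y in 𝓝 x, f y = f x := by
  obtain ⟨r, hr, hb⟩ := Metric.isOpen_iff.1 hU x hx
  have hr2 : 0 < r / 2 := half_pos hr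
  have pos : ∀ n : ℕ, 0 < r / 2 * (1 / ((n : ℝ) + 1)) := fun n => by positivity
  let φ : ℕ → ContDiffBump (0 : ℝ × ℝ) := fun n => bump _ (pos n)
  have hφ : Tendsto (fun n => (φ n).rOut) atTop (𝓝 0) := by
    have := tendsto_one_div_add_atTop_nhds_zero_nat (𝕜 := ℝ) |>.const_mul (r / 2)
    simpa [φ, bump] using this
  have hle : ∀ n, (φ n).rOut ≤ r / 2 := fun n => by
    have h1 : 1 / ((n : ℝ) + 1) ≤ 1 := by
      rw [div_le_one (by positivity)]
      linarith [Nat.cast_nonneg (α := ℝ) n]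
    exact mul_le_of_le_one_right hr2.le h1
  have hsub : ∀ n, ∀ y ∈ ball x (r / 2), closedBall y (φ n).rOut ⊆ U := fun n y hy z hz => by
    refine hb ?_
    rw [mem_ball] at hy ⊢
    rw [mem_closedBall] at hz
    linarith [dist_triangle z y x, hle n]
  have hc : ∀ n, ∀ y ∈ ball x (r / 2), mol (φ n) f y = mol (φ n) f x := fun n y hy => by
    have hd : Differentiable ℝ (mol (φ n) f) :=
      (contDiff_mol hf.continuous.locallyIntegrable).differentiable (by simp)
    refine isOpen_ball.is_const_of_fderiv_eq_zero (convex_ball x (r / 2)).isPreconnected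
      hd.differentiableOn (fun z hz => ?_) hy (mem_ball_self hr2)
    have e1 := const_dd_mol hU hf (h0.mono fun p hp => hp.1) (hsub n z hz)
    have e2 := const_dd_mol hU hf (h0.mono fun p hp => hp.2) (hsub n z hz)
    unfold dd at e1 e2
    ext
    · simpa using e1
    · simpa using e2
  filter_upwards [ball_mem_nhds x hr2] with y hy
  exact tendsto_nhds_unique ((const_mol_tendsto hf.continuous hφ y).congr fun n => hc n y hy)
    (const_mol_tendsto hf.continuous hφ x)

end Pool.Agent.Lib.MP_d36e13_an.DC
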