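import Pool.Agent.Lib.MP_d36e13_an.DC.Base

open MeasureTheory Set Filter Topology Metric
open scoped ENNReal ContDiff

namespace Pool.Agent.Lib.MP_d36e13_an.DC

theorem frz_sqrt_eq (p : ℝ × ℝ) : Real.sqrt (sq2 p) = ‖(⟨p.1, p.2⟩ : ℂ)‖ := by
  rw [Complex.norm_def, Complex.normSq_mk, sq2, sq, sq]

theorem frz_norm_le (p : ℝ × ℝ) : ‖p‖ ≤ Real.sqrt (sq2 p) := by
  rw [Prod.norm_def, Real.norm_eq_abs, Real.norm_eq_abs]
  refine max_le (Real.abs_le_sqrt ?_) (Real.abs_le_sqrt ?_) <;> unfold sq2 <;>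
    nlinarith [sq_nonneg p.1, sq_nonneg p.2]

theorem frz_sqrt_lip (p q : ℝ × ℝ) :
    |Real.sqrt (sq2 p) - Real.sqrt (sq2 q)| ≤ 2 * ‖p - q‖ := by
  rw [frz_sqrt_eq, frz_sqrt_eq]
  refine (abs_norm_sub_norm_le _ _).trans ((Complex.norm_le_abs_re_add_abs_im _).trans ?_)
  have h1 : |p.1 - q.1| ≤ ‖p - q‖ := norm_fst_le (p - q)
  have h2 : |p.2 - q.2| ≤ ‖p - q‖ := norm_snd_le (p - q)
  simp only [Complex.sub_re, Complex.sub_im]
  linarith

/-- radial retraction onto the closed disc -/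
noncomputable def frzRho (r : ℝ) (p : ℝ × ℝ) : ℝ × ℝ := (r / max r (Real.sqrt (sq2 p))) • p

theorem frzRho_mem {r : ℝ} (hr : 0 < r) (p : ℝ × ℝ) : frzRho r p ∈ closedBall (0 : ℝ × ℝ) r := by
  have hM : 0 < max r (Real.sqrt (sq2 p)) := lt_max_of_lt_left hr
  rw [mem_closedBall_zero_iff, frzRho, norm_smul, Real.norm_eq_abs, abs_of_pos (div_pos hr hM),
    div_mul_eq_mul_div, div_le_iff₀ hM]
  exact mul_le_mul_of_nonneg_left ((frz_norm_le p).trans (le_max_right _ _)) hr.le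

theorem frzRho_lip {r : ℝ} (hr : 0 < r) : LipschitzWith 3 (frzRho r) := by
  refine LipschitzWith.of_dist_le_mul fun p q => ?_
  rw [dist_eq_norm, dist_eq_norm]
  set a := max r (Real.sqrt (sq2 p)) with ha
  set b := max r (Real.sqrt (sq2 q)) with hb
  have ha0 : 0 < a := lt_max_of_lt_left hr
  have hb0 : 0 < b := lt_max_of_lt_left hr
  have hra : r ≤ a := le_max_left _ _
  have hqb : ‖q‖ ≤ b := (frz_norm_le q).trans (le_max_right _ _)
  have hab : |b - a| ≤ 2 * ‖p - q‖ := by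
    rw [abs_sub_comm, ha, hb, max_comm r, max_comm r]
    exact (abs_max_sub_max_le_abs _ _ _).trans (frz_sqrt_lip p q)
  have e : frzRho r p - frzRho r q = (r / a) • (p - q) + ((r / a) * ((b - a) / b)) • q := by
    have : r / a * ((b - a) / b) = r / a - r / b := by field_simp
    rw [this, smul_sub, sub_smul]
    simp only [frzRho, ← ha, ← hb]
    abel
  have h1 : r / a ≤ 1 := (div_le_one ha0).2 hra
  have h0 : 0 ≤ r / a := (div_pos hr ha0).le
  have h2 : ‖(r / a) • (p - q)‖ ≤ ‖p - q‖ := by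
    rw [norm_smul, Real.norm_eq_abs, abs_of_nonneg h0]
    exact mul_le_of_le_one_left (norm_nonneg _) h1
  have h3 : ‖((r / a) * ((b - a) / b)) • q‖ ≤ |b - a| := by
    rw [norm_smul, Real.norm_eq_abs, abs_mul, abs_of_nonneg h0, abs_div, abs_of_pos hb0, mul_assoc]
    refine (mul_le_of_le_one_left (by positivity) h1).trans ?_
    rw [div_mul_eq_mul_div, div_le_iff₀ hb0]
    exact mul_le_mul_of_nonneg_left hqb (abs_nonneg _)
  rw [e]
  refine (norm_add_le _ _).trans ?_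
  push_cast
  linarith

theorem frzRho_rot (r t : ℝ) (p : ℝ × ℝ) : frzRho r (rot t p) = rot t (frzRho r p) := by
  rw [frzRho, frzRho, sq2_rot, ← rotL_apply, ← rotL_apply, map_smul]

theorem frzRho_in {r : ℝ} (hr : 0 < r) {p : ℝ × ℝ} (hp : sq2 p < r ^ 2) : frzRho r p = p := by
  have : Real.sqrt (sq2 p) ≤ r := Real.sqrt_le_iff.2 ⟨hr.le, hp.le⟩
  rw [frzRho, max_eq_left this, div_self hr.ne', one_smul]

theorem frzRho_out {r : ℝ} {p : ℝ × ℝ} (hp : r ^ 2 < sq2 p) :
    frzRho r p = (r / Real.sqrt (sq2 p)) • p := by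
  have : r ≤ Real.sqrt (sq2 p) := Real.le_sqrt_of_sq_le hp.le
  rw [frzRho, max_eq_right this]

theorem frz_sq2_smul (s : ℝ) (p : ℝ × ℝ) : sq2 (s • p) = s ^ 2 * sq2 p := by
  simp only [sq2, Prod.smul_fst, Prod.smul_snd, smul_eq_mul]; ring

/-- Freezing a function radially outside the circle of radius `r`. -/
theorem exists_freeze {m : ℤ} {w : ℝ × ℝ → ℂ} (hw : ContDiff ℝ 1 w) (hE : Equi m w) {r : ℝ}
    (hr : 0 < r) :
    ∃ (F : ℝ × ℝ → ℂ) (K : NNReal), LipschitzWith K F ∧ Equi m F ∧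
      (∀ p, sq2 p < r ^ 2 → F =ᶠ[𝓝 p] w) ∧
      (∀ p, r ^ 2 < sq2 p → DifferentiableAt ℝ F p ∧ fderiv ℝ F p p = 0 ∧
        F p = w ((r / Real.sqrt (sq2 p)) • p)) := by
  obtain ⟨K, hK⟩ := (hw.contDiffOn (s := closedBall (0 : ℝ × ℝ) r)).exists_lipschitzOnWith
    (by simp) (convex_closedBall _ _) (isCompact_closedBall _ _)
  refine ⟨w ∘ frzRho r, K * 3, ?_, ?_, ?_, ?_⟩
  · rw [← lipschitzOnWith_univ]
    exact hK.comp (frzRho_lip hr).lipschitzOnWith (fun p _ => frzRho_mem hr p)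
  · intro t p
    simp only [Function.comp]
    rw [frzRho_rot, hE]
  · intro p hp
    filter_upwards [(isOpen_lt continuous_sq2 continuous_const).mem_nhds hp] with q hq
    simp only [Function.comp]
    rw [frzRho_in hr hq]
  · intro p hp
    have hU := (isOpen_lt continuous_const continuous_sq2).mem_nhds hp
    have hp0 : 0 < sq2 p := lt_of_le_of_lt (sq_nonneg r) hp
    have hd : DifferentiableAt ℝ (w ∘ frzRho r) p := by
      have h1 : DifferentiableAt ℝ sq2 p := by unfold sq2; fun_prop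
      have h0 : DifferentiableAt ℝ (fun q : ℝ × ℝ => r / Real.sqrt (sq2 q)) p := by
        simp only [div_eq_mul_inv]
        exact ((h1.sqrt hp0.ne').inv (Real.sqrt_pos.2 hp0).ne').const_mul r
      have h2 : DifferentiableAt ℝ (fun q : ℝ × ℝ => (r / Real.sqrt (sq2 q)) • q) p :=
        h0.smul differentiableAt_id
      have h3 : frzRho r =ᶠ[𝓝 p] fun q : ℝ × ℝ => (r / Real.sqrt (sq2 q)) • q := by
        filter_upwards [hU] with q hq
        exact frzRho_out hq
      exact (hw.differentiable (by simp) _).comp p (h2.congr_of_eventuallyEq h3)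
    refine ⟨hd, ?_, by simp only [Function.comp]; rw [frzRho_out hp]⟩
    have hl : HasDerivAt (fun s : ℝ => s • p) p 1 := by
      simpa using (hasDerivAt_id (1 : ℝ)).smul_const p
    have h1 : HasDerivAt (fun s : ℝ => (w ∘ frzRho r) (s • p)) (fderiv ℝ (w ∘ frzRho r) p p) 1 :=
      HasFDerivAt.comp_hasDerivAt_of_eq (l := w ∘ frzRho r) (f := fun s : ℝ => s • p) (1 : ℝ)
        hd.hasFDerivAt hl (one_smul ℝ p).symm
    have hc : Tendsto (fun s : ℝ => s • p) (𝓝 1) (𝓝 p) := by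
      have := hl.continuousAt.tendsto
      rwa [one_smul] at this
    have h2 : (fun s : ℝ => (w ∘ frzRho r) (s • p)) =ᶠ[𝓝 1] fun _ => (w ∘ frzRho r) p := by
      filter_upwards [hc hU, Ioi_mem_nhds (show (0 : ℝ) < 1 by norm_num)] with s hs hs0
      have hs0 : 0 < s := hs0
      have hs : r ^ 2 < sq2 (s • p) := hs
      simp only [Function.comp]
      rw [frzRho_out hs, frzRho_out hp, frz_sq2_smul, Real.sqrt_mul (sq_nonneg s),
        Real.sqrt_sq hs0.le, smul_smul]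
      congr 2
      field_simp
    exact h1.unique ((hasDerivAt_const (1 : ℝ) _).congr_of_eventuallyEq h2)

end Pool.Agent.Lib.MP_d36e13_an.DC
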