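import Pool.Agent.Lib.MP_d36e13_an.DC.LipTest

open MeasureTheory Set Filter Topology Metric
open scoped ENNReal ContDiff

namespace Pool.Agent.Lib.MP_d36e13_an.DC

/-- the phase factor -/
noncomputable def gph (t : ℝ) : ℂ := (Real.cos t : ℂ) + (Real.sin t : ℂ) * Complex.I

theorem norm_gph (t : ℝ) : ‖gph t‖ = 1 := by
  unfold gph
  rw [Complex.ofReal_cos, Complex.ofReal_sin]
  exact Complex.norm_cos_add_sin_mul_I t

theorem continuous_gph : Continuous gph := by unfold gph; fun_prop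

theorem enorm_gph_mul (t : ℝ) (z : ℂ) : ‖gph t * z‖ₑ = ‖z‖ₑ := by
  rw [← ofReal_norm, ← ofReal_norm, norm_mul, norm_gph, one_mul]

theorem ga_mul {μ : Measure (ℝ × ℝ)} {f g : ℝ × ℝ → ℂ} (hf : MemLp f ⊤ μ) (hg : MemLp g 2 μ) :
    MemLp (fun p => f p * g p) 2 μ :=
  hg.mul' hf

theorem ga_lip {Ω : Set (ℝ × ℝ)} {χ φ : ℝ × ℝ → ℝ} (hχ : LocallyLipschitzOn Ω χ)
    (hφ : ContDiff ℝ 1 φ) {h : ℝ → ℝ} (hh : ContDiff ℝ 1 h) :
    LocallyLipschitzOn Ω (fun p => h (χ p) * φ p) := by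
  rw [locallyLipschitzOn_iff_restrict] at hχ ⊢
  have h1 : ContDiff ℝ 1 (fun q : ℝ × (ℝ × ℝ) => h q.1 * φ q.2) :=
    (hh.comp contDiff_fst).mul (hφ.comp contDiff_snd)
  have h2 : LocallyLipschitz (Subtype.val : Ω → ℝ × ℝ) :=
    (LipschitzWith.subtype_val Ω).locallyLipschitz
  exact h1.locallyLipschitz.comp (hχ.prodMk h2)

theorem ga_top {Ω : Set (ℝ × ℝ)} (hΩ : IsOpen Ω) {χ : ℝ × ℝ → ℝ} (hχ : LocallyLipschitzOn Ω χ)
    {h : ℝ → ℂ} (hh : Continuous h) (hb : ∀ t, ‖h t‖ ≤ 1) :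
    MemLp (fun p => h (χ p)) ⊤ (volume.restrict Ω) :=
  memLp_top_of_bound ((hh.comp_continuousOn hχ.continuousOn).aestronglyMeasurable hΩ.measurableSet)
    1 (Eventually.of_forall fun _ => hb _)

theorem ga_weak {Ω : Set (ℝ × ℝ)} (hΩ : IsOpen Ω) {χ a φ : ℝ × ℝ → ℝ} {u g : ℝ × ℝ → ℂ}
    {v : ℝ × ℝ} (hχ : LocallyLipschitzOn Ω χ) (ha : MemLp a ⊤ (volume.restrict Ω))
    (hd : ∀ᵐ p ∂(volume.restrict Ω), dd v χ p = a p) (hu : MemLp u 2 (volume.restrict Ω))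
    (hg : MemLp g 2 (volume.restrict Ω))
    (H : ∀ ψ : ℝ × ℝ → ℝ, LocallyLipschitzOn Ω ψ → HasCompactSupport ψ → tsupport ψ ⊆ Ω →
      ∫ p in Ω, u p * (dd v ψ p : ℂ) = - ∫ p in Ω, g p * (ψ p : ℂ)) (hφ : IsTest Ω φ) :
    ∫ p in Ω, gph (χ p) * u p * (dd v φ p : ℂ) =
      - ∫ p in Ω, gph (χ p) * (g p + Complex.I * ((a p : ℂ) * u p)) * (φ p : ℂ) := by
  have c1 : ContDiff ℝ 1 φ := hφ.1.of_le top_one
  have hs : ∀ h : ℝ → ℝ, tsupport (fun p => h (χ p) * φ p) ⊆ tsupport φ := fun h =>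
    tsupport_mul_subset_right
  have hc : ∀ h : ℝ → ℝ, HasCompactSupport (fun p => h (χ p) * φ p) := fun h =>
    hφ.2.1.of_isClosed_subset (isClosed_tsupport _) (hs h)
  have e1 := H _ (ga_lip hχ c1 Real.contDiff_cos) (hc _) ((hs _).trans hφ.2.2)
  have e2 := H _ (ga_lip hχ c1 Real.contDiff_sin) (hc _) ((hs _).trans hφ.2.2)
  have mφ : MemLp (fun p => (φ p : ℂ)) 2 (volume.restrict Ω) :=
    (c1.continuous.memLp_of_hasCompactSupport (μ := volume.restrict Ω) hφ.2.1).ofReal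
  have md : MemLp (fun p => (dd v φ p : ℂ)) 2 (volume.restrict Ω) :=
    ((continuous_dd c1).memLp_of_hasCompactSupport (μ := volume.restrict Ω)
      (hasCompactSupport_dd hφ.2.1)).ofReal
  have mc : MemLp (fun p => (Real.cos (χ p) : ℂ)) ⊤ (volume.restrict Ω) :=
    ga_top hΩ hχ (h := fun t => (Real.cos t : ℂ)) (by fun_prop) fun t => by
      rw [Complex.norm_real]; exact Real.abs_cos_le_one t
  have ms : MemLp (fun p => (Real.sin (χ p) : ℂ)) ⊤ (volume.restrict Ω) :=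
    ga_top hΩ hχ (h := fun t => (Real.sin t : ℂ)) (by fun_prop) fun t => by
      rw [Complex.norm_real]; exact Real.abs_sin_le_one t
  have mau : MemLp (fun p => (a p : ℂ) * u p) 2 (volume.restrict Ω) := ga_mul ha.ofReal hu
  have i1 : Integrable (fun p => (Real.cos (χ p) : ℂ) * u p * (dd v φ p : ℂ)) (volume.restrict Ω) :=
    (ga_mul mc hu).integrable_mul md
  have i2 : Integrable (fun p => (Real.sin (χ p) : ℂ) * u p * (dd v φ p : ℂ)) (volume.restrict Ω) :=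
    (ga_mul ms hu).integrable_mul md
  have i3 : Integrable (fun p => (Real.cos (χ p) : ℂ) * ((a p : ℂ) * u p) * (φ p : ℂ))
      (volume.restrict Ω) := (ga_mul mc mau).integrable_mul mφ
  have i4 : Integrable (fun p => (Real.sin (χ p) : ℂ) * ((a p : ℂ) * u p) * (φ p : ℂ))
      (volume.restrict Ω) := (ga_mul ms mau).integrable_mul mφ
  have j1 : Integrable (fun p => (Real.cos (χ p) : ℂ) * g p * (φ p : ℂ)) (volume.restrict Ω) :=
    (ga_mul mc hg).integrable_mul mφ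
  have j2 : Integrable (fun p => (Real.sin (χ p) : ℂ) * g p * (φ p : ℂ)) (volume.restrict Ω) :=
    (ga_mul ms hg).integrable_mul mφ
  have f1 : ∫ p in Ω, u p * (dd v (fun p => Real.cos (χ p) * φ p) p : ℂ) =
      (∫ p in Ω, (Real.cos (χ p) : ℂ) * u p * (dd v φ p : ℂ)) -
        ∫ p in Ω, (Real.sin (χ p) : ℂ) * ((a p : ℂ) * u p) * (φ p : ℂ) := by
    rw [← integral_sub i1 i4]
    refine integral_congr_ae ?_
    filter_upwards [hd, ae_diff hΩ hχ] with p h1 h2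
    rw [dd_mul h2.cos (c1.differentiable (by simp) p), dd_comp (Real.hasDerivAt_cos (χ p)) h2, h1]
    simp only [Complex.ofReal_add, Complex.ofReal_mul, Complex.ofReal_neg]
    ring
  have f2 : ∫ p in Ω, u p * (dd v (fun p => Real.sin (χ p) * φ p) p : ℂ) =
      (∫ p in Ω, (Real.sin (χ p) : ℂ) * u p * (dd v φ p : ℂ)) +
        ∫ p in Ω, (Real.cos (χ p) : ℂ) * ((a p : ℂ) * u p) * (φ p : ℂ) := by
    rw [← integral_add i2 i3]
    refine integral_congr_ae ?_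
    filter_upwards [hd, ae_diff hΩ hχ] with p h1 h2
    rw [dd_mul h2.sin (c1.differentiable (by simp) p), dd_comp (Real.hasDerivAt_sin (χ p)) h2, h1]
    simp only [Complex.ofReal_add, Complex.ofReal_mul]
    ring
  have f3 : ∫ p in Ω, g p * ((Real.cos (χ p) * φ p : ℝ) : ℂ) =
      ∫ p in Ω, (Real.cos (χ p) : ℂ) * g p * (φ p : ℂ) := by
    refine integral_congr_ae (Eventually.of_forall fun p => ?_)
    simp only [Complex.ofReal_mul]
    ring
  have f4 : ∫ p in Ω, g p * ((Real.sin (χ p) * φ p : ℝ) : ℂ) =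
      ∫ p in Ω, (Real.sin (χ p) : ℂ) * g p * (φ p : ℂ) := by
    refine integral_congr_ae (Eventually.of_forall fun p => ?_)
    simp only [Complex.ofReal_mul]
    ring
  have f5 : ∫ p in Ω, gph (χ p) * u p * (dd v φ p : ℂ) =
      (∫ p in Ω, (Real.cos (χ p) : ℂ) * u p * (dd v φ p : ℂ)) +
        Complex.I * ∫ p in Ω, (Real.sin (χ p) : ℂ) * u p * (dd v φ p : ℂ) := by
    rw [← integral_const_mul, ← integral_add i1 (i2.const_mul _)]
    refine integral_congr_ae (Eventually.of_forall fun p => ?_)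
    simp only [gph]
    ring
  have f6 : ∫ p in Ω, gph (χ p) * (g p + Complex.I * ((a p : ℂ) * u p)) * (φ p : ℂ) =
      ((∫ p in Ω, (Real.cos (χ p) : ℂ) * g p * (φ p : ℂ)) -
        ∫ p in Ω, (Real.sin (χ p) : ℂ) * ((a p : ℂ) * u p) * (φ p : ℂ)) +
        Complex.I * ((∫ p in Ω, (Real.sin (χ p) : ℂ) * g p * (φ p : ℂ)) +
          ∫ p in Ω, (Real.cos (χ p) : ℂ) * ((a p : ℂ) * u p) * (φ p : ℂ)) := by
    have k1 : Integrable (fun p => (Real.cos (χ p) : ℂ) * g p * (φ p : ℂ) -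
        (Real.sin (χ p) : ℂ) * ((a p : ℂ) * u p) * (φ p : ℂ)) (volume.restrict Ω) := j1.sub i4
    have k2 : Integrable (fun p => (Real.sin (χ p) : ℂ) * g p * (φ p : ℂ) +
        (Real.cos (χ p) : ℂ) * ((a p : ℂ) * u p) * (φ p : ℂ)) (volume.restrict Ω) := j2.add i3
    rw [← integral_sub j1 i4, ← integral_add j2 i3, ← integral_const_mul,
      ← integral_add k1 (k2.const_mul _)]
    refine integral_congr_ae (Eventually.of_forall fun p => ?_)
    simp only [gph]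
    linear_combination ((Real.sin (χ p) : ℂ) * ((a p : ℂ) * u p) * (φ p : ℂ)) * Complex.I_mul_I
  rw [f1, f3] at e1
  rw [f2, f4] at e2
  rw [f5, f6]
  linear_combination e1 + Complex.I * e2

/-- Gauge invariance, given the gauge function. -/
theorem lam_le_of_gauge {Ω : Set (ℝ × ℝ)} (hΩ : IsOpen Ω) {A₁ A₂ B₁ B₂ χ : ℝ × ℝ → ℝ}
    (hA₁ : MemLp A₁ ⊤ (volume.restrict Ω)) (hA₂ : MemLp A₂ ⊤ (volume.restrict Ω))
    (hB₁ : MemLp B₁ ⊤ (volume.restrict Ω)) (hB₂ : MemLp B₂ ⊤ (volume.restrict Ω))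
    (hχ : LocallyLipschitzOn Ω χ)
    (hd : ∀ᵐ p ∂(volume.restrict Ω), dd (1, 0) χ p = A₁ p - B₁ p ∧ dd (0, 1) χ p = A₂ p - B₂ p) :
    lam Ω A₁ A₂ ≤ lam Ω B₁ B₂ := by
  unfold lam
  refine le_iInf fun u => le_iInf fun g₁ => le_iInf fun g₂ => le_iInf fun h => le_iInf fun h0 => ?_
  have mE : MemLp (fun p => gph (χ p)) ⊤ (volume.restrict Ω) :=
    ga_top hΩ hχ continuous_gph fun t => (norm_gph t).le
  have a₁ : MemLp (fun p => A₁ p - B₁ p) ⊤ (volume.restrict Ω) := hA₁.sub hB₁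
  have a₂ : MemLp (fun p => A₂ p - B₂ p) ⊤ (volume.restrict Ω) := hA₂.sub hB₂
  have hH : IsH1 Ω (fun p => gph (χ p) * u p)
      (fun p => gph (χ p) * (g₁ p + Complex.I * (((A₁ p - B₁ p : ℝ) : ℂ) * u p)))
      (fun p => gph (χ p) * (g₂ p + Complex.I * (((A₂ p - B₂ p : ℝ) : ℂ) * u p))) :=
    { memLp_u := ga_mul mE h.memLp_u
      memLp_g₁ := ga_mul mE (h.memLp_g₁.add ((ga_mul a₁.ofReal h.memLp_u).const_mul _))
      memLp_g₂ := ga_mul mE (h.memLp_g₂.add ((ga_mul a₂.ofReal h.memLp_u).const_mul _))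
      weak₁ := fun φ hφ => ga_weak hΩ hχ a₁ (hd.mono fun _ hp => hp.1) h.memLp_u h.memLp_g₁
        (fun _ h1 h2 h3 => (lip_test hΩ h h1 h2 h3).1) hφ
      weak₂ := fun φ hφ => ga_weak hΩ hχ a₂ (hd.mono fun _ hp => hp.2) h.memLp_u h.memLp_g₂
        (fun _ h1 h2 h3 => (lip_test hΩ h h1 h2 h3).2) hφ }
  have key : ∀ (t A B : ℝ) (g w : ℂ),
      ‖-Complex.I * (gph t * (g + Complex.I * (((A - B : ℝ) : ℂ) * w))) - (A : ℂ) * (gph t * w)‖ₑ =
        ‖-Complex.I * g - (B : ℂ) * w‖ₑ := by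
    intro t A B g w
    rw [← enorm_gph_mul t (-Complex.I * g - (B : ℂ) * w)]
    congr 1
    rw [Complex.ofReal_sub]
    linear_combination (-(gph t * ((A : ℂ) - B) * w)) * Complex.I_mul_I
  refine iInf_le_of_le _ (iInf_le_of_le _ (iInf_le_of_le _ (iInf_le_of_le hH
    (iInf_le_of_le (by simpa only [enorm_gph_mul] using h0) (le_of_eq ?_)))))
  simp only [key, enorm_gph_mul]

end Pool.Agent.Lib.MP_d36e13_an.DC
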