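import Pool.Agent.Lib.MP_d36e13_an.DC.Base

open MeasureTheory Set Filter Topology Metric
open scoped ENNReal ContDiff

namespace Pool.Agent.Lib.MP_d36e13_an.DC

theorem glue_aux {B A : Type} [TopologicalSpace B] [SimplyConnectedSpace B]
    [LocallyPathConnectedSpace B] [AddCommGroup A] (U : B → Set B) (ho : ∀ z, IsOpen (U z))
    (hm : ∀ z, z ∈ U z) (χ : B → B → A)
    (h : ∀ z z', ∀ x ∈ U z ∩ U z', ∀ᶠ y in 𝓝 x, χ z y - χ z' y = χ z x - χ z' x) :
    ∃ g : B → A, ∀ z, ∀ x ∈ U z, ∀ᶠ y in 𝓝 x, g y - χ z y = g x - χ z x := by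
  letI : TopologicalSpace A := ⊥
  haveI : DiscreteTopology A := ⟨rfl⟩
  let Z : FiberBundleCore B B A :=
    { baseSet := U
      isOpen_baseSet := ho
      indexAt := id
      mem_baseSet_at := hm
      coordChange := fun i j x v => v + (χ i x - χ j x)
      coordChange_self := fun i x _ v => by simp
      continuousOn_coordChange := fun i j p hp => by
        have h1 : Continuous fun q : B × A => q.2 + (χ i p.1 - χ j p.1) :=
          (continuous_of_discreteTopology (f := fun v : A => v + (χ i p.1 - χ j p.1))).comp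
            continuous_snd
        refine (h1.continuousAt.congr ?_).continuousWithinAt
        filter_upwards [continuous_fst.continuousAt.eventually (h i j p.1 hp.1)] with q hq
        rw [hq]
      coordChange_comp := fun i j k x _ v => by abel }
  have hc : IsCoveringMap Z.proj :=
    IsFiberBundle.isCoveringMap fun x => ⟨Z.localTriv x, hm x⟩
  obtain ⟨a⟩ : Nonempty B := inferInstance
  obtain ⟨s, ⟨-, hs⟩, -⟩ :=
    hc.existsUnique_continuousMap_lifts (ContinuousMap.id B) a ⟨a, (0 : A)⟩ rfl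
  have hs1 : ∀ y, (s y).1 = y := fun y => congrFun hs y
  let v : B → A := fun y => (s y).2
  refine ⟨fun y => v y + χ y y, fun z x hx => ?_⟩
  have h1 : ∀ y, (Z.localTriv z (s y)).2 = v y + χ y y - χ z y := by
    intro y
    change v y + (χ (s y).1 (s y).1 - χ z (s y).1) = _
    rw [hs1 y]
    abel
  have h2 : ContinuousAt (fun y => (Z.localTriv z (s y)).2) x := by
    refine continuous_snd.continuousAt.comp (ContinuousAt.comp ?_ s.continuous.continuousAt)
    refine (Z.localTriv z).continuousAt ?_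
    rw [Z.mem_localTriv_source, hs1]
    exact hx
  have h3 := h2.eventually ((isOpen_discrete {(Z.localTriv z (s x)).2}).mem_nhds rfl)
  filter_upwards [h3] with y hy
  rw [← h1, ← h1]
  exact hy

/-- Local functions whose differences are locally constant glue, up to locally constant
corrections, on a simply connected open set. -/
theorem exists_glue {Ω : Set (ℝ × ℝ)} (hΩ : IsOpen Ω) (hs : IsSimplyConnected Ω)
    (U : ℝ × ℝ → Set (ℝ × ℝ)) (hU : ∀ z ∈ Ω, IsOpen (U z) ∧ z ∈ U z ∧ U z ⊆ Ω)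
    (χ : ℝ × ℝ → ℝ × ℝ → ℝ)
    (h : ∀ z ∈ Ω, ∀ z' ∈ Ω, ∀ x ∈ U z ∩ U z', ∀ᶠ y in 𝓝 x, χ z y - χ z' y = χ z x - χ z' x) :
    ∃ g : ℝ × ℝ → ℝ, ∀ z ∈ Ω, ∀ x ∈ U z, ∀ᶠ y in 𝓝 x, g y - χ z y = g x - χ z x := by
  haveI : SimplyConnectedSpace Ω := hs
  haveI : LocallyPathConnectedSpace Ω := hΩ.locallyPathConnectedSpace
  obtain ⟨g, hg⟩ := glue_aux (B := Ω) (fun z => Subtype.val ⁻¹' U z)
    (fun z => (hU z z.2).1.preimage continuous_subtype_val) (fun z => (hU z z.2).2.1)
    (fun z y => χ z y) fun z z' x hx =>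
      continuous_subtype_val.continuousAt.eventually (h z z.2 z' z'.2 x hx)
  classical
  refine ⟨fun y => if hy : y ∈ Ω then g ⟨y, hy⟩ else 0, fun z hz x hx => ?_⟩
  have hxΩ : x ∈ Ω := (hU z hz).2.2 hx
  rw [← hΩ.isOpenEmbedding_subtypeVal.map_nhds_eq ⟨x, hxΩ⟩, eventually_map]
  filter_upwards [hg ⟨z, hz⟩ ⟨x, hxΩ⟩ hx] with y hy
  rw [dif_pos y.2, dif_pos hxΩ]
  exact hy

end Pool.Agent.Lib.MP_d36e13_an.DC
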