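import Pool.Agent.Lib.MP_d36e13_an.DC.Base

open MeasureTheory Set Filter Topology Metric
open scoped ENNReal ContDiff

namespace Pool.Agent.Lib.MP_d36e13_an.DC

theorem exists_lip_ext {Ω K : Set (ℝ × ℝ)} (hΩ : IsOpen Ω) {p : ℝ × ℝ → ℝ}
    (hp : LocallyLipschitzOn Ω p) (hK : IsCompact K) (hKΩ : K ⊆ Ω) :
    ∃ (C : NNReal) (g : ℝ × ℝ → ℝ), LipschitzWith C g ∧ ∀ x ∈ K, p =ᶠ[𝓝 x] g := by
  obtain ⟨L, hL, hKL, hLΩ⟩ := exists_compact_between hK hΩ hKΩ
  obtain ⟨C, hC⟩ := (hp.mono hLΩ).exists_lipschitzOnWith_of_compact hL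
  obtain ⟨g, hg, hpg⟩ := hC.extend_real
  refine ⟨C, g, hg, fun x hx => ?_⟩
  filter_upwards [mem_interior_iff_mem_nhds.1 (hKL hx)] with y hy using hpg hy

/-- Rademacher on an open set. -/
theorem ae_diff {Ω : Set (ℝ × ℝ)} (hΩ : IsOpen Ω) {p : ℝ × ℝ → ℝ} (hp : LocallyLipschitzOn Ω p) :
    ∀ᵐ x ∂(volume.restrict Ω), DifferentiableAt ℝ p x := by
  rw [ae_restrict_iff' hΩ.measurableSet, ae_iff]
  refine measure_null_of_locally_null _ fun x hx => ?_
  have hxΩ : x ∈ Ω := by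
    by_contra h
    exact hx fun h' => absurd h' h
  obtain ⟨L, hL, hxL, hLΩ⟩ := exists_compact_between (isCompact_singleton (x := x)) hΩ
    (singleton_subset_iff.2 hxΩ)
  obtain ⟨C, g, hg, hpg⟩ := exists_lip_ext hΩ hp hL hLΩ
  refine ⟨{y | ¬ (y ∈ Ω → DifferentiableAt ℝ p y)} ∩ L,
    inter_mem_nhdsWithin _ (mem_interior_iff_mem_nhds.1 (hxL rfl)), ?_⟩
  have h0 := hg.ae_differentiableAt (μ := (volume : Measure (ℝ × ℝ)))
  rw [ae_iff] at h0
  refine measure_mono_null (fun y hy => ?_) h0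
  exact fun hd : DifferentiableAt ℝ g y => hy.1 fun _ => hd.congr_of_eventuallyEq (hpg y hy.2)

/-- On a compact subset of `Ω` a locally Lipschitz function has a bounded derivative. -/
theorem memLp_dd {Ω K : Set (ℝ × ℝ)} (hΩ : IsOpen Ω) {p : ℝ × ℝ → ℝ} (hp : LocallyLipschitzOn Ω p)
    (hK : IsCompact K) (hKΩ : K ⊆ Ω) (v : ℝ × ℝ) : MemLp (dd v p) ⊤ (volume.restrict K) := by
  obtain ⟨C, g, hg, hpg⟩ := exists_lip_ext hΩ hp hK hKΩ
  refine memLp_top_of_bound (measurable_fderiv_apply_const ℝ p v).aestronglyMeasurable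
    (C * ‖v‖) ?_
  rw [ae_restrict_iff' hK.measurableSet]
  refine Eventually.of_forall fun x hx => ?_
  unfold dd
  rw [(hpg x hx).fderiv_eq]
  exact ((fderiv ℝ g x).le_opNorm v).trans
    (mul_le_mul_of_nonneg_right (norm_fderiv_le_of_lipschitz ℝ hg) (norm_nonneg _))

theorem lip_of_compact {Ω : Set (ℝ × ℝ)} (hΩ : IsOpen Ω) {ψ : ℝ × ℝ → ℝ}
    (hψ : LocallyLipschitzOn Ω ψ) (hc : HasCompactSupport ψ) (hs : tsupport ψ ⊆ Ω) :
    ∃ C : NNReal, LipschitzWith C ψ := by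
  have hloc : LocallyLipschitz ψ := by
    intro x
    by_cases hx : x ∈ Ω
    · obtain ⟨K, t, ht, h⟩ := hψ hx
      rw [hΩ.nhdsWithin_eq hx] at ht
      exact ⟨K, t, ht, h⟩
    · refine ⟨0, (tsupport ψ)ᶜ, (isClosed_tsupport ψ).isOpen_compl.mem_nhds fun h => hx (hs h), ?_⟩
      intro y hy z hz
      rw [image_eq_zero_of_notMem_tsupport hy, image_eq_zero_of_notMem_tsupport hz]
      simp
  obtain ⟨R, hR⟩ := hc.isCompact.isBounded.subset_closedBall (0 : ℝ × ℝ)
  obtain ⟨C, hC⟩ := (hloc.locallyLipschitzOn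
    (s := closedBall (0 : ℝ × ℝ) (R + 1))).exists_lipschitzOnWith_of_compact
    (isCompact_closedBall _ _)
  obtain ⟨M, hM⟩ := hc.exists_bound_of_continuous hloc.continuous
  have hM0 : 0 ≤ M := (norm_nonneg _).trans (hM 0)
  have key : ∀ x y, y ∉ closedBall (0 : ℝ × ℝ) (R + 1) → dist (ψ x) (ψ y) ≤ M * dist x y := by
    intro x y hy
    have hy0 : ψ y = 0 := image_eq_zero_of_notMem_tsupport fun h =>
      hy (closedBall_subset_closedBall (by linarith) (hR h))
    by_cases hx : x ∈ tsupport ψ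
    · have h1 : dist x 0 ≤ R := hR hx
      have h2 : R + 1 < dist y 0 := by simpa using hy
      have h3 := dist_triangle y x 0
      have h4 : 1 ≤ dist x y := by rw [dist_comm]; linarith
      rw [hy0, dist_zero_right]
      nlinarith [hM x]
    · rw [hy0, image_eq_zero_of_notMem_tsupport hx, dist_self]
      positivity
  refine ⟨C + ⟨M, hM0⟩, LipschitzWith.of_dist_le_mul fun x y => ?_⟩
  have hd := dist_nonneg (x := x) (y := y)
  have hC0 : (0 : ℝ) ≤ C := C.2
  have e : ((C + ⟨M, hM0⟩ : NNReal) : ℝ) = C + M := rfl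
  rw [e]
  by_cases hy : y ∈ closedBall (0 : ℝ × ℝ) (R + 1)
  · by_cases hx : x ∈ closedBall (0 : ℝ × ℝ) (R + 1)
    · have := hC.dist_le_mul x hx y hy
      nlinarith
    · have := key y x hx
      rw [dist_comm (ψ y), dist_comm y] at this
      nlinarith
  · have := key x y hy
    nlinarith

/-- Integration by parts for locally Lipschitz functions, one of them with compact support. -/
theorem ibp_lip {Ω : Set (ℝ × ℝ)} (hΩ : IsOpen Ω) {p ψ : ℝ × ℝ → ℝ} (hp : LocallyLipschitzOn Ω p)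
    (hψ : LocallyLipschitzOn Ω ψ) (hc : HasCompactSupport ψ) (hs : tsupport ψ ⊆ Ω) (v : ℝ × ℝ) :
    ∫ x in Ω, p x * dd v ψ x = - ∫ x in Ω, dd v p x * ψ x := by
  obtain ⟨C, g, hg, hpg⟩ := exists_lip_ext hΩ hp hc.isCompact hs
  obtain ⟨D, hD⟩ := lip_of_compact hΩ hψ hc hs
  have h := hg.integral_lineDeriv_mul_eq (μ := (volume : Measure (ℝ × ℝ))) hD hc v
  have hz : ∀ x, x ∉ tsupport ψ → dd v ψ x = 0 := by
    intro x hx
    unfold dd
    rw [(notMem_tsupport_iff_eventuallyEq.1 hx).fderiv_eq]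
    simp
  have e1 : ∫ x in Ω, p x * dd v ψ x = ∫ x, g x * dd v ψ x := by
    rw [setIntegral_eq_integral_of_forall_compl_eq_zero
      fun x hx => by rw [hz x fun h => hx (hs h), mul_zero]]
    refine integral_congr_ae (Eventually.of_forall fun x => ?_)
    by_cases hx : x ∈ tsupport ψ
    · simp only [(hpg x hx).eq_of_nhds]
    · simp only [hz x hx, mul_zero]
  have e2 : ∫ x in Ω, dd v p x * ψ x = ∫ x, dd v g x * ψ x := by
    rw [setIntegral_eq_integral_of_forall_compl_eq_zero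
      fun x hx => by rw [image_eq_zero_of_notMem_tsupport fun h => hx (hs h), mul_zero]]
    refine integral_congr_ae (Eventually.of_forall fun x => ?_)
    by_cases hx : x ∈ tsupport ψ
    · simp only [dd, (hpg x hx).fderiv_eq]
    · simp only [image_eq_zero_of_notMem_tsupport hx, mul_zero]
  have e3 : ∫ x, dd v g x * ψ x = ∫ x, lineDeriv ℝ g x v * ψ x := by
    refine integral_congr_ae ?_
    filter_upwards [hg.ae_differentiableAt (μ := (volume : Measure (ℝ × ℝ)))] with x hx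
    rw [hx.lineDeriv_eq_fderiv]; rfl
  have e4 : ∫ x, g x * dd v ψ x = - ∫ x, lineDeriv ℝ ψ x (-v) * g x := by
    rw [← integral_neg]
    refine integral_congr_ae ?_
    filter_upwards [hD.ae_differentiableAt (μ := (volume : Measure (ℝ × ℝ)))] with x hx
    rw [lineDeriv_neg, hx.lineDeriv_eq_fderiv]
    unfold dd
    ring
  rw [e1, e2, e3, e4, h]

end Pool.Agent.Lib.MP_d36e13_an.DC
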