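import Pool.Agent.Lib.MP_d36e13_an.DC.Lip

open MeasureTheory Set Filter Topology Metric
open scoped ENNReal ContDiff

namespace Pool.Agent.Lib.MP_d36e13_an.DC

theorem clm_integral_mul {Ω : Set (ℝ × ℝ)} (L : ℂ →L[ℝ] ℝ) {f : ℝ × ℝ → ℂ} {ψ : ℝ × ℝ → ℝ}
    (hf : MemLp f 2 (volume.restrict Ω)) (hψ : Continuous ψ) (hc : HasCompactSupport ψ) :
    ∫ p in Ω, L (f p) * ψ p = L (∫ p in Ω, f p * (ψ p : ℂ)) := by
  have h1 : MemLp (fun p => (ψ p : ℂ)) 2 (volume.restrict Ω) :=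
    ((hψ.memLp_of_hasCompactSupport (p := 2) (μ := volume) hc).restrict Ω).ofReal
  have hi : Integrable (fun p => f p * (ψ p : ℂ)) (volume.restrict Ω) := hf.integrable_mul h1
  rw [← L.integral_comp_comm hi]
  refine integral_congr_ae (Eventually.of_forall fun p => ?_)
  have : f p * (ψ p : ℂ) = ψ p • f p := by rw [mul_comm]; rfl
  simp only [this, map_smul, smul_eq_mul, mul_comm]

theorem memLp_fderiv_of_lip {Ω : Set (ℝ × ℝ)} (hb : Bornology.IsBounded Ω)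
    {F : ℝ × ℝ → ℂ} {K : NNReal} (hF : LipschitzWith K F) (v : ℝ × ℝ) :
    MemLp (fun x => fderiv ℝ F x v) 2 (volume.restrict Ω) := by
  have : IsFiniteMeasure (volume.restrict Ω) := ⟨by
    rw [Measure.restrict_apply_univ]; exact hb.measure_lt_top⟩
  refine MemLp.of_bound (measurable_fderiv_apply_const ℝ F v).aestronglyMeasurable (K * ‖v‖)
    (Eventually.of_forall fun x => ?_)
  exact ((fderiv ℝ F x).le_opNorm v).trans
    (mul_le_mul_of_nonneg_right (norm_fderiv_le_of_lipschitz ℝ hF) (norm_nonneg _))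

/-- A Lipschitz function is in `H^1` of a bounded open set, with its a.e. derivative. -/
theorem isH1_of_lip {Ω : Set (ℝ × ℝ)} (hΩ : IsOpen Ω) (hb : Bornology.IsBounded Ω)
    {F : ℝ × ℝ → ℂ} {K : NNReal} (hF : LipschitzWith K F) :
    IsH1 Ω F (fun x => fderiv ℝ F x (1, 0)) (fun x => fderiv ℝ F x (0, 1)) := by
  have : IsFiniteMeasure (volume.restrict Ω) := ⟨by
    rw [Measure.restrict_apply_univ]; exact hb.measure_lt_top⟩
  have mF : MemLp F 2 (volume.restrict Ω) := by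
    obtain ⟨C, hC⟩ := hb.isCompact_closure.exists_bound_of_continuousOn hF.continuous.continuousOn
    refine MemLp.of_bound hF.continuous.aestronglyMeasurable C ?_
    filter_upwards [ae_restrict_mem hΩ.measurableSet] with x hx
    exact hC x (subset_closure hx)
  have w : ∀ v φ, IsTest Ω φ → ∫ x in Ω, F x * (dd v φ x : ℂ) =
      - ∫ x in Ω, fderiv ℝ F x v * (φ x : ℂ) := by
    intro v φ hφ
    have c1 : ContDiff ℝ 1 φ := hφ.1.of_le top_one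
    have key : ∀ L : ℂ →L[ℝ] ℝ, L (∫ x in Ω, F x * (dd v φ x : ℂ)) =
        L (- ∫ x in Ω, fderiv ℝ F x v * (φ x : ℂ)) := by
      intro L
      have hL : LocallyLipschitzOn Ω (fun x => L (F x)) :=
        (L.lipschitz.comp hF).locallyLipschitz.locallyLipschitzOn
      rw [map_neg, ← clm_integral_mul L mF (continuous_dd c1) (hasCompactSupport_dd hφ.2.1),
        ← clm_integral_mul L (memLp_fderiv_of_lip hb hF v) c1.continuous hφ.2.1,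
        ibp_lip hΩ hL c1.locallyLipschitz.locallyLipschitzOn hφ.2.1 hφ.2.2 v]
      congr 1
      refine integral_congr_ae ?_
      filter_upwards [ae_restrict_of_ae (hF.ae_differentiableAt (μ := volume))] with x hx
      have e : HasFDerivAt (fun x => L (F x)) (L.comp (fderiv ℝ F x)) x :=
        L.hasFDerivAt.comp x hx.hasFDerivAt
      rw [dd_of_hasFDerivAt e]
      rfl
    exact Complex.ext (key Complex.reCLM) (key Complex.imCLM)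
  exact ⟨mF, memLp_fderiv_of_lip hb hF _, memLp_fderiv_of_lip hb hF _, w (1, 0), w (0, 1)⟩

theorem lintegral_enorm_sq {Ω : Set (ℝ × ℝ)} {f : ℝ × ℝ → ℂ} (hf : MemLp f 2 (volume.restrict Ω)) :
    ∫⁻ p in Ω, ‖f p‖ₑ ^ 2 = ENNReal.ofReal (∫ p in Ω, ‖f p‖ ^ 2) := by
  rw [ofReal_integral_eq_lintegral_ofReal hf.norm.integrable_sq
    (Eventually.of_forall fun x => sq_nonneg _)]
  refine lintegral_congr fun x => ?_
  rw [← ofReal_norm, ← ENNReal.ofReal_pow (norm_nonneg _)]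

theorem memLp_mag {Ω : Set (ℝ × ℝ)} {u g : ℝ × ℝ → ℂ} {A : ℝ × ℝ → ℝ}
    (hu : MemLp u 2 (volume.restrict Ω)) (hg : MemLp g 2 (volume.restrict Ω))
    (hA : MemLp A ⊤ (volume.restrict Ω)) :
    MemLp (fun p => -Complex.I * g p - (A p : ℂ) * u p) 2 (volume.restrict Ω) := by
  have h1 : MemLp (fun p => (A p : ℂ)) ⊤ (volume.restrict Ω) := hA.ofReal
  have h2 : MemLp (fun p => (A p : ℂ) * u p) 2 (volume.restrict Ω) := hu.mul h1
  exact (hg.const_mul _).sub h2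

theorem energy_real {Ω : Set (ℝ × ℝ)} {u g₁ g₂ : ℝ × ℝ → ℂ} (h : IsH1 Ω u g₁ g₂)
    {A₁ A₂ : ℝ × ℝ → ℝ} (hA₁ : MemLp A₁ ⊤ (volume.restrict Ω))
    (hA₂ : MemLp A₂ ⊤ (volume.restrict Ω)) :
    (∫⁻ p in Ω, (‖-Complex.I * g₁ p - (A₁ p : ℂ) * u p‖ₑ ^ 2 +
      ‖-Complex.I * g₂ p - (A₂ p : ℂ) * u p‖ₑ ^ 2)) =
    ENNReal.ofReal (∫ p in Ω, (‖-Complex.I * g₁ p - (A₁ p : ℂ) * u p‖ ^ 2 +
      ‖-Complex.I * g₂ p - (A₂ p : ℂ) * u p‖ ^ 2)) := by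
  have m₁ := memLp_mag h.memLp_u h.memLp_g₁ hA₁
  have m₂ := memLp_mag h.memLp_u h.memLp_g₂ hA₂
  have hi : Integrable (fun p => ‖-Complex.I * g₁ p - (A₁ p : ℂ) * u p‖ ^ 2 +
      ‖-Complex.I * g₂ p - (A₂ p : ℂ) * u p‖ ^ 2) (volume.restrict Ω) :=
    m₁.norm.integrable_sq.add m₂.norm.integrable_sq
  rw [ofReal_integral_eq_lintegral_ofReal hi
    (Eventually.of_forall fun x => add_nonneg (sq_nonneg _) (sq_nonneg _))]
  refine lintegral_congr fun x => ?_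
  rw [ENNReal.ofReal_add (sq_nonneg _) (sq_nonneg _), ← ofReal_norm, ← ofReal_norm,
    ← ENNReal.ofReal_pow (norm_nonneg _), ← ENNReal.ofReal_pow (norm_nonneg _)]

/-- A trial function bounds `lam` from above (real integrals). -/
theorem lam_le_of_isH1 {Ω : Set (ℝ × ℝ)} {u g₁ g₂ : ℝ × ℝ → ℂ} (h : IsH1 Ω u g₁ g₂)
    {A₁ A₂ : ℝ × ℝ → ℝ} (hA₁ : MemLp A₁ ⊤ (volume.restrict Ω))
    (hA₂ : MemLp A₂ ⊤ (volume.restrict Ω)) {μ : ℝ}
    (hlt : ∫ p in Ω, (‖-Complex.I * g₁ p - (A₁ p : ℂ) * u p‖ ^ 2 +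
      ‖-Complex.I * g₂ p - (A₂ p : ℂ) * u p‖ ^ 2) < μ * ∫ p in Ω, ‖u p‖ ^ 2) :
    lam Ω A₁ A₂ ≤ ENNReal.ofReal μ := by
  have hE : 0 ≤ ∫ p in Ω, (‖-Complex.I * g₁ p - (A₁ p : ℂ) * u p‖ ^ 2 +
      ‖-Complex.I * g₂ p - (A₂ p : ℂ) * u p‖ ^ 2) :=
    integral_nonneg fun x => add_nonneg (sq_nonneg _) (sq_nonneg _)
  have hN : 0 ≤ ∫ p in Ω, ‖u p‖ ^ 2 := integral_nonneg fun x => sq_nonneg _
  have hN' : 0 < ∫ p in Ω, ‖u p‖ ^ 2 := by
    rcases hN.lt_or_eq with h0 | h0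
    · exact h0
    · rw [← h0, mul_zero] at hlt; linarith
  have hμ : 0 ≤ μ := by
    by_contra hμ
    have := mul_neg_of_neg_of_pos (not_le.1 hμ) hN'
    linarith
  have h0 : ∫⁻ p in Ω, ‖u p‖ₑ ^ 2 ≠ 0 := by
    rw [lintegral_enorm_sq h.memLp_u]
    exact (ENNReal.ofReal_pos.2 hN').ne'
  unfold lam
  refine iInf_le_of_le u (iInf_le_of_le g₁ (iInf_le_of_le g₂ (iInf_le_of_le h
    (iInf_le_of_le h0 ?_))))
  rw [energy_real h hA₁ hA₂, lintegral_enorm_sq h.memLp_u]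
  refine ENNReal.div_le_of_le_mul ?_
  rw [← ENNReal.ofReal_mul hμ]
  exact ENNReal.ofReal_le_ofReal hlt.le

/-- If `lam` is below `μ`, some `H^1` function has Rayleigh quotient below `μ` (real integrals). -/
theorem exists_of_lam_lt {Ω : Set (ℝ × ℝ)} {A₁ A₂ : ℝ × ℝ → ℝ}
    (hA₁ : MemLp A₁ ⊤ (volume.restrict Ω)) (hA₂ : MemLp A₂ ⊤ (volume.restrict Ω)) {μ : ℝ}
    (h : lam Ω A₁ A₂ < ENNReal.ofReal μ) :
    ∃ u g₁ g₂ : ℝ × ℝ → ℂ, IsH1 Ω u g₁ g₂ ∧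
      ∫ p in Ω, (‖-Complex.I * g₁ p - (A₁ p : ℂ) * u p‖ ^ 2 +
        ‖-Complex.I * g₂ p - (A₂ p : ℂ) * u p‖ ^ 2) < μ * ∫ p in Ω, ‖u p‖ ^ 2 := by
  unfold lam at h
  simp only [iInf_lt_iff] at h
  obtain ⟨u, g₁, g₂, hu, h0, hlt⟩ := h
  refine ⟨u, g₁, g₂, hu, ?_⟩
  have hE : 0 ≤ ∫ p in Ω, (‖-Complex.I * g₁ p - (A₁ p : ℂ) * u p‖ ^ 2 +
      ‖-Complex.I * g₂ p - (A₂ p : ℂ) * u p‖ ^ 2) :=
    integral_nonneg fun x => add_nonneg (sq_nonneg _) (sq_nonneg _)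
  have hμ : 0 ≤ μ := (ENNReal.ofReal_pos.1 (lt_of_le_of_lt zero_le hlt)).le
  rw [lintegral_enorm_sq hu.memLp_u] at h0
  rw [energy_real hu hA₁ hA₂, lintegral_enorm_sq hu.memLp_u,
    ENNReal.div_lt_iff (Or.inl h0) (Or.inl ENNReal.ofReal_ne_top), ← ENNReal.ofReal_mul hμ] at hlt
  exact (ENNReal.ofReal_lt_ofReal_iff_of_nonneg hE).1 hlt

end Pool.Agent.Lib.MP_d36e13_an.DC
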