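import Pool.Agent.Lib.MP_d36e13_an.DC.Lip

open MeasureTheory Set Filter Topology Metric
open scoped ENNReal ContDiff

namespace Pool.Agent.Lib.MP_d36e13_an.DC

theorem lt_cs {μ : Measure (ℝ × ℝ)} {f a : ℝ × ℝ → ℝ} (hf : MemLp f 2 μ) (ha : MemLp a 2 μ) {t : ℝ}
    (ht : 0 < t) (h : ∫ x, f x ^ 2 ∂μ ≤ t ^ 2) :
    |∫ x, f x * a x ∂μ| ≤ t * (1 + ∫ x, a x ^ 2 ∂μ) / 2 := by
  have i1 : Integrable (fun x => f x * a x) μ := hf.integrable_mul ha
  have i2 : Integrable (fun x => 1 / (2 * t) * f x ^ 2) μ := hf.integrable_sq.const_mul _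
  have i3 : Integrable (fun x => t / 2 * a x ^ 2) μ := ha.integrable_sq.const_mul _
  have h1 : |∫ x, f x * a x ∂μ| ≤ ∫ x, (1 / (2 * t) * f x ^ 2 + t / 2 * a x ^ 2) ∂μ := by
    refine abs_integral_le_integral_abs.trans (integral_mono i1.abs (i2.add i3) fun x => ?_)
    have e : 1 / (2 * t) * f x ^ 2 + t / 2 * a x ^ 2 - |f x| * |a x| =
        1 / (2 * t) * (|f x| - t * |a x|) ^ 2 := by
      rw [← sq_abs (f x), ← sq_abs (a x)]
      field_simp
      ring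
    have e2 : 0 ≤ 1 / (2 * t) * (|f x| - t * |a x|) ^ 2 := by positivity
    show |f x * a x| ≤ 1 / (2 * t) * f x ^ 2 + t / 2 * a x ^ 2
    rw [abs_mul]
    linarith
  rw [integral_add i2 i3, integral_const_mul, integral_const_mul] at h1
  have h2 : 1 / (2 * t) * ∫ x, f x ^ 2 ∂μ ≤ 1 / (2 * t) * t ^ 2 :=
    mul_le_mul_of_nonneg_left h (by positivity)
  have h3 : 1 / (2 * t) * t ^ 2 = t / 2 := by field_simp
  linarith

theorem lt_limit {μ : Measure (ℝ × ℝ)} {u g a b : ℝ × ℝ → ℝ} (hu : MemLp u 2 μ) (hg : MemLp g 2 μ)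
    (ha : MemLp a 2 μ) (hb : MemLp b 2 μ)
    (H : ∀ ε : ℝ, 0 < ε → ∃ v w : ℝ × ℝ → ℝ, MemLp v 2 μ ∧ MemLp w 2 μ ∧
      ∫ x, (v x - u x) ^ 2 ∂μ ≤ ε ∧ ∫ x, (w x - g x) ^ 2 ∂μ ≤ ε ∧
      ∫ x, v x * a x ∂μ = - ∫ x, w x * b x ∂μ) :
    ∫ x, u x * a x ∂μ = - ∫ x, g x * b x ∂μ := by
  have hA : 0 ≤ ∫ x, a x ^ 2 ∂μ := integral_nonneg fun _ => sq_nonneg _
  have hB : 0 ≤ ∫ x, b x ^ 2 ∂μ := integral_nonneg fun _ => sq_nonneg _
  set C := (1 + ∫ x, a x ^ 2 ∂μ) / 2 + (1 + ∫ x, b x ^ 2 ∂μ) / 2 with hC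
  have hC0 : 0 < C := by positivity
  have key : ∀ t : ℝ, 0 < t → |∫ x, u x * a x ∂μ + ∫ x, g x * b x ∂μ| ≤ t * C := by
    intro t ht
    obtain ⟨v, w, hv, hw, e1, e2, e3⟩ := H (t ^ 2) (by positivity)
    have c1 := lt_cs (f := fun x => v x - u x) (hv.sub hu) ha ht e1
    have c2 := lt_cs (f := fun x => w x - g x) (hw.sub hg) hb ht e2
    have d1 : ∫ x, (v x - u x) * a x ∂μ = ∫ x, v x * a x ∂μ - ∫ x, u x * a x ∂μ := by
      have j1 : Integrable (fun x => v x * a x) μ := hv.integrable_mul ha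
      have j2 : Integrable (fun x => u x * a x) μ := hu.integrable_mul ha
      rw [← integral_sub j1 j2]
      exact integral_congr_ae (Eventually.of_forall fun x => sub_mul _ _ _)
    have d2 : ∫ x, (w x - g x) * b x ∂μ = ∫ x, w x * b x ∂μ - ∫ x, g x * b x ∂μ := by
      have j1 : Integrable (fun x => w x * b x) μ := hw.integrable_mul hb
      have j2 : Integrable (fun x => g x * b x) μ := hg.integrable_mul hb
      rw [← integral_sub j1 j2]
      exact integral_congr_ae (Eventually.of_forall fun x => sub_mul _ _ _)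
    rw [d1] at c1
    rw [d2] at c2
    rw [abs_le] at c1 c2 ⊢
    rw [hC]
    constructor <;> linarith [c1.1, c1.2, c2.1, c2.2]
  have h0 : |∫ x, u x * a x ∂μ + ∫ x, g x * b x ∂μ| ≤ 0 := by
    refine le_of_forall_pos_le_add fun ε hε => ?_
    have := key (ε / C) (by positivity)
    rw [div_mul_cancel₀ _ hC0.ne'] at this
    linarith
  have := abs_nonpos_iff.1 h0
  linarith

theorem lt_complex {μ : Measure (ℝ × ℝ)} {u g : ℝ × ℝ → ℂ} {a b : ℝ × ℝ → ℝ} (hu : MemLp u 2 μ)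
    (hg : MemLp g 2 μ) (ha : MemLp a 2 μ) (hb : MemLp b 2 μ)
    (H : ∀ L : ℂ →L[ℝ] ℝ, ∫ x, L (u x) * a x ∂μ = - ∫ x, L (g x) * b x ∂μ) :
    ∫ x, u x * (a x : ℂ) ∂μ = - ∫ x, g x * (b x : ℂ) ∂μ := by
  have key : ∀ (L : ℂ →L[ℝ] ℝ) {f : ℝ × ℝ → ℂ} {c : ℝ × ℝ → ℝ}, MemLp f 2 μ → MemLp c 2 μ →
      ∫ p, L (f p) * c p ∂μ = L (∫ p, f p * (c p : ℂ) ∂μ) := by
    intro L f c hf hc
    have h1 : MemLp (fun p => (c p : ℂ)) 2 μ := hc.ofReal
    have hi : Integrable (fun p => f p * (c p : ℂ)) μ := hf.integrable_mul h1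
    rw [← L.integral_comp_comm hi]
    refine integral_congr_ae (Eventually.of_forall fun p => ?_)
    have : f p * (c p : ℂ) = c p • f p := by rw [mul_comm]; rfl
    simp only [this, map_smul, smul_eq_mul, mul_comm]
  have h1 := H Complex.reCLM
  have h2 := H Complex.imCLM
  rw [key _ hu ha, key _ hg hb] at h1 h2
  exact Complex.ext (by simpa using h1) (by simpa using h2)

theorem lt_restrict {E : Type} [NormedAddCommGroup E] [NormedSpace ℝ E] {Ω K : Set (ℝ × ℝ)}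
    (hΩ : IsOpen Ω) (hs : K ⊆ Ω) {F : ℝ × ℝ → E} (h : ∀ p, p ∉ K → F p = 0) :
    ∫ p in Ω, F p = ∫ p in K, F p :=
  setIntegral_eq_of_subset_of_forall_sdiff_eq_zero hΩ.measurableSet hs fun p hp => h p hp.2

/-- The weak-derivative identity of an `H^1` function holds for Lipschitz test functions. -/
theorem lip_test {Ω : Set (ℝ × ℝ)} (hΩ : IsOpen Ω) {u g₁ g₂ : ℝ × ℝ → ℂ} (h : IsH1 Ω u g₁ g₂)
    {ψ : ℝ × ℝ → ℝ} (hψ : LocallyLipschitzOn Ω ψ) (hc : HasCompactSupport ψ)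
    (hs : tsupport ψ ⊆ Ω) :
    (∫ p in Ω, u p * (dd (1, 0) ψ p : ℂ) = - ∫ p in Ω, g₁ p * (ψ p : ℂ)) ∧
    (∫ p in Ω, u p * (dd (0, 1) ψ p : ℂ) = - ∫ p in Ω, g₂ p * (ψ p : ℂ)) := by
  have hK : IsCompact (tsupport ψ) := hc
  have hfin : IsFiniteMeasure (volume.restrict (tsupport ψ)) :=
    isFiniteMeasure_restrict.2 hK.measure_lt_top.ne
  have hcont : ContinuousOn ψ (tsupport ψ) := hψ.continuousOn.mono hs
  have mψ : MemLp ψ 2 (volume.restrict (tsupport ψ)) := by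
    obtain ⟨C, hC⟩ := hK.exists_bound_of_continuousOn hcont
    refine MemLp.of_bound (hcont.aestronglyMeasurable hK.measurableSet) C ?_
    exact (ae_restrict_iff' hK.measurableSet).2 (Eventually.of_forall hC)
  have md : ∀ v, MemLp (dd v ψ) 2 (volume.restrict (tsupport ψ)) := fun v =>
    (memLp_dd hΩ hψ hK hs v).mono_exponent le_top
  have z0 : ∀ p, p ∉ tsupport ψ → ψ p = 0 := fun p hp => image_eq_zero_of_notMem_tsupport hp
  have z1 : ∀ v p, p ∉ tsupport ψ → dd v ψ p = 0 := fun v p hp => dd_eq_zero_of_notMem hp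
  have ibp : ∀ (v : ℝ × ℝ) (w : ℝ × ℝ → ℝ), ContDiff ℝ ∞ w →
      ∫ x in tsupport ψ, w x * dd v ψ x = - ∫ x in tsupport ψ, dd v w x * ψ x := by
    intro v w hw
    have h1 : ContDiff ℝ 1 w := hw.of_le top_one
    have := ibp_lip hΩ (h1.locallyLipschitz.locallyLipschitzOn) hψ hc hs v
    rwa [lt_restrict hΩ hs (fun p hp => by rw [z1 v p hp, mul_zero]),
      lt_restrict hΩ hs (fun p hp => by rw [z0 p hp, mul_zero])] at this
  constructor
  · rw [lt_restrict hΩ hs (fun p hp => by rw [z1 _ p hp, Complex.ofReal_zero, mul_zero]),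
      lt_restrict hΩ hs (fun p hp => by rw [z0 p hp, Complex.ofReal_zero, mul_zero])]
    refine lt_complex (h.memLp_u.mono_measure (Measure.restrict_mono hs le_rfl))
      (h.memLp_g₁.mono_measure (Measure.restrict_mono hs le_rfl)) (md _) mψ fun L => ?_
    have hw := h.weakGrad L
    refine lt_limit (memLp_sub hs hw.mu) (memLp_sub hs hw.m₁) (md _) mψ fun ε hε => ?_
    obtain ⟨v, hv, e0, e1, -⟩ := hw.approx hΩ hK hs hε
    exact ⟨v, dd (1, 0) v, memLp_on_compact hK hv.continuous 2,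
      memLp_on_compact hK (continuous_dd (hv.of_le top_one)) 2, e0, e1, ibp _ v hv⟩
  · rw [lt_restrict hΩ hs (fun p hp => by rw [z1 _ p hp, Complex.ofReal_zero, mul_zero]),
      lt_restrict hΩ hs (fun p hp => by rw [z0 p hp, Complex.ofReal_zero, mul_zero])]
    refine lt_complex (h.memLp_u.mono_measure (Measure.restrict_mono hs le_rfl))
      (h.memLp_g₂.mono_measure (Measure.restrict_mono hs le_rfl)) (md _) mψ fun L => ?_
    have hw := h.weakGrad L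
    refine lt_limit (memLp_sub hs hw.mu) (memLp_sub hs hw.m₂) (md _) mψ fun ε hε => ?_
    obtain ⟨v, hv, e0, -, e2⟩ := hw.approx hΩ hK hs hε
    exact ⟨v, dd (0, 1) v, memLp_on_compact hK hv.continuous 2,
      memLp_on_compact hK (continuous_dd (hv.of_le top_one)) 2, e0, e2, ibp _ v hv⟩

end Pool.Agent.Lib.MP_d36e13_an.DC
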