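import Pool.Agent.Lib.MP_d36e13_an.DC.Lip
import Pool.Agent.Lib.MP_d36e13_an.DC.LipTest

open MeasureTheory Set Filter Topology Metric
open scoped ENNReal ContDiff

namespace Pool.Agent.Lib.MP_d36e13_an.DC

theorem lp_mol_bound {Ω : Set (ℝ × ℝ)} (hΩ : MeasurableSet Ω) {C : ℝ × ℝ → ℝ} {M : ℝ}
    (hM0 : 0 ≤ M) (hM : ∀ᵐ x ∂(volume.restrict Ω), |C x| ≤ M) (φ : ContDiffBump (0 : ℝ × ℝ))
    (x : ℝ × ℝ) : |mol φ (Ω.indicator C) x| ≤ M := by
  have hi : Integrable (fun t => M * φ.normed volume (x - t)) :=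
    ((φ.integrable_normed (μ := volume)).comp_sub_left x).const_mul M
  rw [mol_indicator hΩ, ← Real.norm_eq_abs]
  calc ‖∫ t in Ω, C t * φ.normed volume (x - t)‖ ≤ ∫ t in Ω, M * φ.normed volume (x - t) := by
        refine norm_integral_le_of_norm_le hi.integrableOn ?_
        filter_upwards [hM] with t ht
        rw [norm_mul, Real.norm_eq_abs, Real.norm_of_nonneg (φ.nonneg_normed _)]
        exact mul_le_mul_of_nonneg_right ht (φ.nonneg_normed _)
    _ ≤ ∫ t, M * φ.normed volume (x - t) :=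
        setIntegral_le_integral hi
          (Eventually.of_forall fun t => mul_nonneg hM0 (φ.nonneg_normed _))
    _ = M := by
        rw [integral_const_mul, integral_sub_left_eq_self (φ.normed volume) volume x,
          φ.integral_normed, mul_one]

theorem lp_approx {Ω K : Set (ℝ × ℝ)} {A₁ A₂ : ℝ × ℝ → ℝ} (hΩ : IsOpen Ω) (hK : IsCompact K)
    (hKΩ : K ⊆ Ω) (h₁ : MemLp A₁ 2 (volume.restrict Ω)) (h₂ : MemLp A₂ 2 (volume.restrict Ω))
    (hc : ∀ φ, IsTest Ω φ → ∫ p in Ω, (A₁ p * dd (0, 1) φ p - A₂ p * dd (1, 0) φ p) = 0)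
    {M : ℝ} (hM0 : 0 ≤ M) (b₁ : ∀ᵐ x ∂(volume.restrict Ω), |A₁ x| ≤ M)
    (b₂ : ∀ᵐ x ∂(volume.restrict Ω), |A₂ x| ≤ M) {ε : ℝ} (hε : 0 < ε) :
    ∃ a₁ a₂ : ℝ × ℝ → ℝ, ContDiff ℝ ∞ a₁ ∧ ContDiff ℝ ∞ a₂ ∧
      (∀ x ∈ K, dd (0, 1) a₁ x = dd (1, 0) a₂ x) ∧ (∀ x, |a₁ x| ≤ M) ∧ (∀ x, |a₂ x| ≤ M) ∧
      ∫ x in K, (a₁ x - A₁ x) ^ 2 ≤ ε ∧ ∫ x in K, (a₂ x - A₂ x) ^ 2 ≤ ε := by
  have hm := hΩ.measurableSet
  obtain ⟨r1, hr1, H1⟩ := mol_close_on hm hK hKΩ h₁ hε
  obtain ⟨r2, hr2, H2⟩ := mol_close_on hm hK hKΩ h₂ hε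
  obtain ⟨r3, hr3, H3⟩ := exists_radius hΩ hK hKΩ
  have hr : 0 < min r1 (min r2 r3) := by positivity
  let φ := bump _ hr
  have hφ : φ.rOut = min r1 (min r2 r3) := rfl
  have hb : ∀ x ∈ K, closedBall x φ.rOut ⊆ Ω := fun x hx =>
    (closedBall_subset_closedBall
      (by rw [hφ]; exact (min_le_right _ _).trans (min_le_right _ _))).trans (H3 x hx)
  have h1' : MemLp (Ω.indicator A₁) 2 volume := (memLp_indicator_iff_restrict hm).2 h₁
  have h2' : MemLp (Ω.indicator A₂) 2 volume := (memLp_indicator_iff_restrict hm).2 h₂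
  refine ⟨mol φ (Ω.indicator A₁), mol φ (Ω.indicator A₂),
    contDiff_mol (h1'.locallyIntegrable (by norm_num)),
    contDiff_mol (h2'.locallyIntegrable (by norm_num)), fun x hx => ?_,
    lp_mol_bound hm hM0 b₁ φ, lp_mol_bound hm hM0 b₂ φ,
    H1 φ (by rw [hφ]; exact min_le_left _ _),
    H2 φ (by rw [hφ]; exact (min_le_right _ _).trans (min_le_left _ _))⟩
  have ht := isTest_shift (hb x hx)
  have h := hc _ ht
  have c1 : ContDiff ℝ 1 (fun t => φ.normed volume (x - t)) := ht.1.of_le top_one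
  rw [integral_sub (integrable_mul_of_test h₁ (continuous_dd c1) (hasCompactSupport_dd ht.2.1))
    (integrable_mul_of_test h₂ (continuous_dd c1) (hasCompactSupport_dd ht.2.1))] at h
  rw [dd_mol_indicator hm h₁, dd_mol_indicator hm h₂]
  linarith

/-- A bounded smooth curl-free field on a ball has a globally Lipschitz primitive there. -/
theorem lp_prim {z : ℝ × ℝ} {r : ℝ} {a₁ a₂ : ℝ × ℝ → ℝ} (h₁ : ContDiff ℝ ∞ a₁)
    (h₂ : ContDiff ℝ ∞ a₂) (h : ∀ x ∈ ball z r, dd (0, 1) a₁ x = dd (1, 0) a₂ x) {M : NNReal}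
    (b₁ : ∀ x, |a₁ x| ≤ M) (b₂ : ∀ x, |a₂ x| ≤ M) :
    ∃ θ : ℝ × ℝ → ℝ, LipschitzWith (2 * M) θ ∧ θ z = 0 ∧
      ∀ x ∈ ball z r, dd (1, 0) θ x = a₁ x ∧ dd (0, 1) θ x = a₂ x := by
  obtain ⟨θ, hθ⟩ := exists_primitive isOpen_ball (convex_ball z r) (h₁.of_le top_one)
    (h₂.of_le top_one) h
  have hd : ∀ x ∈ ball z r, DifferentiableAt ℝ θ x := fun x hx =>
    (hθ x hx).1.differentiableAt (by simp)
  have hL : LipschitzOnWith (2 * M) θ (ball z r) := by
    refine (convex_ball z r).lipschitzOnWith_of_nnnorm_fderiv_le (𝕜 := ℝ) hd fun x hx => ?_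
    rw [← NNReal.coe_le_coe, coe_nnnorm]
    refine ContinuousLinearMap.opNorm_le_bound _ (by positivity) fun v => ?_
    have e1 : fderiv ℝ θ x (1, 0) = a₁ x := (hθ x hx).2.1
    have e2 : fderiv ℝ θ x (0, 1) = a₂ x := (hθ x hx).2.2
    rw [clm_apply_eq, e1, e2, Real.norm_eq_abs]
    have v1 : |v.1| ≤ ‖v‖ := norm_fst_le v
    have v2 : |v.2| ≤ ‖v‖ := norm_snd_le v
    calc |v.1 * a₁ x + v.2 * a₂ x| ≤ |v.1| * |a₁ x| + |v.2| * |a₂ x| := by
          rw [← abs_mul, ← abs_mul]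
          exact abs_add_le _ _
      _ ≤ ‖v‖ * M + ‖v‖ * M := by
          gcongr
          · exact b₁ x
          · exact b₂ x
      _ = _ := by push_cast; ring
  obtain ⟨g, hg1, hg2⟩ := hL.extend_real
  refine ⟨fun x => g x - g z, ?_, sub_self _, fun x hx => ?_⟩
  · refine LipschitzWith.of_dist_le_mul fun x y => ?_
    rw [dist_sub_right]
    exact hg1.dist_le_mul x y
  · have e : (fun x => g x - g z) =ᶠ[𝓝 x] fun x => θ x - g z := by
      filter_upwards [isOpen_ball.mem_nhds hx] with y hy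
      rw [hg2 hy]
    have e2 : ∀ v, dd v (fun x => g x - g z) x = dd v θ x := fun v => by
      unfold dd
      rw [e.fderiv_eq, fderiv_sub_const]
    rw [e2, e2]
    exact (hθ x hx).2

/-- Equi-Lipschitz functions vanishing at a point cluster uniformly on a compact set. -/
theorem lp_cluster {θ : ℕ → ℝ × ℝ → ℝ} {L : NNReal} (hL : ∀ n, LipschitzWith L (θ n)) {z : ℝ × ℝ}
    (hz : ∀ n, θ n z = 0) {K : Set (ℝ × ℝ)} (hK : IsCompact K) :
    ∃ χ : ℝ × ℝ → ℝ, LipschitzWith L χ ∧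
      ∀ δ : ℝ, 0 < δ → ∃ᶠ n in atTop, ∀ x ∈ K, |θ n x - χ x| ≤ δ := by
  let U : Ultrafilter ℕ := Ultrafilter.of atTop
  have hU : (U : Filter ℕ) ≤ atTop := Ultrafilter.of_le _
  have h1 : ∀ x, ∃ c : ℝ, Tendsto (fun n => θ n x) U (𝓝 c) := by
    intro x
    obtain ⟨c, -, hc⟩ := (isCompact_closedBall (0 : ℝ) (L * dist x z)).ultrafilter_le_nhds
      (U.map fun n => θ n x) (by
        rw [le_principal_iff, Ultrafilter.coe_map, mem_map]
        refine Eventually.of_forall fun n => ?_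
        have := (hL n).dist_le_mul x z
        rw [hz n] at this
        exact this)
    exact ⟨c, hc⟩
  choose χ hχ using h1
  have hχL : LipschitzWith L χ := LipschitzWith.of_dist_le_mul fun x y =>
    le_of_tendsto' ((hχ x).dist (hχ y)) fun n => (hL n).dist_le_mul x y
  refine ⟨χ, hχL, fun δ hδ => ?_⟩
  have h2 : {q : ℕ × (ℝ × ℝ) | |θ q.1 q.2 - χ q.2| ≤ δ} ∈ (U : Filter ℕ) ×ˢ 𝓝ˢ K := by
    refine hK.mem_prod_nhdsSet_of_forall fun y _ => ?_
    have e1 : ∀ᶠ n in (U : Filter ℕ), dist (θ n y) (χ y) < δ / 3 :=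
      (Metric.tendsto_nhds.1 (hχ y)) _ (by positivity)
    have e2 : ∀ᶠ x in 𝓝 y, (L : ℝ) * dist x y < δ / 3 := by
      have : Tendsto (fun x => (L : ℝ) * dist x y) (𝓝 y) (𝓝 ((L : ℝ) * dist y y)) :=
        Continuous.tendsto (by fun_prop) y
      refine this.eventually_lt_const ?_
      rw [dist_self, mul_zero]
      positivity
    filter_upwards [e1.prod_mk e2] with q hq
    have d1 := (hL q.1).dist_le_mul q.2 y
    have d2 := hχL.dist_le_mul q.2 y
    have d3 := dist_triangle4 (θ q.1 q.2) (θ q.1 y) (χ y) (χ q.2)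
    rw [dist_comm (χ y) (χ q.2)] at d3
    show |θ q.1 q.2 - χ q.2| ≤ δ
    rw [← Real.dist_eq]
    linarith [hq.1, hq.2]
  obtain ⟨s, hs, t, ht, hst⟩ := mem_prod_iff.1 h2
  have h3 : ∀ᶠ n in (U : Filter ℕ), ∀ x ∈ K, |θ n x - χ x| ≤ δ := by
    filter_upwards [hs] with n hn x hx
    exact hst (mk_mem_prod hn (subset_of_mem_nhdsSet ht hx))
  exact h3.frequently.filter_mono hU

/-- A bounded weakly curl-free field has a Lipschitz primitive on a small square. -/
theorem exists_local_primitive {Ω : Set (ℝ × ℝ)} (hΩ : IsOpen Ω) (hb : Bornology.IsBounded Ω)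
    {C₁ C₂ : ℝ × ℝ → ℝ} (h₁ : MemLp C₁ ⊤ (volume.restrict Ω)) (h₂ : MemLp C₂ ⊤ (volume.restrict Ω))
    (hc : ∀ φ, IsTest Ω φ → ∫ p in Ω, (C₁ p * dd (0, 1) φ p - C₂ p * dd (1, 0) φ p) = 0)
    {z : ℝ × ℝ} {r : ℝ} (hr : 0 < r) (hz : closedBall z (2 * r) ⊆ Ω) :
    ∃ (χ : ℝ × ℝ → ℝ) (K : NNReal), LipschitzWith K χ ∧
      ∀ᵐ p ∂(volume.restrict (ball z r)), dd (1, 0) χ p = C₁ p ∧ dd (0, 1) χ p = C₂ p := by
  have hfin : IsFiniteMeasure (volume.restrict Ω) :=
    isFiniteMeasure_restrict.2 hb.measure_lt_top.ne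
  have m₁ : MemLp C₁ 2 (volume.restrict Ω) := h₁.mono_exponent le_top
  have m₂ : MemLp C₂ 2 (volume.restrict Ω) := h₂.mono_exponent le_top
  obtain ⟨B₁, hB₁⟩ := exists_ae_bound h₁
  obtain ⟨B₂, hB₂⟩ := exists_ae_bound h₂
  let M : NNReal := ⟨√(max B₁ B₂), Real.sqrt_nonneg _⟩
  have b₁ : ∀ᵐ x ∂(volume.restrict Ω), |C₁ x| ≤ M := by
    filter_upwards [hB₁] with x hx
    exact Real.abs_le_sqrt (hx.trans (le_max_left _ _))
  have b₂ : ∀ᵐ x ∂(volume.restrict Ω), |C₂ x| ≤ M := by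
    filter_upwards [hB₂] with x hx
    exact Real.abs_le_sqrt (hx.trans (le_max_right _ _))
  have hK : IsCompact (closedBall z r) := isCompact_closedBall z r
  have hKΩ : closedBall z r ⊆ Ω := (closedBall_subset_closedBall (by linarith)).trans hz
  have hUK : ball z r ⊆ closedBall z r := ball_subset_closedBall
  have hUΩ : ball z r ⊆ Ω := hUK.trans hKΩ
  have hfinU : IsFiniteMeasure (volume.restrict (ball z r)) :=
    isFiniteMeasure_restrict.2 measure_ball_lt_top.ne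
  have step : ∀ n : ℕ, ∃ θ a₁ a₂ : ℝ × ℝ → ℝ, LipschitzWith (2 * M) θ ∧ θ z = 0 ∧
      Continuous a₁ ∧ Continuous a₂ ∧
      (∀ x ∈ ball z r, dd (1, 0) θ x = a₁ x ∧ dd (0, 1) θ x = a₂ x) ∧
      ∫ x in closedBall z r, (a₁ x - C₁ x) ^ 2 ≤ 1 / (n + 1 : ℝ) ∧
      ∫ x in closedBall z r, (a₂ x - C₂ x) ^ 2 ≤ 1 / (n + 1 : ℝ) := by
    intro n
    obtain ⟨a₁, a₂, c₁, c₂, hcurl, d₁, d₂, e₁, e₂⟩ :=
      lp_approx hΩ hK hKΩ m₁ m₂ hc M.2 b₁ b₂ (ε := 1 / (n + 1 : ℝ)) (by positivity)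
    obtain ⟨θ, t₁, t₂, t₃⟩ := lp_prim (z := z) (r := r) c₁ c₂ (fun x hx => hcurl x (hUK hx)) d₁ d₂
    exact ⟨θ, a₁, a₂, t₁, t₂, c₁.continuous, c₂.continuous, t₃, e₁, e₂⟩
  choose θ a₁ a₂ t₁ t₂ c₁ c₂ t₃ e₁ e₂ using step
  obtain ⟨χ, hχ, hcl⟩ := lp_cluster t₁ t₂ hK
  have mc : ∀ {f : ℝ × ℝ → ℝ}, Continuous f → MemLp f 2 (volume.restrict (ball z r)) :=
    fun hf => memLp_sub hUK (memLp_on_compact hK hf 2)
  have key : ∀ (v : ℝ × ℝ) (C : ℝ × ℝ → ℝ) (a : ℕ → ℝ × ℝ → ℝ),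
      MemLp C 2 (volume.restrict Ω) → (∀ n, Continuous (a n)) →
      (∀ n, ∀ x ∈ ball z r, dd v (θ n) x = a n x) →
      (∀ n : ℕ, ∫ x in closedBall z r, (a n x - C x) ^ 2 ≤ 1 / (n + 1 : ℝ)) →
      ∀ᵐ p ∂(volume.restrict (ball z r)), dd v χ p = C p := by
    intro v C a mC ca ta ea
    have mCU : MemLp C 2 (volume.restrict (ball z r)) := memLp_sub hUΩ mC
    have mχ : MemLp (dd v χ) 2 (volume.restrict (ball z r)) :=
      (memLp_sub hUK (memLp_dd isOpen_univ hχ.locallyLipschitz.locallyLipschitzOn hK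
        (subset_univ _) v)).mono_exponent le_top
    have hint : IntegrableOn (fun p => dd v χ p - C p) (ball z r) :=
      (mχ.sub mCU).integrable (by norm_num)
    have h0 := isOpen_ball.ae_eq_zero_of_integral_contDiff_smul_eq_zero
      (μ := (volume : Measure (ℝ × ℝ))) hint.locallyIntegrableOn (fun g g1 g2 g3 => by
        have g4 : ContDiff ℝ 1 g := g1.of_le top_one
        have gL : LocallyLipschitzOn (ball z r) g := g4.locallyLipschitz.locallyLipschitzOn
        have i1 := ibp_lip isOpen_ball hχ.locallyLipschitz.locallyLipschitzOn gL g2 g3 v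
        have i2 : ∫ x in ball z r, χ x * dd v g x = - ∫ x in ball z r, C x * g x := by
          refine lt_limit (mc hχ.continuous) mCU (mc (continuous_dd g4)) (mc g4.continuous)
            fun ε hε => ?_
          set V : ℝ := (volume : Measure (ℝ × ℝ)).real (ball z r) with hV
          have hV0 : 0 ≤ V := measureReal_nonneg
          have hδ : 0 < √(ε / (V + 1)) := Real.sqrt_pos.2 (by positivity)
          have ev : ∀ᶠ n : ℕ in atTop, 1 / (n + 1 : ℝ) < ε :=
            tendsto_one_div_add_atTop_nhds_zero_nat.eventually_lt_const hε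
          obtain ⟨n, hn1, hn2⟩ := ((hcl _ hδ).and_eventually ev).exists
          refine ⟨θ n, a n, mc (t₁ n).continuous, mc (ca n), ?_, ?_, ?_⟩
          · have j1 : ‖∫ x in ball z r, (θ n x - χ x) ^ 2‖ ≤ ε / (V + 1) * V := by
              refine norm_setIntegral_le_of_norm_le_const measure_ball_lt_top fun x hx => ?_
              rw [Real.norm_of_nonneg (sq_nonneg _), ← sq_abs, ← Real.sq_sqrt
                (show 0 ≤ ε / (V + 1) by positivity)]
              exact pow_le_pow_left₀ (abs_nonneg _) (hn1 x (hUK hx)) 2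
            have j2 : ε / (V + 1) * V ≤ ε := by
              rw [div_mul_eq_mul_div, div_le_iff₀ (by positivity)]
              nlinarith
            exact (le_abs_self _).trans (j1.trans j2)
          · refine le_trans ?_ ((ea n).trans hn2.le)
            exact Q_mono (f := fun x => a n x - C x) hUK
              ((memLp_on_compact hK (ca n) 2).sub (memLp_sub hKΩ mC))
          · rw [ibp_lip isOpen_ball (t₁ n).locallyLipschitz.locallyLipschitzOn gL g2 g3 v]
            congr 1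
            exact setIntegral_congr_fun measurableSet_ball fun x hx => by simp only [ta n x hx]
        have i3 : ∫ x in ball z r, g x • (dd v χ x - C x) = 0 := by
          have j1 : Integrable (fun x => dd v χ x * g x) (volume.restrict (ball z r)) :=
            mχ.integrable_mul (mc g4.continuous)
          have j2 : Integrable (fun x => C x * g x) (volume.restrict (ball z r)) :=
            mCU.integrable_mul (mc g4.continuous)
          have j3 : ∫ x in ball z r, g x • (dd v χ x - C x) =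
              ∫ x in ball z r, (dd v χ x * g x - C x * g x) :=
            integral_congr_ae (Eventually.of_forall fun x => by simp only [smul_eq_mul]; ring)
          rw [j3, integral_sub j1 j2]
          linarith
        rwa [setIntegral_eq_integral_of_forall_compl_eq_zero (fun x hx => by
          rw [image_eq_zero_of_notMem_tsupport (f := g) fun h => hx (g3 h), zero_smul])] at i3)
    rw [ae_restrict_iff' measurableSet_ball]
    filter_upwards [h0] with x hx hxU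
    exact sub_eq_zero.1 (hx hxU)
  exact ⟨χ, 2 * M, hχ, (key _ C₁ a₁ m₁ c₁ (fun n x hx => (t₃ n x hx).1) e₁).and
    (key _ C₂ a₂ m₂ c₂ (fun n x hx => (t₃ n x hx).2) e₂)⟩

end Pool.Agent.Lib.MP_d36e13_an.DC
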