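import Pool.Agent.Lib.MP_d36e13_an.DC.Base

open MeasureTheory Set Filter Topology Metric
open scoped ENNReal ContDiff

namespace Pool.Agent.Lib.MP_d36e13_an.DC

/-- Parseval on one period for a continuous function. -/
theorem parseval {h : ℝ → ℂ} (hh : Continuous h) :
    HasSum (fun m : ℤ => ‖(1 / (2 * Real.pi) : ℝ) • ∫ t in (0 : ℝ)..2 * Real.pi,
        Complex.exp (-((m : ℂ) * (t : ℂ) * Complex.I)) * h t‖ ^ 2)
      (1 / (2 * Real.pi) * ∫ t in (0 : ℝ)..2 * Real.pi, ‖h t‖ ^ 2) := by
  have hab : (0 : ℝ) < 2 * Real.pi := Real.two_pi_pos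
  have hL2 : MemLp h 2 (volume.restrict (Ioc (0 : ℝ) (2 * Real.pi))) := by
    rw [memLp_two_iff_integrable_sq_norm hh.aestronglyMeasurable]
    exact ((hh.norm.pow 2).continuousOn.integrableOn_compact isCompact_Icc).mono_set
      Ioc_subset_Icc_self
  have H := hasSum_sq_fourierCoeffOn hab hL2
  have e : (fun m : ℤ => ‖(1 / (2 * Real.pi) : ℝ) • ∫ t in (0 : ℝ)..2 * Real.pi,
        Complex.exp (-((m : ℂ) * (t : ℂ) * Complex.I)) * h t‖ ^ 2) =
      fun i => ‖fourierCoeffOn hab h i‖ ^ 2 := by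
    funext m
    rw [fourierCoeffOn_eq_integral]
    have e1 : (fun x : ℝ => fourier (-m) (x : AddCircle (2 * Real.pi - 0)) • h x) =
        fun t : ℝ => Complex.exp (-((m : ℂ) * (t : ℂ) * Complex.I)) * h t := by
      funext t
      rw [fourier_coe_apply, smul_eq_mul]
      have hp : (Real.pi : ℂ) ≠ 0 := Complex.ofReal_ne_zero.2 Real.pi_pos.ne'
      have e2 : 2 * (Real.pi : ℂ) * Complex.I * ((-m : ℤ) : ℂ) * (t : ℂ) /
          ((2 * Real.pi - 0 : ℝ) : ℂ) = -((m : ℂ) * (t : ℂ) * Complex.I) := by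
        push_cast
        rw [sub_zero]
        field_simp
      rw [e2]
    rw [e1, sub_zero]
  rw [e]
  have e3 : (1 / (2 * Real.pi) * ∫ t in (0 : ℝ)..2 * Real.pi, ‖h t‖ ^ 2) =
      (2 * Real.pi - 0)⁻¹ • ∫ t in (0 : ℝ)..2 * Real.pi, ‖h t‖ ^ 2 := by
    rw [sub_zero, smul_eq_mul, one_div]
  rw [e3]
  exact H

theorem det_rotL (t : ℝ) : LinearMap.det (rotL t : ℝ × ℝ →ₗ[ℝ] ℝ × ℝ) = 1 := by
  rw [← LinearMap.det_toMatrix (Module.Basis.finTwoProd ℝ), Matrix.det_fin_two]
  simp only [LinearMap.toMatrix_apply, ContinuousLinearMap.coe_coe, rotL_apply, rot,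
    Module.Basis.finTwoProd_zero, Module.Basis.finTwoProd_one, Module.Basis.coe_finTwoProd_repr,
    Matrix.cons_val_zero, Matrix.cons_val_one]
  linear_combination Real.sin_sq_add_cos_sq t

theorem measurePreserving_rot (t : ℝ) : MeasurePreserving (rot t) volume volume := by
  have hc : Continuous (rot t) := continuous_rot.comp (continuous_const.prodMk continuous_id)
  refine ⟨hc.measurable, ?_⟩
  have h := Measure.map_linearMap_addHaar_eq_smul_addHaar (volume : Measure (ℝ × ℝ))
    (f := (rotL t : ℝ × ℝ →ₗ[ℝ] ℝ × ℝ)) (by rw [det_rotL]; exact one_ne_zero)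
  have e : ((rotL t : ℝ × ℝ →ₗ[ℝ] ℝ × ℝ) : ℝ × ℝ → ℝ × ℝ) = rot t := funext (rotL_apply t)
  rw [e, det_rotL] at h
  simpa using h

theorem setIntegral_rot {f : ℝ × ℝ → ℝ} (hf : Continuous f) (R t : ℝ) :
    ∫ p in disc R, f (rot t p) = ∫ p in disc R, f p := by
  have hm : MeasurableSet (disc R) := (isOpen_disc R).measurableSet
  have h := (measurePreserving_rot t).restrict_preimage hm
  have e : rot t ⁻¹' disc R = disc R := by
    ext p
    rw [mem_preimage, mem_disc, mem_disc, sq2_rot]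
  rw [e] at h
  have h2 := integral_map (μ := volume.restrict (disc R)) h.measurable.aemeasurable
    (f := f) hf.aestronglyMeasurable
  rw [h.map_eq] at h2
  exact h2.symm

/-- Averaging over rotations does not change the integral over a disc. -/
theorem integral_rot_avg {f : ℝ × ℝ → ℝ} (hf : Continuous f) (R : ℝ) :
    ∫ p in disc R, (1 / (2 * Real.pi) * ∫ t in (0 : ℝ)..2 * Real.pi, f (rot t p)) =
      ∫ p in disc R, f p := by
  have hab : (0 : ℝ) < 2 * Real.pi := Real.two_pi_pos
  have hc : Continuous (Function.uncurry fun (p : ℝ × ℝ) (t : ℝ) => f (rot t p)) :=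
    hf.comp (continuous_rot.comp (continuous_snd.prodMk continuous_fst))
  have hi : Integrable (Function.uncurry fun (p : ℝ × ℝ) (t : ℝ) => f (rot t p))
      ((volume.restrict (disc R)).prod (volume.restrict (Ioc (0 : ℝ) (2 * Real.pi)))) := by
    rw [Measure.prod_restrict]
    exact (hc.continuousOn.integrableOn_compact
      ((isBounded_disc R).isCompact_closure.prod isCompact_Icc)).mono_set
      (prod_mono subset_closure Ioc_subset_Icc_self)
  rw [integral_const_mul]
  simp_rw [intervalIntegral.integral_of_le hab.le]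
  rw [integral_integral_swap hi]
  simp_rw [setIntegral_rot hf]
  rw [setIntegral_const, Real.volume_real_Ioc_of_le hab.le, smul_eq_mul, sub_zero]
  field_simp

end Pool.Agent.Lib.MP_d36e13_an.DC
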