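import Pool.Agent.Lib.MP_d36e13_an.DC.Mode
import Pool.Agent.Lib.MP_d36e13_an.DC.Parseval

open MeasureTheory Set Filter Topology Metric
open scoped ENNReal ContDiff

namespace Pool.Agent.Lib.MP_d36e13_an.DC

theorem continuous_rot_left (p : ℝ × ℝ) : Continuous fun t : ℝ => rot t p := by
  unfold rot; fun_prop

theorem hasSum_norm_mode {v : ℝ × ℝ → ℂ} (hv : Continuous v) (p : ℝ × ℝ) :
    HasSum (fun m : ℤ => ‖mode m v p‖ ^ 2)
      (1 / (2 * Real.pi) * ∫ t in (0 : ℝ)..2 * Real.pi, ‖v (rot t p)‖ ^ 2) :=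
  parseval (h := fun t => v (rot t p)) (hv.comp (continuous_rot_left p))

/-- One component of the magnetic gradient along the rotation orbit. -/
noncomputable def orb (v : ℝ × ℝ → ℂ) (p ξ : ℝ × ℝ) (a : ℝ) (t : ℝ) : ℂ :=
  -Complex.I * fderiv ℝ v (rot t p) (rot t ξ) - (a : ℂ) * v (rot t p)

theorem continuous_fderiv_rot {v : ℝ × ℝ → ℂ} (hv : ContDiff ℝ 1 v) (p ξ : ℝ × ℝ) :
    Continuous fun t : ℝ => fderiv ℝ v (rot t p) (rot t ξ) :=
  ((hv.continuous_fderiv (by simp)).comp (continuous_rot_left p)).clm_apply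
    (continuous_rot_left ξ)

theorem continuous_orb {v : ℝ × ℝ → ℂ} (hv : ContDiff ℝ 1 v) (p ξ : ℝ × ℝ) (a : ℝ) :
    Continuous (orb v p ξ a) :=
  (continuous_const.mul (continuous_fderiv_rot hv p ξ)).sub
    (continuous_const.mul (hv.continuous.comp (continuous_rot_left p)))

theorem coef_orb (m : ℤ) {v : ℝ × ℝ → ℂ} (hv : ContDiff ℝ 1 v) (p ξ : ℝ × ℝ) (a : ℝ) :
    -Complex.I * fderiv ℝ (mode m v) p ξ - (a : ℂ) * mode m v p =
      (1 / (2 * Real.pi) : ℝ) • ∫ t in (0 : ℝ)..2 * Real.pi,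
        Complex.exp (-((m : ℂ) * (t : ℂ) * Complex.I)) * orb v p ξ a t := by
  have he : Continuous fun t : ℝ => Complex.exp (-((m : ℂ) * (t : ℂ) * Complex.I)) := by
    fun_prop
  have h1 : Continuous fun t : ℝ => -Complex.I * (Complex.exp (-((m : ℂ) * (t : ℂ) * Complex.I)) *
      fderiv ℝ v (rot t p) (rot t ξ)) :=
    continuous_const.mul (he.mul (continuous_fderiv_rot hv p ξ))
  have h2 : Continuous fun t : ℝ => (a : ℂ) * (Complex.exp (-((m : ℂ) * (t : ℂ) * Complex.I)) *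
      v (rot t p)) :=
    continuous_const.mul (he.mul (hv.continuous.comp (continuous_rot_left p)))
  have e : (fun t : ℝ => Complex.exp (-((m : ℂ) * (t : ℂ) * Complex.I)) * orb v p ξ a t) =
      fun t : ℝ => -Complex.I * (Complex.exp (-((m : ℂ) * (t : ℂ) * Complex.I)) *
        fderiv ℝ v (rot t p) (rot t ξ)) -
        (a : ℂ) * (Complex.exp (-((m : ℂ) * (t : ℂ) * Complex.I)) * v (rot t p)) := by
    funext t
    unfold orb
    ring
  rw [e, intervalIntegral.integral_sub (h1.intervalIntegrable _ _) (h2.intervalIntegrable _ _),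
    intervalIntegral.integral_const_mul, intervalIntegral.integral_const_mul, fderiv_mode m hv]
  unfold mode
  simp only [Complex.real_smul]
  ring

theorem norm_rot_pair_unit {c s : ℝ} (h : s ^ 2 + c ^ 2 = 1) (x y : ℂ) :
    ‖(c : ℂ) * x + (s : ℂ) * y‖ ^ 2 + ‖-(s : ℂ) * x + (c : ℂ) * y‖ ^ 2 = ‖x‖ ^ 2 + ‖y‖ ^ 2 := by
  simp only [Complex.sq_norm, Complex.normSq_apply, Complex.add_re, Complex.add_im,
    Complex.mul_re, Complex.mul_im, Complex.neg_re, Complex.neg_im, Complex.ofReal_re,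
    Complex.ofReal_im]
  linear_combination (x.re ^ 2 + x.im ^ 2 + y.re ^ 2 + y.im ^ 2) * h

theorem orb_sq (Φ R₀ : ℝ) (v : ℝ × ℝ → ℂ) (p : ℝ × ℝ) (t : ℝ) :
    ‖orb v p (1, 0) (P1 Φ R₀ p) t‖ ^ 2 + ‖orb v p (0, 1) (P2 Φ R₀ p) t‖ ^ 2 =
      en Φ R₀ v (rot t p) := by
  have hs := Real.sin_sq_add_cos_sq t
  have r1 : rot t (1, 0) = Real.cos t • ((1, 0) : ℝ × ℝ) + Real.sin t • ((0, 1) : ℝ × ℝ) := by
    simp [rot]
  have r2 : rot t (0, 1) = (-Real.sin t) • ((1, 0) : ℝ × ℝ) + Real.cos t • ((0, 1) : ℝ × ℝ) := by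
    simp [rot]
  have q1 : P1 Φ R₀ p = Real.cos t * P1 Φ R₀ (rot t p) + Real.sin t * P2 Φ R₀ (rot t p) := by
    unfold P1 P2
    rw [ca_rot]
    simp only [rot]
    linear_combination (ca Φ R₀ p * p.2) * hs
  have q2 : P2 Φ R₀ p = -Real.sin t * P1 Φ R₀ (rot t p) + Real.cos t * P2 Φ R₀ (rot t p) := by
    unfold P1 P2
    rw [ca_rot]
    simp only [rot]
    linear_combination (-(ca Φ R₀ p * p.1)) * hs
  have o1 : orb v p (1, 0) (P1 Φ R₀ p) t = (Real.cos t : ℂ) *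
      (-Complex.I * fderiv ℝ v (rot t p) (1, 0) - (P1 Φ R₀ (rot t p) : ℂ) * v (rot t p)) +
      (Real.sin t : ℂ) *
      (-Complex.I * fderiv ℝ v (rot t p) (0, 1) - (P2 Φ R₀ (rot t p) : ℂ) * v (rot t p)) := by
    unfold orb
    rw [r1, q1]
    simp only [map_add, map_smul, Complex.real_smul, Complex.ofReal_add, Complex.ofReal_mul]
    ring
  have o2 : orb v p (0, 1) (P2 Φ R₀ p) t = -(Real.sin t : ℂ) *
      (-Complex.I * fderiv ℝ v (rot t p) (1, 0) - (P1 Φ R₀ (rot t p) : ℂ) * v (rot t p)) +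
      (Real.cos t : ℂ) *
      (-Complex.I * fderiv ℝ v (rot t p) (0, 1) - (P2 Φ R₀ (rot t p) : ℂ) * v (rot t p)) := by
    unfold orb
    rw [r2, q2]
    simp only [map_add, map_smul, Complex.real_smul, Complex.ofReal_add, Complex.ofReal_mul,
      Complex.ofReal_neg]
    ring
  rw [o1, o2, norm_rot_pair_unit hs]
  rfl

theorem hasSum_en_mode (Φ R₀ : ℝ) {v : ℝ × ℝ → ℂ} (hv : ContDiff ℝ 1 v) (p : ℝ × ℝ) :
    HasSum (fun m : ℤ => en Φ R₀ (mode m v) p)
      (1 / (2 * Real.pi) * ∫ t in (0 : ℝ)..2 * Real.pi, en Φ R₀ v (rot t p)) := by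
  have c1 := continuous_orb hv p (1, 0) (P1 Φ R₀ p)
  have c2 := continuous_orb hv p (0, 1) (P2 Φ R₀ p)
  have h := (parseval c1).add (parseval c2)
  have e : (∫ t in (0 : ℝ)..2 * Real.pi, en Φ R₀ v (rot t p)) =
      (∫ t in (0 : ℝ)..2 * Real.pi, ‖orb v p (1, 0) (P1 Φ R₀ p) t‖ ^ 2) +
        ∫ t in (0 : ℝ)..2 * Real.pi, ‖orb v p (0, 1) (P2 Φ R₀ p) t‖ ^ 2 := by
    have d1 : Continuous fun t => ‖orb v p (1, 0) (P1 Φ R₀ p) t‖ ^ 2 := c1.norm.pow 2
    have d2 : Continuous fun t => ‖orb v p (0, 1) (P2 Φ R₀ p) t‖ ^ 2 := c2.norm.pow 2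
    rw [← intervalIntegral.integral_add (d1.intervalIntegrable _ _) (d2.intervalIntegrable _ _)]
    simp only [orb_sq]
  rw [e, mul_add]
  have e2 : (fun m : ℤ => en Φ R₀ (mode m v) p) = fun m : ℤ =>
      ‖(1 / (2 * Real.pi) : ℝ) • ∫ t in (0 : ℝ)..2 * Real.pi,
        Complex.exp (-((m : ℂ) * (t : ℂ) * Complex.I)) * orb v p (1, 0) (P1 Φ R₀ p) t‖ ^ 2 +
      ‖(1 / (2 * Real.pi) : ℝ) • ∫ t in (0 : ℝ)..2 * Real.pi,
        Complex.exp (-((m : ℂ) * (t : ℂ) * Complex.I)) * orb v p (0, 1) (P2 Φ R₀ p) t‖ ^ 2 := by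
    funext m
    rw [← coef_orb m hv, ← coef_orb m hv]
    rfl
  rw [e2]
  exact h

theorem isBounded_disc' (R : ℝ) : Bornology.IsBounded (disc R) := by
  refine (Metric.isBounded_closedBall (x := (0 : ℝ × ℝ)) (r := |R|)).subset fun p hp => ?_
  have hp' : p.1 ^ 2 + p.2 ^ 2 < R ^ 2 := hp
  rw [mem_closedBall_zero_iff, Prod.norm_def, max_le_iff, Real.norm_eq_abs, Real.norm_eq_abs]
  constructor <;> apply sq_le_sq.1 <;> nlinarith [sq_nonneg p.1, sq_nonneg p.2]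

/-- Termwise integration over the disc of a series whose sum is a rotation average. -/
theorem hasSum_disc {f : ℤ → ℝ × ℝ → ℝ} {F : ℝ × ℝ → ℝ} (hf : ∀ m, Continuous (f m))
    (h0 : ∀ m p, 0 ≤ f m p) (hF : Continuous F)
    (hs : ∀ p, HasSum (fun m => f m p)
      (1 / (2 * Real.pi) * ∫ t in (0 : ℝ)..2 * Real.pi, F (rot t p))) (R : ℝ) :
    HasSum (fun m => ∫ p in disc R, f m p) (∫ p in disc R, F p) := by
  have hg : Continuous fun p : ℝ × ℝ =>
      1 / (2 * Real.pi) * ∫ t in (0 : ℝ)..2 * Real.pi, F (rot t p) := by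
    refine continuous_const.mul ?_
    refine intervalIntegral.continuous_parametric_intervalIntegral_of_continuous' ?_ _ _
    exact hF.comp (continuous_rot.comp continuous_swap)
  have hi : ∀ m, IntegrableOn (f m) (disc R) := fun m =>
    integrableOn_of_continuous (isBounded_disc' R) (hf m)
  have hsum : Summable fun m => ∫ p in disc R, ‖f m p‖ := by
    have e : (fun m => ∫ p in disc R, ‖f m p‖) = fun m => ∫ p in disc R, f m p := by
      funext m
      simp only [Real.norm_of_nonneg (h0 m _)]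
    rw [e]
    refine summable_of_sum_le (c := ∫ p in disc R,
      1 / (2 * Real.pi) * ∫ t in (0 : ℝ)..2 * Real.pi, F (rot t p))
      (fun m => integral_nonneg (h0 m)) fun u => ?_
    rw [← integral_finset_sum u fun m _ => hi m]
    refine integral_mono (integrable_finset_sum u fun m _ => hi m)
      (integrableOn_of_continuous (isBounded_disc' R) hg) fun p => ?_
    exact sum_le_hasSum u (fun m _ => h0 m p) (hs p)
  have h := hasSum_integral_of_summable_integral_norm hi hsum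
  simp only [(hs _).tsum_eq] at h
  rwa [integral_rot_avg hF R] at h

/-- One angular mode has a Rayleigh quotient below `μ`. -/
theorem exists_mode {Φ R₀ R μ : ℝ} (hR₀ : 0 < R₀) {v : ℝ × ℝ → ℂ} (hv : ContDiff ℝ 1 v)
    (h : ∫ p in disc R, en Φ R₀ v p < μ * ∫ p in disc R, ‖v p‖ ^ 2) :
    ∃ (m : ℤ) (w : ℝ × ℝ → ℂ), ContDiff ℝ 1 w ∧ Equi m w ∧
      ∫ p in disc R, en Φ R₀ w p < μ * ∫ p in disc R, ‖w p‖ ^ 2 := by
  by_contra hn
  have hle : ∀ m : ℤ, μ * ∫ p in disc R, ‖mode m v p‖ ^ 2 ≤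
      ∫ p in disc R, en Φ R₀ (mode m v) p := fun m =>
    not_lt.1 fun hlt => hn ⟨m, mode m v, contDiff_mode m hv, equi_mode m hv.continuous, hlt⟩
  have h1 := hasSum_disc (f := fun m p => en Φ R₀ (mode m v) p) (F := en Φ R₀ v)
    (fun m => continuous_en Φ hR₀ (contDiff_mode m hv)) (fun m p => en_nonneg Φ R₀ _ p)
    (continuous_en Φ hR₀ hv) (hasSum_en_mode Φ R₀ hv) R
  have h2 := hasSum_disc (f := fun m p => ‖mode m v p‖ ^ 2) (F := fun p => ‖v p‖ ^ 2)
    (fun m => (contDiff_mode m hv).continuous.norm.pow 2) (fun m p => by positivity)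
    (hv.continuous.norm.pow 2) (hasSum_norm_mode hv.continuous) R
  exact absurd h (not_lt.2 (hasSum_le hle (h2.mul_left μ) h1))

end Pool.Agent.Lib.MP_d36e13_an.DC
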