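import Pool.Agent.Lib.MP_d36e13_an.DC.LocPrim
import Pool.Agent.Lib.MP_d36e13_an.DC.Const
import Pool.Agent.Lib.MP_d36e13_an.DC.Glue

open MeasureTheory Set Filter Topology Metric
open scoped ENNReal ContDiff

namespace Pool.Agent.Lib.MP_d36e13_an.DC

/-- A bounded weakly curl-free field on a simply connected open set is a gradient. -/
theorem exists_global_primitive {Ω : Set (ℝ × ℝ)} (hΩ : IsOpen Ω) (hb : Bornology.IsBounded Ω)
    (hs : IsSimplyConnected Ω) {C₁ C₂ : ℝ × ℝ → ℝ} (h₁ : MemLp C₁ ⊤ (volume.restrict Ω))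
    (h₂ : MemLp C₂ ⊤ (volume.restrict Ω))
    (hc : ∀ φ, IsTest Ω φ → ∫ p in Ω, (C₁ p * dd (0, 1) φ p - C₂ p * dd (1, 0) φ p) = 0) :
    ∃ χ : ℝ × ℝ → ℝ, LocallyLipschitzOn Ω χ ∧
      ∀ᵐ p ∂(volume.restrict Ω), dd (1, 0) χ p = C₁ p ∧ dd (0, 1) χ p = C₂ p := by
  have hr : ∀ z, ∃ r : ℝ, z ∈ Ω → 0 < r ∧ closedBall z (2 * r) ⊆ Ω := by
    intro z
    by_cases hz : z ∈ Ω
    · obtain ⟨e, he, hsub⟩ := Metric.isOpen_iff.1 hΩ z hz
      exact ⟨e / 4, fun _ => ⟨by positivity,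
        (closedBall_subset_ball (by linarith)).trans hsub⟩⟩
    · exact ⟨0, fun h => absurd h hz⟩
  choose r hr using hr
  have hχ : ∀ z, ∃ (χ : ℝ × ℝ → ℝ) (K : NNReal), z ∈ Ω → LipschitzWith K χ ∧
      ∀ᵐ p ∂(volume.restrict (ball z (r z))), dd (1, 0) χ p = C₁ p ∧ dd (0, 1) χ p = C₂ p := by
    intro z
    by_cases hz : z ∈ Ω
    · obtain ⟨χ, K, h⟩ := exists_local_primitive hΩ hb h₁ h₂ hc (hr z hz).1 (hr z hz).2
      exact ⟨χ, K, fun _ => h⟩
    · exact ⟨0, 0, fun h => absurd h hz⟩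
  choose χ K hχ using hχ
  have hU : ∀ z ∈ Ω, IsOpen (ball z (r z)) ∧ z ∈ ball z (r z) ∧ ball z (r z) ⊆ Ω := fun z hz =>
    ⟨isOpen_ball, mem_ball_self (hr z hz).1, (ball_subset_closedBall.trans
      (closedBall_subset_closedBall (by linarith [(hr z hz).1]))).trans (hr z hz).2⟩
  obtain ⟨g, hg⟩ := exists_glue hΩ hs (fun z => ball z (r z)) hU χ (by
    intro z hz z' hz' x hx
    have a1 := ae_restrict_of_ae_restrict_of_subset
      (inter_subset_left : ball z (r z) ∩ ball z' (r z') ⊆ _) (hχ z hz).2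
    have a2 := ae_restrict_of_ae_restrict_of_subset
      (inter_subset_right : ball z (r z) ∩ ball z' (r z') ⊆ _) (hχ z' hz').2
    have d1 := ae_restrict_of_ae (s := ball z (r z) ∩ ball z' (r z'))
      ((hχ z hz).1.ae_differentiableAt (μ := volume))
    have d2 := ae_restrict_of_ae (s := ball z (r z) ∩ ball z' (r z'))
      ((hχ z' hz').1.ae_differentiableAt (μ := volume))
    refine eventually_const (f := fun y => χ z y - χ z' y) (isOpen_ball.inter isOpen_ball)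
      ((hχ z hz).1.sub (hχ z' hz').1) ?_ hx
    filter_upwards [a1, a2, d1, d2] with p b1 b2 e1 e2
    rw [dd_sub e1 e2, dd_sub e1 e2, b1.1, b1.2, b2.1, b2.2]
    exact ⟨sub_self _, sub_self _⟩)
  have heq : ∀ z ∈ Ω, ∀ x ∈ ball z (r z), g =ᶠ[𝓝 x] fun y => χ z y + (g x - χ z x) := by
    intro z hz x hx
    filter_upwards [hg z hz x hx] with y hy
    linarith
  refine ⟨g, fun z hz => ?_, ?_⟩
  · obtain ⟨t, ht, hgt⟩ := (heq z hz z (hU z hz).2.1).exists_mem
    refine ⟨K z, t, mem_nhdsWithin_of_mem_nhds ht, fun a ha b hb' => ?_⟩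
    rw [hgt ha, hgt hb', edist_add_right]
    exact (hχ z hz).1 a b
  · rw [ae_restrict_iff' hΩ.measurableSet, ae_iff]
    refine measure_null_of_locally_null _ fun z hz => ?_
    have hzΩ : z ∈ Ω := by
      by_contra h
      exact hz fun h' => absurd h' h
    refine ⟨_, inter_mem_nhdsWithin _ (isOpen_ball.mem_nhds (hU z hzΩ).2.1), ?_⟩
    have a1 := (hχ z hzΩ).2
    rw [ae_restrict_iff' isOpen_ball.measurableSet, ae_iff] at a1
    refine measure_mono_null ?_ a1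
    intro p hp hp'
    refine hp.1 fun _ => ?_
    have e : fderiv ℝ g p = fderiv ℝ (χ z) p := by
      rw [(heq z hzΩ p hp.2).fderiv_eq, fderiv_add_const]
    have := hp' hp.2
    unfold dd at this ⊢
    rwa [e]

end Pool.Agent.Lib.MP_d36e13_an.DC
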