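import Pool.Agent.Lib.MP_d36e13_an.DC.LipH1

open MeasureTheory Set Filter Topology Metric
open scoped ENNReal ContDiff

namespace Pool.Agent.Lib.MP_d36e13_an.DC

theorem sm_pt (a b : ℝ) {t : ℝ} (ht : 0 < t) :
    (a + b) ^ 2 ≤ (1 + t) * a ^ 2 + (1 + 1 / t) * b ^ 2 := by
  have h : (1 + t) * a ^ 2 + (1 + 1 / t) * b ^ 2 - (a + b) ^ 2 = (t * a - b) ^ 2 / t := by
    field_simp
    ring
  have h2 : 0 ≤ (t * a - b) ^ 2 / t := by positivity
  linarith

theorem sm_Qt {S : Set (ℝ × ℝ)} {f g : ℝ × ℝ → ℝ} (hf : MemLp f 2 (volume.restrict S))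
    (hg : MemLp g 2 (volume.restrict S)) {t : ℝ} (ht : 0 < t) :
    Q S f ≤ (1 + t) * Q S g + (1 + 1 / t) * Q S (fun x => f x - g x) := by
  refine Q_le hf hg (hf.sub hg) (Eventually.of_forall fun x => ?_)
  have := sm_pt (g x) (f x - g x) ht
  simpa using this

theorem sm_comb {S : Set (ℝ × ℝ)} {A u v g h : ℝ × ℝ → ℝ} {B ε s t : ℝ} (hs : s ^ 2 = 1)
    (hB0 : 0 ≤ B) (ht : 0 < t)
    (hA : MemLp A ⊤ (volume.restrict S)) (hB : ∀ᵐ x ∂(volume.restrict S), A x ^ 2 ≤ B)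
    (mu : MemLp u 2 (volume.restrict S)) (mv : MemLp v 2 (volume.restrict S))
    (mg : MemLp g 2 (volume.restrict S)) (mh : MemLp h 2 (volume.restrict S))
    (e1 : Q S (fun x => v x - u x) ≤ ε) (e2 : Q S (fun x => h x - g x) ≤ ε) :
    Q S (fun x => h x + s * (A x * v x)) ≤ (1 + t) * Q S (fun x => g x + s * (A x * u x)) +
      (1 + 1 / t) * ((2 + 2 * B) * ε) := by
  have m1 : MemLp (fun x => h x + s * (A x * v x)) 2 (volume.restrict S) :=
    mh.add ((memLp_mul_top hA mv).const_mul s)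
  have m2 : MemLp (fun x => g x + s * (A x * u x)) 2 (volume.restrict S) :=
    mg.add ((memLp_mul_top hA mu).const_mul s)
  have m3 : MemLp (fun x => v x - u x) 2 (volume.restrict S) := mv.sub mu
  have m4 : MemLp (fun x => h x - g x) 2 (volume.restrict S) := mh.sub mg
  have h1 := sm_Qt m1 m2 ht
  have h2 := Q_le (m1.sub m2) m4 m3 (a := 2) (c := 2 * B) (by
    filter_upwards [hB] with x hx
    have : (s * (A x * (v x - u x))) ^ 2 ≤ B * (v x - u x) ^ 2 := by
      rw [mul_pow, hs, one_mul, mul_pow]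
      exact mul_le_mul_of_nonneg_right hx (sq_nonneg _)
    simp only [Pi.sub_apply]
    nlinarith [sq_nonneg ((h x - g x) - s * (A x * (v x - u x)))])
  have h3 : Q S (fun x => (h x + s * (A x * v x)) - (g x + s * (A x * u x))) ≤ (2 + 2 * B) * ε := by
    refine le_trans h2 ?_
    nlinarith [mul_le_mul_of_nonneg_left e1 hB0]
  have h4 : 0 ≤ 1 + 1 / t := by positivity
  nlinarith [mul_le_mul_of_nonneg_left h3 h4]

theorem sm_nrm (g w : ℂ) (a : ℝ) : ‖-Complex.I * g - (a : ℂ) * w‖ ^ 2 =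
    (g.im + (-1) * (a * w.re)) ^ 2 + (g.re + 1 * (a * w.im)) ^ 2 := by
  rw [Complex.sq_norm, Complex.normSq_apply]
  simp
  ring

theorem sm_energy {S : Set (ℝ × ℝ)} {A₁ A₂ : ℝ × ℝ → ℝ} {u g₁ g₂ : ℝ × ℝ → ℂ}
    (hA₁ : MemLp A₁ ⊤ (volume.restrict S)) (hA₂ : MemLp A₂ ⊤ (volume.restrict S))
    (a1 : MemLp (fun x => (u x).re) 2 (volume.restrict S))
    (a2 : MemLp (fun x => (u x).im) 2 (volume.restrict S))
    (b1 : MemLp (fun x => (g₁ x).re) 2 (volume.restrict S))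
    (b2 : MemLp (fun x => (g₁ x).im) 2 (volume.restrict S))
    (c1 : MemLp (fun x => (g₂ x).re) 2 (volume.restrict S))
    (c2 : MemLp (fun x => (g₂ x).im) 2 (volume.restrict S)) :
    ∫ p in S, (‖-Complex.I * g₁ p - (A₁ p : ℂ) * u p‖ ^ 2 +
      ‖-Complex.I * g₂ p - (A₂ p : ℂ) * u p‖ ^ 2) =
      Q S (fun x => (g₁ x).im + (-1) * (A₁ x * (u x).re)) +
      Q S (fun x => (g₁ x).re + 1 * (A₁ x * (u x).im)) +
      (Q S (fun x => (g₂ x).im + (-1) * (A₂ x * (u x).re)) +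
      Q S (fun x => (g₂ x).re + 1 * (A₂ x * (u x).im))) := by
  have m1 : MemLp (fun x => (g₁ x).im + (-1) * (A₁ x * (u x).re)) 2 (volume.restrict S) :=
    b2.add ((memLp_mul_top hA₁ a1).const_mul _)
  have m2 : MemLp (fun x => (g₁ x).re + 1 * (A₁ x * (u x).im)) 2 (volume.restrict S) :=
    b1.add ((memLp_mul_top hA₁ a2).const_mul _)
  have m3 : MemLp (fun x => (g₂ x).im + (-1) * (A₂ x * (u x).re)) 2 (volume.restrict S) :=
    c2.add ((memLp_mul_top hA₂ a1).const_mul _)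
  have m4 : MemLp (fun x => (g₂ x).re + 1 * (A₂ x * (u x).im)) 2 (volume.restrict S) :=
    c1.add ((memLp_mul_top hA₂ a2).const_mul _)
  unfold Q
  rw [← integral_add m1.integrable_sq m2.integrable_sq,
    ← integral_add m3.integrable_sq m4.integrable_sq]
  refine Eq.trans ?_
    (integral_add (m1.integrable_sq.add m2.integrable_sq) (m3.integrable_sq.add m4.integrable_sq))
  refine integral_congr_ae (Eventually.of_forall fun x => ?_)
  simp only [sm_nrm]

theorem sm_mass {S : Set (ℝ × ℝ)} {u : ℝ × ℝ → ℂ}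
    (a1 : MemLp (fun x => (u x).re) 2 (volume.restrict S))
    (a2 : MemLp (fun x => (u x).im) 2 (volume.restrict S)) :
    ∫ p in S, ‖u p‖ ^ 2 = Q S (fun x => (u x).re) + Q S (fun x => (u x).im) := by
  unfold Q
  rw [← integral_add a1.integrable_sq a2.integrable_sq]
  refine integral_congr_ae (Eventually.of_forall fun x => ?_)
  simp only
  rw [Complex.sq_norm, Complex.normSq_apply]
  ring

theorem sm_disc_mono {a b : ℝ} (ha : 0 ≤ a) (hab : a ≤ b) : disc a ⊆ disc b := fun _ hp =>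
  mem_disc.2 (lt_of_lt_of_le (mem_disc.1 hp) (pow_le_pow_left₀ ha hab 2))

theorem sm_radius {R₁ δ E μ : ℝ} (hR₁ : 0 < R₁) (hδ : 0 < δ) {a b : ℝ × ℝ → ℝ}
    (ha : MemLp a 2 (volume.restrict (disc R₁))) (hb : MemLp b 2 (volume.restrict (disc R₁)))
    (h : E < μ * (Q (disc R₁) a + Q (disc R₁) b)) :
    ∃ R' : ℝ, 0 < R' ∧ R₁ - δ < R' ∧ R' < R₁ ∧ E < μ * (Q (disc R') a + Q (disc R') b) := by
  set c := min δ R₁ / 2 with hc
  have hc0 : 0 < c := by positivity
  have hc1 : c < δ := by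
    have := min_le_left δ R₁
    have h2 : 0 < min δ R₁ := by positivity
    linarith
  have hc2 : c < R₁ := by
    have := min_le_right δ R₁
    have h2 : 0 < min δ R₁ := by positivity
    linarith
  have hle : ∀ n : ℕ, c * (1 / ((n : ℝ) + 1)) ≤ c := fun n => by
    have : 1 / ((n : ℝ) + 1) ≤ 1 := by
      rw [div_le_one (by positivity)]
      linarith [(Nat.cast_nonneg n : (0 : ℝ) ≤ n)]
    nlinarith
  have hpos : ∀ n : ℕ, 0 < c * (1 / ((n : ℝ) + 1)) := fun n => by positivity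
  have hmono : Monotone fun n : ℕ => disc (R₁ - c * (1 / ((n : ℝ) + 1))) := by
    intro m n hmn
    refine sm_disc_mono (by linarith [hle m]) ?_
    have : 1 / ((n : ℝ) + 1) ≤ 1 / ((m : ℝ) + 1) := Nat.one_div_le_one_div hmn
    nlinarith
  have hlim : Tendsto (fun n : ℕ => (R₁ - c * (1 / ((n : ℝ) + 1))) ^ 2) atTop (𝓝 (R₁ ^ 2)) := by
    have := ((tendsto_one_div_add_atTop_nhds_zero_nat (𝕜 := ℝ)).const_mul c).const_sub R₁
    simpa using this.pow 2
  have hU : ⋃ n : ℕ, disc (R₁ - c * (1 / ((n : ℝ) + 1))) = disc R₁ := by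
    refine Subset.antisymm (iUnion_subset fun n => ?_) fun p hp => ?_
    · exact sm_disc_mono (by linarith [hle n]) (by linarith [hpos n])
    · obtain ⟨n, hn⟩ := (hlim.eventually (lt_mem_nhds (mem_disc.1 hp))).exists
      exact mem_iUnion.2 ⟨n, mem_disc.2 hn⟩
  have lim : ∀ {f : ℝ × ℝ → ℝ}, MemLp f 2 (volume.restrict (disc R₁)) →
      Tendsto (fun n : ℕ => Q (disc (R₁ - c * (1 / ((n : ℝ) + 1)))) f) atTop (𝓝 (Q (disc R₁) f)) := by
    intro f hf
    have := tendsto_setIntegral_of_monotone (μ := volume) (f := fun x => f x ^ 2)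
      (fun n : ℕ => (isOpen_disc (R₁ - c * (1 / ((n : ℝ) + 1)))).measurableSet) hmono
      (by rw [hU]; exact hf.integrable_sq)
    rw [hU] at this
    exact this
  obtain ⟨n, hn⟩ := ((((lim ha).add (lim hb)).const_mul μ).eventually (lt_mem_nhds h)).exists
  exact ⟨_, by linarith [hle n], by linarith [hle n], by linarith [hpos n], hn⟩

theorem sm_fderiv {a b : ℝ × ℝ → ℝ} (ha : ContDiff ℝ 1 a) (hb : ContDiff ℝ 1 b) (x w : ℝ × ℝ) :
    fderiv ℝ (fun y => (a y : ℂ) + (b y : ℂ) * Complex.I) x w =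
      (dd w a x : ℂ) + (dd w b x : ℂ) * Complex.I := by
  have h1 := (Complex.ofRealCLM.hasFDerivAt (x := a x)).comp x
    (ha.differentiable (by simp) x).hasFDerivAt
  have h2 := (Complex.ofRealCLM.hasFDerivAt (x := b x)).comp x
    (hb.differentiable (by simp) x).hasFDerivAt
  have h3 : HasFDerivAt (fun y => (a y : ℂ) + (b y : ℂ) * Complex.I) _ x :=
    h1.add (h2.mul_const Complex.I)
  rw [h3.fderiv]
  simp [dd, mul_comm]

/-- A smooth near-minimiser on a slightly smaller disc. -/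
theorem exists_smooth {Φ R₀ R₁ μ δ : ℝ} (hR₀ : 0 < R₀) (hR₁ : 0 < R₁) (hδ : 0 < δ)
    (h : lam (disc R₁) (P1 Φ R₀) (P2 Φ R₀) < ENNReal.ofReal μ) :
    ∃ R' : ℝ, R₁ - δ < R' ∧ R' < R₁ ∧ ∃ v : ℝ × ℝ → ℂ, ContDiff ℝ 1 v ∧
      ∫ p in disc R', en Φ R₀ v p < μ * ∫ p in disc R', ‖v p‖ ^ 2 := by
  have hA₁ := memLp_top_of_continuous (isBounded_disc R₁) (continuous_P1 Φ hR₀)
  have hA₂ := memLp_top_of_continuous (isBounded_disc R₁) (continuous_P2 Φ hR₀)
  obtain ⟨u, g₁, g₂, hu, hlt⟩ := exists_of_lam_lt hA₁ hA₂ h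
  have hp := hu.weakGrad Complex.reCLM
  have hq := hu.weakGrad Complex.imCLM
  simp only [Complex.reCLM_apply, Complex.imCLM_apply] at hp hq
  rw [sm_energy hA₁ hA₂ hp.mu hq.mu hp.m₁ hq.m₁ hp.m₂ hq.m₂, sm_mass hp.mu hq.mu] at hlt
  obtain ⟨R', hR0, hR1, hR2, hlt'⟩ := sm_radius hR₁ hδ hp.mu hq.mu hlt
  refine ⟨R', hR1, hR2, ?_⟩
  have hsub : disc R' ⊆ disc R₁ := sm_disc_mono hR0.le hR2.le
  have hKc : IsCompact (closure (disc R')) := (isBounded_disc R').isCompact_closure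
  have hKΩ : closure (disc R') ⊆ disc R₁ := by
    have h1 : closure (disc R') ⊆ {p | sq2 p ≤ R' ^ 2} :=
      closure_minimal (fun p hp => (mem_disc.1 hp).le) (isClosed_le continuous_sq2 continuous_const)
    exact fun p hp => mem_disc.2 (lt_of_le_of_lt (h1 hp) (by nlinarith))
  have e1 := Q_mono hsub (hq.m₁.add ((memLp_mul_top hA₁ hp.mu).const_mul (-1)))
  have e2 := Q_mono hsub (hp.m₁.add ((memLp_mul_top hA₁ hq.mu).const_mul 1))
  have e3 := Q_mono hsub (hq.m₂.add ((memLp_mul_top hA₂ hp.mu).const_mul (-1)))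
  have e4 := Q_mono hsub (hp.m₂.add ((memLp_mul_top hA₂ hq.mu).const_mul 1))
  set E := Q (disc R') (fun x => (g₁ x).im + (-1) * (P1 Φ R₀ x * (u x).re)) +
      Q (disc R') (fun x => (g₁ x).re + 1 * (P1 Φ R₀ x * (u x).im)) +
      (Q (disc R') (fun x => (g₂ x).im + (-1) * (P2 Φ R₀ x * (u x).re)) +
      Q (disc R') (fun x => (g₂ x).re + 1 * (P2 Φ R₀ x * (u x).im))) with hE
  set N := Q (disc R') (fun x => (u x).re) + Q (disc R') (fun x => (u x).im) with hN
  have hEN : E < μ * N := lt_of_le_of_lt (add_le_add (add_le_add e1 e2) (add_le_add e3 e4)) hlt'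
  have hE0 : 0 ≤ E := add_nonneg (add_nonneg (Q_nonneg _ _) (Q_nonneg _ _))
    (add_nonneg (Q_nonneg _ _) (Q_nonneg _ _))
  have hN0 : 0 ≤ N := add_nonneg (Q_nonneg _ _) (Q_nonneg _ _)
  have hμ : 0 < μ := by
    by_contra hc
    have := mul_nonpos_of_nonpos_of_nonneg (not_lt.1 hc) hN0
    linarith
  have hA₁' := memLp_sub hsub hA₁
  have hA₂' := memLp_sub hsub hA₂
  obtain ⟨B₁, hB₁⟩ := exists_ae_bound hA₁'
  obtain ⟨B₂, hB₂⟩ := exists_ae_bound hA₂'
  set B := max 0 (max B₁ B₂) with hB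
  have hB0 : 0 ≤ B := le_max_left _ _
  have hB₁' : ∀ᵐ x ∂(volume.restrict (disc R')), P1 Φ R₀ x ^ 2 ≤ B :=
    hB₁.mono fun x hx => hx.trans ((le_max_left _ _).trans (le_max_right _ _))
  have hB₂' : ∀ᵐ x ∂(volume.restrict (disc R')), P2 Φ R₀ x ^ 2 ≤ B :=
    hB₂.mono fun x hx => hx.trans ((le_max_right _ _).trans (le_max_right _ _))
  obtain ⟨t, ht, ht2⟩ : ∃ t : ℝ, 0 < t ∧ (1 + t) ^ 2 * E < μ * N := by
    have hc : Continuous fun t : ℝ => (1 + t) ^ 2 * E := by fun_prop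
    have h1 : ∀ᶠ t in 𝓝 (0 : ℝ), (1 + t) ^ 2 * E < μ * N :=
      hc.continuousAt.eventually (gt_mem_nhds (by simpa using hEN))
    obtain ⟨t, h2, h3⟩ := ((h1.filter_mono nhdsWithin_le_nhds).and
      (self_mem_nhdsWithin (s := Ioi (0 : ℝ)))).exists
    exact ⟨t, h3, h2⟩
  set C := 2 * μ * (1 + 1 / t) + 4 * (1 + t) * (1 + 1 / t) * (2 + 2 * B) with hC
  have hC0 : 0 < C := by positivity
  set ε := (μ * N - (1 + t) ^ 2 * E) / (2 * C) with hε
  have hε0 : 0 < ε := div_pos (by linarith) (by positivity)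
  have hεC : C * ε < μ * N - (1 + t) ^ 2 * E := by
    have : C * ε = (μ * N - (1 + t) ^ 2 * E) / 2 := by rw [hε]; field_simp
    linarith
  obtain ⟨a, ca, a0, a1, a2⟩ := hp.approx (isOpen_disc R₁) hKc hKΩ hε0
  obtain ⟨b, cb, b0, b1, b2⟩ := hq.approx (isOpen_disc R₁) hKc hKΩ hε0
  have ca1 : ContDiff ℝ 1 a := ca.of_le top_one
  have cb1 : ContDiff ℝ 1 b := cb.of_le top_one
  have mK : ∀ {f : ℝ × ℝ → ℝ}, Continuous f → MemLp f 2 (volume.restrict (closure (disc R'))) :=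
    fun hf => memLp_on_compact hKc hf 2
  have mS : ∀ {f : ℝ × ℝ → ℝ}, Continuous f → MemLp f 2 (volume.restrict (disc R')) :=
    fun hf => memLp_sub subset_closure (mK hf)
  have red : ∀ {f g : ℝ × ℝ → ℝ}, Continuous f → MemLp g 2 (volume.restrict (disc R₁)) →
      ∫ x in closure (disc R'), (f x - g x) ^ 2 ≤ ε → Q (disc R') (fun x => f x - g x) ≤ ε :=
    fun hf hg hh => (Q_mono subset_closure ((mK hf).sub (memLp_sub hKΩ hg))).trans hh
  have a0' := red ca1.continuous hp.mu a0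
  have a1' := red (continuous_dd ca1) hp.m₁ a1
  have a2' := red (continuous_dd ca1) hp.m₂ a2
  have b0' := red cb1.continuous hq.mu b0
  have b1' := red (continuous_dd cb1) hq.m₁ b1
  have b2' := red (continuous_dd cb1) hq.m₂ b2
  have pu := memLp_sub hsub hp.mu
  have qu := memLp_sub hsub hq.mu
  have ma := mS ca1.continuous
  have mb := mS cb1.continuous
  have k1 := sm_comb (s := -1) (by norm_num) hB0 ht hA₁' hB₁' pu ma (memLp_sub hsub hq.m₁)
    (mS (continuous_dd cb1)) a0' b1'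
  have k2 := sm_comb (s := 1) (by norm_num) hB0 ht hA₁' hB₁' qu mb (memLp_sub hsub hp.m₁)
    (mS (continuous_dd ca1)) b0' a1'
  have k3 := sm_comb (s := -1) (by norm_num) hB0 ht hA₂' hB₂' pu ma (memLp_sub hsub hq.m₂)
    (mS (continuous_dd cb1)) a0' b2'
  have k4 := sm_comb (s := 1) (by norm_num) hB0 ht hA₂' hB₂' qu mb (memLp_sub hsub hp.m₂)
    (mS (continuous_dd ca1)) b0' a2'
  have flip : ∀ f g : ℝ × ℝ → ℝ,
      Q (disc R') (fun x => f x - g x) = Q (disc R') (fun x => g x - f x) := fun f g => by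
    unfold Q
    refine integral_congr_ae (Eventually.of_forall fun x => ?_)
    simp only
    ring
  have l1 := sm_Qt pu ma ht
  have l2 := sm_Qt qu mb ht
  rw [flip] at l1 l2
  have h4 : 0 ≤ 1 + 1 / t := by positivity
  have l1' := mul_le_mul_of_nonneg_left a0' h4
  have l2' := mul_le_mul_of_nonneg_left b0' h4
  refine ⟨fun y => (a y : ℂ) + (b y : ℂ) * Complex.I,
    (Complex.ofRealCLM.contDiff.comp ca1).add
      ((Complex.ofRealCLM.contDiff.comp cb1).mul contDiff_const), ?_⟩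
  have re1 : ∀ x y : ℝ, ((x : ℂ) + (y : ℂ) * Complex.I).re = x := fun x y => by simp
  have im1 : ∀ x y : ℝ, ((x : ℂ) + (y : ℂ) * Complex.I).im = y := fun x y => by simp
  have en1 := sm_energy (S := disc R') (u := fun y => (a y : ℂ) + (b y : ℂ) * Complex.I)
    (g₁ := fun y => (dd (1, 0) a y : ℂ) + (dd (1, 0) b y : ℂ) * Complex.I)
    (g₂ := fun y => (dd (0, 1) a y : ℂ) + (dd (0, 1) b y : ℂ) * Complex.I) hA₁' hA₂'
    (by simpa only [re1] using ma) (by simpa only [im1] using mb)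
    (by simpa only [re1] using mS (continuous_dd ca1))
    (by simpa only [im1] using mS (continuous_dd cb1))
    (by simpa only [re1] using mS (continuous_dd ca1))
    (by simpa only [im1] using mS (continuous_dd cb1))
  have ms1 := sm_mass (S := disc R') (u := fun y => (a y : ℂ) + (b y : ℂ) * Complex.I)
    (by simpa only [re1] using ma) (by simpa only [im1] using mb)
  simp only [re1, im1] at en1 ms1
  simp only [en, sm_fderiv ca1 cb1]
  rw [en1, ms1]
  set Ev := Q (disc R') (fun x => dd (1, 0) b x + (-1) * (P1 Φ R₀ x * a x)) +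
      Q (disc R') (fun x => dd (1, 0) a x + 1 * (P1 Φ R₀ x * b x)) +
      (Q (disc R') (fun x => dd (0, 1) b x + (-1) * (P2 Φ R₀ x * a x)) +
      Q (disc R') (fun x => dd (0, 1) a x + 1 * (P2 Φ R₀ x * b x))) with hEv
  have f1 : Ev ≤ (1 + t) * E + 4 * ((1 + 1 / t) * ((2 + 2 * B) * ε)) := by
    rw [hEv, hE]; linarith
  have f2 : N ≤ (1 + t) * (Q (disc R') a + Q (disc R') b) + 2 * ((1 + 1 / t) * ε) := by
    rw [hN]; linarith
  have h5 : 0 < 1 + t := by linarith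
  refine lt_of_mul_lt_mul_left ?_ h5.le
  have f3 := mul_le_mul_of_nonneg_left f1 h5.le
  have f4 := mul_le_mul_of_nonneg_left f2 hμ.le
  rw [hC] at hεC
  show (1 + t) * Ev < (1 + t) * (μ * (Q (disc R') a + Q (disc R') b))
  nlinarith

end Pool.Agent.Lib.MP_d36e13_an.DC
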