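import Pool.Agent.Lib.MP_d36e13_an.DC.Polar
import Pool.Agent.Lib.MP_d36e13_an.DC.Freeze

open MeasureTheory Set Filter Topology Metric
open scoped ENNReal ContDiff

namespace Pool.Agent.Lib.MP_d36e13_an.DC

/-- The choice of the freezing radius. -/
theorem exists_cut {q h : ℝ → ℝ} {a b : ℝ} (hab : a ≤ b) (hq : AntitoneOn q (Icc a b))
    (cq : ContinuousOn q (Icc a b)) (ch : Continuous h) (h0 : ∀ s, 0 ≤ h s) :
    ∃ c ∈ Icc a b, (∀ s ∈ Icc c b, q s * h c ≤ q s * h s) ∧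
      (∀ s ∈ Icc a c, q b * h c ≤ q s * h s) ∧ (0 < q b → ∀ s ∈ Icc a b, h c ≤ h s) := by
  have hb : b ∈ Icc a b := ⟨hab, le_rfl⟩
  rcases le_or_gt (q b) 0 with hqb | hqb
  · have hT : IsCompact (Icc a b ∩ q ⁻¹' Iic 0) :=
      isCompact_Icc.of_isClosed_subset
        (cq.preimage_isClosed_of_isClosed isClosed_Icc isClosed_Iic) inter_subset_left
    obtain ⟨c, hc, hmax⟩ := hT.exists_isMaxOn ⟨b, hb, hqb⟩ ch.continuousOn
    refine ⟨c, hc.1, fun s hs => ?_, fun s hs => ?_, fun h' => absurd hqb (not_le.2 h')⟩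
    · have hs' : s ∈ Icc a b := ⟨hc.1.1.trans hs.1, hs.2⟩
      have h1 : q s ≤ 0 := (hq hc.1 hs' hs.1).trans hc.2
      exact mul_le_mul_of_nonpos_left (hmax ⟨hs', h1⟩) h1
    · have hs' : s ∈ Icc a b := ⟨hs.1, hs.2.trans hc.1.2⟩
      rcases le_total (q s) 0 with h1 | h1
      · exact (mul_le_mul_of_nonneg_right (hq hs' hb hs'.2) (h0 c)).trans
          (mul_le_mul_of_nonpos_left (hmax ⟨hs', h1⟩) h1)
      · exact (mul_nonpos_of_nonpos_of_nonneg hqb (h0 c)).trans (mul_nonneg h1 (h0 s))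
  · obtain ⟨c, hc, hmin⟩ := isCompact_Icc.exists_isMinOn ⟨b, hb⟩ ch.continuousOn
    refine ⟨c, hc, fun s hs => ?_, fun s hs => ?_, fun _ s hs => hmin hs⟩
    · have hs' : s ∈ Icc a b := ⟨hc.1.trans hs.1, hs.2⟩
      exact mul_le_mul_of_nonneg_left (hmin hs') (hqb.le.trans (hq hs' hb hs'.2))
    · have hs' : s ∈ Icc a b := ⟨hs.1, hs.2.trans hc.2⟩
      exact (mul_le_mul_of_nonneg_right (hq hs' hb hs'.2) (h0 c)).trans
        (mul_le_mul_of_nonneg_left (hmin hs') (hqb.le.trans (hq hs' hb hs'.2)))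

theorem ca_mul_out {Φ R₀ : ℝ} (hR₀ : 0 < R₀) {p : ℝ × ℝ} (hp : R₀ ^ 2 ≤ sq2 p) :
    ca Φ R₀ p * sq2 p = Φ := by
  have : 0 < sq2 p := lt_of_lt_of_le (by positivity) hp
  unfold ca
  rw [max_eq_left hp]
  field_simp

theorem ca_mul_sq {Φ R₀ : ℝ} (hR₀ : 0 < R₀) (p : ℝ × ℝ) : (ca Φ R₀ p * sq2 p - Φ) ^ 2 ≤ Φ ^ 2 := by
  have h0 : 0 < max (sq2 p) (R₀ ^ 2) := lt_of_lt_of_le (by positivity) (le_max_right _ _)
  have h1 : 0 ≤ sq2 p / max (sq2 p) (R₀ ^ 2) := div_nonneg (sq2_nonneg p) h0.le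
  have h2 : sq2 p / max (sq2 p) (R₀ ^ 2) ≤ 1 := (div_le_one h0).2 (le_max_left _ _)
  have e : ca Φ R₀ p * sq2 p - Φ = Φ * (sq2 p / max (sq2 p) (R₀ ^ 2) - 1) := by
    unfold ca; ring
  rw [e, mul_pow]
  exact mul_le_of_le_one_right (sq_nonneg _) (by nlinarith)

/-- A mode with Rayleigh quotient below `μ` has bounded order. -/
theorem order_bound {Φ R₀ R μ : ℝ} (hR₀ : 0 < R₀) (hμ : 0 < μ) {m : ℤ} {w : ℝ × ℝ → ℂ}
    (hw : ContDiff ℝ 1 w) (hE : Equi m w)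
    (h : ∫ p in disc R, en Φ R₀ w p < μ * ∫ p in disc R, ‖w p‖ ^ 2) :
    ((m : ℝ) - Φ) ^ 2 ≤ 2 * μ * R ^ 2 + 2 * Φ ^ 2 := by
  by_contra hcon
  have hcon := not_le.1 hcon
  refine absurd h (not_lt.2 ?_)
  rw [← integral_const_mul]
  refine integral_mono_ae
    (integrableOn_of_continuous (isBounded_disc R)
      (continuous_const.mul (hw.continuous.norm.pow 2)))
    (integrableOn_of_continuous (isBounded_disc R) (continuous_en Φ hR₀ hw)) ?_
  rw [EventuallyLE, ae_restrict_iff' (isOpen_disc R).measurableSet]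
  filter_upwards [ae_sq2_ne 0] with p hp0 hp
  have hs : 0 < sq2 p := lt_of_le_of_ne (sq2_nonneg p) hp0.symm
  have hp : sq2 p < R ^ 2 := hp
  have e := en_polar Φ R₀ hE (hw.differentiable (by simp) p)
  have h1 := ca_mul_sq (Φ := Φ) hR₀ p
  have h2 : μ * sq2 p ≤ ((m : ℝ) - ca Φ R₀ p * sq2 p) ^ 2 := by
    have h3 : μ * sq2 p ≤ μ * R ^ 2 := mul_le_mul_of_nonneg_left hp.le hμ.le
    nlinarith [sq_nonneg (((m : ℝ) - ca Φ R₀ p * sq2 p) - (ca Φ R₀ p * sq2 p - Φ))]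
  refine le_of_mul_le_mul_left ?_ hs
  rw [e]
  have h4 := mul_le_mul_of_nonneg_right h2 (sq_nonneg ‖w p‖)
  nlinarith [sq_nonneg ‖fderiv ℝ w p p‖]

/-- Outside the field the energy density is at least the angular part. -/
theorem en_ge_out {Φ R₀ : ℝ} (hR₀ : 0 < R₀) {m : ℤ} {F : ℝ × ℝ → ℂ} (hF : Equi m F) {p : ℝ × ℝ}
    (hd : DifferentiableAt ℝ F p) (hp : R₀ ^ 2 ≤ sq2 p) :
    en Φ R₀ F p = ‖fderiv ℝ F p p‖ ^ 2 / sq2 p + ((m : ℝ) - Φ) ^ 2 / sq2 p * ‖F p‖ ^ 2 := by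
  have hs : 0 < sq2 p := lt_of_lt_of_le (by positivity) hp
  have e := en_polar Φ R₀ hF hd
  rw [ca_mul_out hR₀ hp] at e
  field_simp
  linarith

theorem sq2_smul (a : ℝ) (p : ℝ × ℝ) : sq2 (a • p) = a ^ 2 * sq2 p := by
  simp only [sq2, Prod.smul_fst, Prod.smul_snd, smul_eq_mul]; ring

/-- The transplantation step. -/
theorem weinberger {Φ R₀ R₁ μ μ' : ℝ} (hR₀ : 0 < R₀) (hR : R₀ < R₁) (hμ : 0 < μ) (hμ' : μ < μ') :
    ∃ δ > 0, ∀ R' : ℝ, R₁ - δ < R' → R' < R₁ → ∀ (m : ℤ) (w : ℝ × ℝ → ℂ), ContDiff ℝ 1 w →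
      Equi m w → ∫ p in disc R', en Φ R₀ w p < μ * ∫ p in disc R', ‖w p‖ ^ 2 →
      ∀ S : Set (ℝ × ℝ), MeasurableSet S → Bornology.IsBounded S → disc R₀ ⊆ S →
        volume S = volume (disc R₁) →
        ∃ (F : ℝ × ℝ → ℂ) (K : NNReal), LipschitzWith K F ∧
          ∫ p in S, en Φ R₀ F p < μ' * ∫ p in S, ‖F p‖ ^ 2 := by
  have hR₁ : 0 < R₁ := hR₀.trans hR
  set Q₀ : ℝ := (2 * μ * R₁ ^ 2 + 2 * Φ ^ 2) / R₀ ^ 2 with hQ₀
  have hQ : 0 < Q₀ := by positivity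
  have hRR : 0 < R₁ ^ 2 - R₀ ^ 2 := by nlinarith
  have hμμ : 0 < μ' - μ := sub_pos.2 hμ'
  refine ⟨min (R₁ - R₀) ((μ' - μ) * (R₁ ^ 2 - R₀ ^ 2) / (2 * R₁ * Q₀)),
    lt_min (sub_pos.2 hR) (by positivity), fun R' h1 h2 m w hw hE hlt S hS hSb hS₀ hvol => ?_⟩
  have hR' : R₀ < R' := by
    linarith [min_le_left (R₁ - R₀) ((μ' - μ) * (R₁ ^ 2 - R₀ ^ 2) / (2 * R₁ * Q₀))]
  have hR'0 : 0 < R' := hR₀.trans hR'
  have hsmall : Q₀ * (R₁ ^ 2 - R' ^ 2) ≤ (μ' - μ) * (R₁ ^ 2 - R₀ ^ 2) := by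
    have h3 : R₁ - R' ≤ (μ' - μ) * (R₁ ^ 2 - R₀ ^ 2) / (2 * R₁ * Q₀) := by
      linarith [min_le_right (R₁ - R₀) ((μ' - μ) * (R₁ ^ 2 - R₀ ^ 2) / (2 * R₁ * Q₀))]
    rw [le_div_iff₀ (by positivity)] at h3
    have h4 : R₁ ^ 2 - R' ^ 2 ≤ (R₁ - R') * (2 * R₁) := by nlinarith
    nlinarith [mul_le_mul_of_nonneg_left h4 hQ.le]
  set ν : ℝ := (m : ℝ) - Φ with hν
  let q : ℝ → ℝ := fun s => ν ^ 2 / s - μ
  let h : ℝ → ℝ := fun s => ‖w (Real.sqrt s, 0)‖ ^ 2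
  have hanti : ∀ s t : ℝ, 0 < s → s ≤ t → q t ≤ q s := fun s t hs hst =>
    sub_le_sub_right (div_le_div_of_nonneg_left (sq_nonneg _) hs hst) _
  have hab : R₀ ^ 2 ≤ R' ^ 2 := by nlinarith
  have h00 : 0 < R₀ ^ 2 := by positivity
  have cw := hw.continuous
  obtain ⟨c, hc, c1, c2, c3⟩ := exists_cut (q := q) (h := h) hab
    (fun s hs t _ hst => hanti s t (h00.trans_le hs.1) hst)
    ((continuousOn_const.div continuousOn_id fun s hs => (h00.trans_le hs.1).ne').sub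
      continuousOn_const) (by simp only [h]; fun_prop) (fun s => sq_nonneg _)
  have hc0 : 0 < c := h00.trans_le hc.1
  have hsq : Real.sqrt c ^ 2 = c := Real.sq_sqrt hc0.le
  obtain ⟨F, K, hF, hEF, hin, hout⟩ := exists_freeze hw hE (Real.sqrt_pos.2 hc0)
  rw [hsq] at hin hout
  have hwn : ∀ p, ‖w p‖ ^ 2 = h (sq2 p) := fun p => by rw [norm_radial hE p]
  have in1 : ∀ p, sq2 p < c → F p = w p ∧ en Φ R₀ F p = en Φ R₀ w p := fun p hp => by
    have e1 := (hin p hp).eq_of_nhds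
    have e2 : fderiv ℝ F p = fderiv ℝ w p := (hin p hp).fderiv_eq
    exact ⟨e1, by unfold en; rw [e1, e2]⟩
  have out1 : ∀ p, c < sq2 p → ‖F p‖ ^ 2 = h c ∧ en Φ R₀ F p = ν ^ 2 / sq2 p * h c := fun p hp => by
    obtain ⟨d, d0, e⟩ := hout p hp
    have hs : 0 < sq2 p := hc0.trans hp
    have e1 : ‖F p‖ ^ 2 = h c := by
      rw [e, hwn, sq2_smul, div_pow, hsq, Real.sq_sqrt hs.le, div_mul_cancel₀ _ hs.ne']
    refine ⟨e1, ?_⟩
    rw [en_ge_out hR₀ hEF d (hc.1.trans hp.le), d0, e1]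
    simp [hν]
  have wge : ∀ p, R₀ ^ 2 ≤ sq2 p → q (sq2 p) * h (sq2 p) ≤ en Φ R₀ w p - μ * ‖w p‖ ^ 2 :=
    fun p hp => by
      rw [en_ge_out hR₀ hE (hw.differentiable (by simp) p) hp, hwn]
      have : 0 ≤ ‖fderiv ℝ w p p‖ ^ 2 / sq2 p := div_nonneg (sq_nonneg _) (sq2_nonneg p)
      simp only [q]
      linarith
  have cN : Continuous fun p => ‖F p‖ ^ 2 := hF.continuous.norm.pow 2
  have iE : ∀ T : Set (ℝ × ℝ), Bornology.IsBounded T → IntegrableOn (en Φ R₀ F) T := by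
    intro T hT
    have hm : MeasurableSet {p : ℝ × ℝ | sq2 p < c} :=
      (isOpen_lt continuous_sq2 continuous_const).measurableSet
    have c2' : Continuous fun p : ℝ × ℝ => ν ^ 2 / max (sq2 p) c * h c :=
      (continuous_const.div (continuous_sq2.max continuous_const)
        fun p => (lt_of_lt_of_le hc0 (le_max_right _ _)).ne').mul continuous_const
    classical
    have i1 : Integrable ({p : ℝ × ℝ | sq2 p < c}.piecewise (en Φ R₀ w)
        fun p => ν ^ 2 / max (sq2 p) c * h c) (volume.restrict T) :=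
      Integrable.piecewise hm
        (integrableOn_of_continuous hT (continuous_en Φ hR₀ hw)).integrableOn
        (integrableOn_of_continuous hT c2').integrableOn
    refine i1.congr (ae_restrict_of_ae ?_)
    filter_upwards [ae_sq2_ne c] with p hp
    rcases lt_or_gt_of_ne hp with hp | hp
    · rw [piecewise_eq_of_mem _ _ _ (show p ∈ {p : ℝ × ℝ | sq2 p < c} from hp), (in1 p hp).2]
    · rw [piecewise_eq_of_notMem _ _ _ (show p ∉ {p : ℝ × ℝ | sq2 p < c} from not_lt.2 hp.le),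
        (out1 p hp).2, max_eq_left hp.le]
  have iN : ∀ T : Set (ℝ × ℝ), Bornology.IsBounded T → IntegrableOn (fun p => ‖F p‖ ^ 2) T :=
    fun T hT => integrableOn_of_continuous hT cN
  have iG : ∀ T : Set (ℝ × ℝ), Bornology.IsBounded T →
      IntegrableOn (fun p => en Φ R₀ F p - μ * ‖F p‖ ^ 2) T :=
    fun T hT => (iE T hT).sub ((iN T hT).const_mul μ)
  have Gout : ∀ p, c < sq2 p → en Φ R₀ F p - μ * ‖F p‖ ^ 2 = q (sq2 p) * h c := fun p hp => by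
    rw [(out1 p hp).1, (out1 p hp).2]; simp only [q]; ring
  have mB := (isOpen_disc R').measurableSet
  have fin : ∀ R, volume (disc R) ≠ ⊤ := fun R => (isBounded_disc R).measure_lt_top.ne
  have hh0 : 0 ≤ h c := sq_nonneg _
  have W := compare hS mB hSb.measure_lt_top.ne (fin R') (iG S hSb) (iG _ (isBounded_disc R'))
    (γ := q (R' ^ 2) * h c) (by
      filter_upwards [ae_sq2_ne c] with p hp hpB hpS
      have hp1 : sq2 p < R' ^ 2 := hpB
      have hp2 : R₀ ^ 2 ≤ sq2 p := not_lt.1 fun h' => hpS (hS₀ h')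
      rcases lt_or_gt_of_ne hp with hp | hp
      · rw [(in1 p hp).1, (in1 p hp).2]
        exact (c2 _ ⟨hp2, hp.le⟩).trans (wge p hp2)
      · rw [Gout p hp]
        exact mul_le_mul_of_nonneg_right (hanti _ _ (hc0.trans hp) hp1.le) hh0) (by
      filter_upwards [ae_sq2_ne c] with p hp _ hpB
      have hp1 : R' ^ 2 ≤ sq2 p := not_lt.1 hpB
      rw [Gout p (lt_of_le_of_ne (hc.2.trans hp1) hp.symm)]
      exact mul_le_mul_of_nonneg_right (hanti _ _ (by positivity) hp1) hh0)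
  have iEw := integrableOn_of_continuous (isBounded_disc R') (continuous_en Φ hR₀ hw)
  have iNw : IntegrableOn (fun p => ‖w p‖ ^ 2) (disc R') :=
    integrableOn_of_continuous (isBounded_disc R') (cw.norm.pow 2)
  have neg : ∫ p in disc R', (en Φ R₀ F p - μ * ‖F p‖ ^ 2) < 0 := by
    have : ∫ p in disc R', (en Φ R₀ F p - μ * ‖F p‖ ^ 2) ≤
        ∫ p in disc R', (en Φ R₀ w p - μ * ‖w p‖ ^ 2) := by
      refine integral_mono_ae (iG _ (isBounded_disc R')) (iEw.sub (iNw.const_mul μ)) ?_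
      rw [EventuallyLE, ae_restrict_iff' mB]
      filter_upwards [ae_sq2_ne c] with p hp hpB
      have hp1 : sq2 p < R' ^ 2 := hpB
      rcases lt_or_gt_of_ne hp with hp | hp
      · rw [(in1 p hp).1, (in1 p hp).2]
      · rw [Gout p hp]
        exact (c1 _ ⟨hp.le, hp1.le⟩).trans (wge p (hc.1.trans hp.le))
    rw [integral_sub iEw (iNw.const_mul μ), integral_const_mul] at this
    linarith
  have vS : (volume S).toReal = Real.pi * R₁ ^ 2 := by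
    rw [hvol, vol_disc hR₁.le, ENNReal.toReal_ofReal (by positivity)]
  have vB : ∀ R, 0 < R → (volume (disc R)).toReal = Real.pi * R ^ 2 := fun R hR => by
    rw [vol_disc hR.le, ENNReal.toReal_ofReal (by positivity)]
  rw [integral_sub (iE S hSb) ((iN S hSb).const_mul μ), integral_const_mul, vS, vB R' hR'0] at W
  have N0 : 0 ≤ ∫ p in S, ‖F p‖ ^ 2 := integral_nonneg fun p => sq_nonneg _
  have hdiff : 0 ≤ Real.pi * R₁ ^ 2 - Real.pi * R' ^ 2 := by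
    have : R' ^ 2 ≤ R₁ ^ 2 := by nlinarith
    nlinarith [Real.pi_pos]
  refine ⟨F, K, hF, ?_⟩
  rcases le_or_gt (q (R' ^ 2)) 0 with hq | hq
  · have := mul_nonpos_of_nonpos_of_nonneg (mul_nonpos_of_nonpos_of_nonneg hq hh0) hdiff
    nlinarith [mul_nonneg hμμ.le N0]
  · have W2 := compare hS (isOpen_disc R₀).measurableSet hSb.measure_lt_top.ne (fin R₀)
      (G := fun p => -‖F p‖ ^ 2) (iN S hSb).neg (iN _ (isBounded_disc R₀)).neg (γ := -h c)
      (Eventually.of_forall fun p hp hp' => absurd (hS₀ hp) hp') (by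
        filter_upwards [ae_sq2_ne c] with p hp _ hpB
        have hp2 : R₀ ^ 2 ≤ sq2 p := not_lt.1 hpB
        rcases lt_or_gt_of_ne hp with hp | hp
        · rw [(in1 p hp).1, hwn]
          exact neg_le_neg (c3 hq _ ⟨hp2, hp.le.trans hc.2⟩)
        · rw [(out1 p hp).1])
    rw [integral_neg, integral_neg, vS, vB R₀ hR₀] at W2
    have N1 : 0 ≤ ∫ p in disc R₀, ‖F p‖ ^ 2 := integral_nonneg fun p => sq_nonneg _
    have hb := order_bound hR₀ hμ hw hE hlt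
    have hq2 : q (R' ^ 2) ≤ Q₀ := by
      have k1 : ν ^ 2 / R' ^ 2 ≤ ν ^ 2 / R₀ ^ 2 := div_le_div_of_nonneg_left (sq_nonneg _) h00 hab
      have k2 : ν ^ 2 / R₀ ^ 2 ≤ Q₀ := by
        refine div_le_div_of_nonneg_right (hb.trans ?_) h00.le
        have : R' ^ 2 ≤ R₁ ^ 2 := by nlinarith
        nlinarith
      simp only [q]
      linarith
    have k3 : q (R' ^ 2) * h c * (Real.pi * R₁ ^ 2 - Real.pi * R' ^ 2) ≤
        Q₀ * h c * (Real.pi * R₁ ^ 2 - Real.pi * R' ^ 2) :=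
      mul_le_mul_of_nonneg_right (mul_le_mul_of_nonneg_right hq2 hh0) hdiff
    have k4 := mul_le_mul_of_nonneg_left hsmall (mul_nonneg hh0 Real.pi_pos.le)
    have k5 : h c * (Real.pi * R₁ ^ 2 - Real.pi * R₀ ^ 2) ≤ ∫ p in S, ‖F p‖ ^ 2 := by linarith
    have k6 := mul_le_mul_of_nonneg_left k5 hμμ.le
    nlinarith

end Pool.Agent.Lib.MP_d36e13_an.DC
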