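import Pool.Agent.Lib.MP_d36e13_an.DC.Can
import Pool.Agent.Lib.MP_d36e13_an.DC.Prim
import Pool.Agent.Lib.MP_d36e13_an.DC.Gauge
import Pool.Agent.Lib.MP_d36e13_an.DC.Smooth
import Pool.Agent.Lib.MP_d36e13_an.DC.Pick
import Pool.Agent.Lib.MP_d36e13_an.DC.Wein

open MeasureTheory Set Filter Topology Metric
open scoped ENNReal ContDiff

namespace Pool.Agent.Lib.MP_d36e13_an.DC

/-- Gauge invariance of `lam` on a bounded simply connected open set. -/
theorem lam_le_of_potentials {Φ : ℝ} {Ω D : Set (ℝ × ℝ)} (hΩ : IsOpen Ω)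
    (hb : Bornology.IsBounded Ω) (hs : IsSimplyConnected Ω) {A₁ A₂ B₁ B₂ : ℝ × ℝ → ℝ}
    (hA : IsPotential Φ Ω D A₁ A₂) (hB : IsPotential Φ Ω D B₁ B₂) :
    lam Ω A₁ A₂ ≤ lam Ω B₁ B₂ := by
  have : IsFiniteMeasure (volume.restrict Ω) := isFiniteMeasure_restrict.2 hb.measure_lt_top.ne
  obtain ⟨χ, hχ, hd⟩ := exists_global_primitive hΩ hb hs (C₁ := fun p => A₁ p - B₁ p)
    (C₂ := fun p => A₂ p - B₂ p) (hA.memLp₁.sub hB.memLp₁) (hA.memLp₂.sub hB.memLp₂)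
    (fun φ hφ => by
      have c1 : ContDiff ℝ 1 φ := hφ.1.of_le top_one
      have i : ∀ {X : ℝ × ℝ → ℝ} (v : ℝ × ℝ), MemLp X ⊤ (volume.restrict Ω) →
          Integrable (fun p => X p * dd v φ p) (volume.restrict Ω) := fun v hX =>
        integrable_mul_of_test (hX.mono_exponent le_top) (continuous_dd c1)
          (hasCompactSupport_dd hφ.2.1)
      have e1 := hA.curl φ hφ
      have e2 := hB.curl φ hφ
      rw [d1_eq, d2_eq] at e1 e2
      have iA : Integrable (fun p => A₁ p * dd (0, 1) φ p - A₂ p * dd (1, 0) φ p)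
        (volume.restrict Ω) := (i _ hA.memLp₁).sub (i _ hA.memLp₂)
      have iB : Integrable (fun p => B₁ p * dd (0, 1) φ p - B₂ p * dd (1, 0) φ p)
        (volume.restrict Ω) := (i _ hB.memLp₁).sub (i _ hB.memLp₂)
      have e3 := integral_sub iA iB
      rw [e1, e2, sub_self] at e3
      refine Eq.trans (integral_congr_ae (Eventually.of_forall fun p => ?_)) e3
      simp only
      ring)
  exact lam_le_of_gauge hΩ hA.memLp₁ hA.memLp₂ hB.memLp₁ hB.memLp₂ hχ hd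

theorem convex_disc (R : ℝ) : Convex ℝ (disc R) := by
  intro p hp q hq a b ha hb hab
  have hp : p.1 ^ 2 + p.2 ^ 2 < R ^ 2 := hp
  have hq : q.1 ^ 2 + q.2 ^ 2 < R ^ 2 := hq
  change (a * p.1 + b * q.1) ^ 2 + (a * p.2 + b * q.2) ^ 2 < R ^ 2
  have hb' : b = 1 - a := by linarith
  subst hb'
  have h1 : (a * p.1 + (1 - a) * q.1) ^ 2 + (a * p.2 + (1 - a) * q.2) ^ 2 ≤
      a * (p.1 ^ 2 + p.2 ^ 2) + (1 - a) * (q.1 ^ 2 + q.2 ^ 2) := by
    nlinarith [mul_nonneg (mul_nonneg ha hb) (sq_nonneg (p.1 - q.1)),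
      mul_nonneg (mul_nonneg ha hb) (sq_nonneg (p.2 - q.2))]
  refine lt_of_le_of_lt h1 ?_
  rcases le_total (p.1 ^ 2 + p.2 ^ 2) (q.1 ^ 2 + q.2 ^ 2) with h | h
  · nlinarith [mul_le_mul_of_nonneg_left h ha]
  · nlinarith [mul_le_mul_of_nonneg_left h hb]

theorem isSimplyConnected_disc {R : ℝ} (hR : 0 < R) : IsSimplyConnected (disc R) := by
  have h0 : (0 : ℝ × ℝ) ∈ disc R := by
    change (0 : ℝ) ^ 2 + (0 : ℝ) ^ 2 < R ^ 2
    nlinarith
  have := (convex_disc R).contractibleSpace ⟨0, h0⟩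
  exact SimplyConnectedSpace.ofContractible _

/-- The inequality for the rotation invariant potentials. -/
theorem lam_can_le {Φ R₀ R₁ : ℝ} {Ω : Set (ℝ × ℝ)} (hΩ : IsOpen Ω) (hb : Bornology.IsBounded Ω)
    (c : ℝ × ℝ) (hR₀ : 0 < R₀) (hR : R₀ < R₁) (hD : discAt c R₀ ⊆ Ω)
    (hvol : volume (disc R₁) = volume Ω) :
    lam Ω (fun p => P1 Φ R₀ (p - c)) (fun p => P2 Φ R₀ (p - c)) ≤
      lam (disc R₁) (P1 Φ R₀) (P2 Φ R₀) := by
  refine le_of_forall_gt_imp_ge_of_dense fun a ha => ?_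
  rcases eq_or_ne a ⊤ with rfl | hat
  · exact le_top
  obtain ⟨b, hb1, hb2⟩ := exists_between ha
  have hbt : b ≠ ⊤ := hb2.ne_top
  have hb0 : b ≠ 0 := (lt_of_le_of_lt zero_le hb1).ne'
  have hμ : 0 < b.toReal := ENNReal.toReal_pos hb0 hbt
  have hμ' : b.toReal < a.toReal := (ENNReal.toReal_lt_toReal hbt hat).2 hb2
  obtain ⟨δ, hδ, H⟩ := weinberger (Φ := Φ) hR₀ hR hμ hμ'
  obtain ⟨R', h1, h2, v, hv, hlt⟩ := exists_smooth (Φ := Φ) (μ := b.toReal) hR₀ (hR₀.trans hR) hδ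
    (by rwa [ENNReal.ofReal_toReal hbt])
  obtain ⟨m, w, hw, hE, hlt'⟩ := exists_mode hR₀ hv hlt
  have ct : Continuous fun p : ℝ × ℝ => p + c := by fun_prop
  have hSb : Bornology.IsBounded ((fun p : ℝ × ℝ => p + c) ⁻¹' Ω) := by
    obtain ⟨r, hr⟩ := hb.subset_closedBall c
    refine (isBounded_closedBall (x := (0 : ℝ × ℝ)) (r := r)).subset fun p hp => ?_
    simpa [dist_eq_norm] using hr hp
  obtain ⟨F, K, hF, hFlt⟩ := H R' h1 h2 m w hw hE hlt' ((fun p : ℝ × ℝ => p + c) ⁻¹' Ω)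
    (hΩ.preimage ct).measurableSet hSb
    (fun p hp => hD (by rw [mem_discAt, add_sub_cancel_right]; exact hp))
    (by rw [measure_preimage_add_right, hvol])
  have hF' : LipschitzWith K fun p => F (p - c) := by
    intro p q
    have := hF (p - c) (q - c)
    rwa [edist_sub_right] at this
  have tr : ∀ G : ℝ × ℝ → ℝ, ∫ p in Ω, G (p - c) = ∫ p in (fun p : ℝ × ℝ => p + c) ⁻¹' Ω, G p := by
    intro G
    have := (measurePreserving_add_right (volume : Measure (ℝ × ℝ)) c).setIntegral_preimage_emb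
      (Homeomorph.addRight c).measurableEmbedding (fun p => G (p - c)) Ω
    rw [← this]
    simp
  rw [← ENNReal.ofReal_toReal hat]
  refine lam_le_of_isH1 (isH1_of_lip hΩ hb hF')
    (memLp_top_of_continuous hb ((continuous_P1 Φ hR₀).comp (by fun_prop)))
    (memLp_top_of_continuous hb ((continuous_P2 Φ hR₀).comp (by fun_prop))) ?_
  rw [← tr (en Φ R₀ F), ← tr (fun p => ‖F p‖ ^ 2)] at hFlt
  have e : ∀ p, fderiv ℝ (fun p => F (p - c)) p = fderiv ℝ F (p - c) := fun p => fderiv_comp_sub c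
  simp only [e]
  exact hFlt

theorem radius_lt {R₀ R₁ : ℝ} {Ω : Set (ℝ × ℝ)} (hΩ : IsOpen Ω) (c : ℝ × ℝ) (hR₀ : 0 < R₀)
    (hR₁ : 0 < R₁) (hD : closure (discAt c R₀) ⊆ Ω) (hvol : volume (disc R₁) = volume Ω) :
    R₀ < R₁ := by
  -- the point `c + (R₀, 0)` lies in the closure, so `Ω` contains points outside the closed disc
  have cγ : Continuous fun t : ℝ => ((c.1 + t, c.2) : ℝ × ℝ) := by fun_prop
  have hz : ((c.1 + R₀, c.2) : ℝ × ℝ) ∈ closure (discAt c R₀) := by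
    have h1 : R₀ ∈ closure (Ioo 0 R₀) := by
      rw [closure_Ioo hR₀.ne]; exact ⟨hR₀.le, le_rfl⟩
    refine map_mem_closure (f := fun t : ℝ => ((c.1 + t, c.2) : ℝ × ℝ)) cγ h1 fun t ht => ?_
    change (c.1 + t - c.1) ^ 2 + (c.2 - c.2) ^ 2 < R₀ ^ 2
    nlinarith [ht.1, ht.2]
  have hev : ∀ᶠ t in 𝓝[>] R₀, ((c.1 + t, c.2) : ℝ × ℝ) ∈ Ω :=
    nhdsWithin_le_nhds (cγ.continuousAt.preimage_mem_nhds (hΩ.mem_nhds (hD hz)))
  obtain ⟨t, ht, ht'⟩ := (hev.and self_mem_nhdsWithin).exists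
  have ht' : R₀ < t := ht'
  let V : Set (ℝ × ℝ) := Ω ∩ {p | R₀ ^ 2 < (p.1 - c.1) ^ 2 + (p.2 - c.2) ^ 2}
  have hV : IsOpen V := hΩ.inter (isOpen_lt (by fun_prop) (by fun_prop))
  have hVne : V.Nonempty := ⟨_, ht, by
    change R₀ ^ 2 < (c.1 + t - c.1) ^ 2 + (c.2 - c.2) ^ 2
    nlinarith⟩
  have hVpos := hV.measure_pos volume hVne
  have hdis : Disjoint (discAt c R₀) V := disjoint_left.2 fun p hp hp' => by
    have h1 : (p.1 - c.1) ^ 2 + (p.2 - c.2) ^ 2 < R₀ ^ 2 := hp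
    have h2 : R₀ ^ 2 < (p.1 - c.1) ^ 2 + (p.2 - c.2) ^ 2 := hp'.2
    linarith
  have hle : volume (discAt c R₀) + volume V ≤ volume Ω := by
    rw [← measure_union hdis hV.measurableSet]
    exact measure_mono (union_subset (subset_closure.trans hD) inter_subset_left)
  have hlt : volume (disc R₀) < volume (disc R₁) := by
    rw [hvol, ← vol_discAt c R₀]
    refine lt_of_lt_of_le (ENNReal.lt_add_right ?_ hVpos.ne') hle
    rw [vol_discAt]
    exact (isBounded_disc R₀).measure_lt_top.ne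
  rw [vol_disc hR₀.le, vol_disc hR₁.le, ENNReal.ofReal_lt_ofReal_iff (by positivity)] at hlt
  have := lt_of_mul_lt_mul_left hlt Real.pi_pos.le
  exact lt_of_pow_lt_pow_left₀ 2 hR₁.le this

end Pool.Agent.Lib.MP_d36e13_an.DC
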