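import Pool.Agent.Lib.MP_d36e13_an.DC.Base

open MeasureTheory Set Filter Topology Metric
open scoped ENNReal ContDiff

namespace Pool.Agent.Lib.MP_d36e13_an.DC

/-- the angular Fourier mode of order `m` -/
noncomputable def mode (m : ℤ) (v : ℝ × ℝ → ℂ) (p : ℝ × ℝ) : ℂ :=
  (1 / (2 * Real.pi) : ℝ) • ∫ t in (0 : ℝ)..2 * Real.pi,
    Complex.exp (-((m : ℂ) * (t : ℂ) * Complex.I)) * v (rot t p)

theorem equi_mode (m : ℤ) {v : ℝ × ℝ → ℂ} (hv : Continuous v) : Equi m (mode m v) := by
  intro s p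
  have _ := hv
  set g : ℝ → ℂ := fun u => Complex.exp (-((m : ℂ) * (u : ℂ) * Complex.I)) * v (rot u p) with hg
  have hper : Function.Periodic g (2 * Real.pi) := by
    intro u
    simp only [hg, rot_two_pi]
    congr 1
    have e : -((m : ℂ) * ((u + 2 * Real.pi : ℝ) : ℂ) * Complex.I) =
        -((m : ℂ) * (u : ℂ) * Complex.I) + ((-m : ℤ) : ℂ) * (2 * Real.pi * Complex.I) := by
      push_cast; ring
    rw [e, Complex.exp_add, Complex.exp_int_mul_two_pi_mul_I, mul_one]
  have h1 : ∀ t : ℝ, Complex.exp (-((m : ℂ) * (t : ℂ) * Complex.I)) * v (rot t (rot s p)) =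
      Complex.exp ((m : ℂ) * (s : ℂ) * Complex.I) * g (t + s) := by
    intro t
    simp only [hg, rot_add]
    rw [← mul_assoc, ← Complex.exp_add]
    congr 2
    push_cast; ring
  unfold mode
  simp_rw [h1]
  rw [intervalIntegral.integral_const_mul, intervalIntegral.integral_comp_add_right g s]
  have h2 := hper.intervalIntegral_add_eq s 0
  rw [zero_add] at h2
  rw [zero_add, add_comm (2 * Real.pi) s, h2, mul_smul_comm]

theorem continuous_rotL : Continuous rotL := by
  refine continuous_clm_apply.2 fun p => ?_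
  simp_rw [rotL_apply]
  exact continuous_rot.comp (continuous_id.prodMk continuous_const)

/-- the derivative of the integrand of the mode -/
noncomputable def modeD (m : ℤ) (v : ℝ × ℝ → ℂ) (p : ℝ × ℝ) (t : ℝ) : ℝ × ℝ →L[ℝ] ℂ :=
  Complex.exp (-((m : ℂ) * (t : ℂ) * Complex.I)) • ((fderiv ℝ v (rot t p)).comp (rotL t))

theorem continuous_modeD (m : ℤ) {v : ℝ × ℝ → ℂ} (hv : ContDiff ℝ 1 v) :
    Continuous (Function.uncurry (modeD m v)) := by
  have h1 : Continuous (fderiv ℝ v) := hv.continuous_fderiv (by simp)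
  have h2 : Continuous fun q : (ℝ × ℝ) × ℝ => rot q.2 q.1 :=
    continuous_rot.comp (continuous_snd.prodMk continuous_fst)
  have h3 : Continuous fun q : (ℝ × ℝ) × ℝ => (fderiv ℝ v (rot q.2 q.1)).comp (rotL q.2) :=
    (h1.comp h2).clm_comp (continuous_rotL.comp continuous_snd)
  have h4 : Continuous fun q : (ℝ × ℝ) × ℝ =>
      Complex.exp (-((m : ℂ) * (q.2 : ℂ) * Complex.I)) := by fun_prop
  exact h4.smul h3

theorem hasFDerivAt_integrand (m : ℤ) {v : ℝ × ℝ → ℂ} (hv : ContDiff ℝ 1 v) (t : ℝ)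
    (p : ℝ × ℝ) :
    HasFDerivAt (fun x => Complex.exp (-((m : ℂ) * (t : ℂ) * Complex.I)) * v (rot t x))
      (modeD m v p t) p := by
  have h1 : HasFDerivAt v (fderiv ℝ v (rot t p)) (rotL t p) := by
    rw [rotL_apply]
    exact (hv.differentiable (by simp) _).hasFDerivAt
  have h2 := (h1.comp p (rotL t).hasFDerivAt).const_mul
    (Complex.exp (-((m : ℂ) * (t : ℂ) * Complex.I)))
  simp only [Function.comp_def, rotL_apply] at h2
  exact h2

theorem hasFDerivAt_mode (m : ℤ) {v : ℝ × ℝ → ℂ} (hv : ContDiff ℝ 1 v) (p : ℝ × ℝ) :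
    HasFDerivAt (mode m v)
      ((1 / (2 * Real.pi) : ℝ) • ∫ t in (0 : ℝ)..2 * Real.pi, modeD m v p t) p := by
  have hD := continuous_modeD m hv
  have hF : ∀ x : ℝ × ℝ, Continuous fun t : ℝ =>
      Complex.exp (-((m : ℂ) * (t : ℂ) * Complex.I)) * v (rot t x) := by
    intro x
    have h2 : Continuous fun t : ℝ => v (rot t x) :=
      hv.continuous.comp (continuous_rot.comp (continuous_id.prodMk continuous_const))
    exact (by fun_prop : Continuous fun t : ℝ =>
      Complex.exp (-((m : ℂ) * (t : ℂ) * Complex.I))).mul h2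
  obtain ⟨C, hC⟩ := ((isCompact_closedBall p 1).prod
    (isCompact_uIcc (a := (0 : ℝ)) (b := 2 * Real.pi))).exists_bound_of_continuousOn
    hD.continuousOn
  have h := intervalIntegral.hasFDerivAt_integral_of_dominated_of_fderiv_le
    (μ := volume) (a := (0 : ℝ)) (b := 2 * Real.pi) (bound := fun _ => C)
    (F := fun (x : ℝ × ℝ) (t : ℝ) =>
      Complex.exp (-((m : ℂ) * (t : ℂ) * Complex.I)) * v (rot t x))
    (F' := modeD m v) (x₀ := p) (closedBall_mem_nhds p one_pos)
    (Eventually.of_forall fun x => (hF x).aestronglyMeasurable)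
    ((hF p).intervalIntegrable _ _)
    ((hD.comp (continuous_const.prodMk continuous_id)).aestronglyMeasurable)
    (Eventually.of_forall fun t ht x hx => hC (x, t) ⟨hx, uIoc_subset_uIcc ht⟩)
    intervalIntegrable_const
    (Eventually.of_forall fun t _ x _ => hasFDerivAt_integrand m hv t x)
  exact h.const_smul (1 / (2 * Real.pi) : ℝ)

theorem contDiff_mode (m : ℤ) {v : ℝ × ℝ → ℂ} (hv : ContDiff ℝ 1 v) : ContDiff ℝ 1 (mode m v) := by
  rw [contDiff_one_iff_fderiv]
  refine ⟨fun p => (hasFDerivAt_mode m hv p).differentiableAt, ?_⟩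
  have e : fderiv ℝ (mode m v) = fun p =>
      (1 / (2 * Real.pi) : ℝ) • ∫ t in (0 : ℝ)..2 * Real.pi, modeD m v p t :=
    funext fun p => (hasFDerivAt_mode m hv p).fderiv
  rw [e]
  exact (intervalIntegral.continuous_parametric_intervalIntegral_of_continuous'
    (μ := volume) (continuous_modeD m hv) _ _).const_smul (1 / (2 * Real.pi) : ℝ)

theorem fderiv_mode (m : ℤ) {v : ℝ × ℝ → ℂ} (hv : ContDiff ℝ 1 v) (p ξ : ℝ × ℝ) :
    fderiv ℝ (mode m v) p ξ = (1 / (2 * Real.pi) : ℝ) • ∫ t in (0 : ℝ)..2 * Real.pi,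
      Complex.exp (-((m : ℂ) * (t : ℂ) * Complex.I)) * fderiv ℝ v (rot t p) (rot t ξ) := by
  have hi : IntervalIntegrable (modeD m v p) volume (0 : ℝ) (2 * Real.pi) :=
    ((continuous_modeD m hv).comp (continuous_const.prodMk continuous_id)).intervalIntegrable _ _
  rw [(hasFDerivAt_mode m hv p).fderiv, smul_apply,
    ContinuousLinearMap.intervalIntegral_apply hi]
  simp only [modeD, smul_apply, ContinuousLinearMap.comp_apply, rotL_apply,
    smul_eq_mul]

end Pool.Agent.Lib.MP_d36e13_an.DC
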