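import Pool.Agent.Lib.MP_d36e13_an.DC.Base

open MeasureTheory Set Filter Topology Metric
open scoped ENNReal ContDiff

namespace Pool.Agent.Lib.MP_d36e13_an.DC

theorem hasDerivAt_rot_zero (p : ℝ × ℝ) :
    HasDerivAt (fun t : ℝ => rot t p) ((-p.2, p.1) : ℝ × ℝ) 0 := by
  have h1 : HasDerivAt (fun t : ℝ => Real.cos t * p.1 - Real.sin t * p.2) (-p.2) 0 := by
    have h := ((Real.hasDerivAt_cos 0).mul_const p.1).sub ((Real.hasDerivAt_sin 0).mul_const p.2)
    have e : -Real.sin 0 * p.1 - Real.cos 0 * p.2 = -p.2 := by simp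
    rw [e] at h
    exact h
  have h2 : HasDerivAt (fun t : ℝ => Real.sin t * p.1 + Real.cos t * p.2) p.1 0 := by
    have h := ((Real.hasDerivAt_sin 0).mul_const p.1).add ((Real.hasDerivAt_cos 0).mul_const p.2)
    have e : Real.cos 0 * p.1 + -Real.sin 0 * p.2 = p.1 := by simp
    rw [e] at h
    exact h
  exact h1.prodMk h2

theorem fderiv_tangent {m : ℤ} {F : ℝ × ℝ → ℂ} (hF : Equi m F) {p : ℝ × ℝ}
    (hd : DifferentiableAt ℝ F p) :
    fderiv ℝ F p ((-p.2, p.1) : ℝ × ℝ) = (m : ℂ) * Complex.I * F p := by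
  have h0 : HasFDerivAt F (fderiv ℝ F p) (rot 0 p) := by
    rw [rot_zero]; exact hd.hasFDerivAt
  have h1 : HasDerivAt (fun t : ℝ => F (rot t p)) (fderiv ℝ F p ((-p.2, p.1) : ℝ × ℝ)) 0 :=
    h0.comp_hasDerivAt (0 : ℝ) (hasDerivAt_rot_zero p)
  have h2 : HasDerivAt (fun t : ℝ => (m : ℂ) * (t : ℂ) * Complex.I) ((m : ℂ) * Complex.I) 0 := by
    have h := ((Complex.ofRealCLM.hasDerivAt (x := (0 : ℝ))).const_mul (m : ℂ)).mul_const Complex.I
    have e : (m : ℂ) * Complex.ofRealCLM 1 * Complex.I = (m : ℂ) * Complex.I := by simp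
    rw [e] at h
    exact h
  have h3 : HasDerivAt (fun t : ℝ => Complex.exp ((m : ℂ) * (t : ℂ) * Complex.I) * F p)
      ((m : ℂ) * Complex.I * F p) 0 := by
    have h := (h2.cexp).mul_const (F p)
    have e : Complex.exp ((m : ℂ) * ((0 : ℝ) : ℂ) * Complex.I) * ((m : ℂ) * Complex.I) * F p
        = (m : ℂ) * Complex.I * F p := by simp
    rw [e] at h
    exact h
  have h4 : (fun t : ℝ => F (rot t p))
      = fun t : ℝ => Complex.exp ((m : ℂ) * (t : ℂ) * Complex.I) * F p := funext fun t => hF t p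
  rw [h4] at h1
  exact h1.unique h3

theorem norm_rot_pair (x y : ℝ) (a b : ℂ) :
    ‖(x : ℂ) * a + (y : ℂ) * b‖ ^ 2 + ‖-(y : ℂ) * a + (x : ℂ) * b‖ ^ 2
      = (x ^ 2 + y ^ 2) * (‖a‖ ^ 2 + ‖b‖ ^ 2) := by
  simp only [Complex.sq_norm, Complex.normSq_apply, Complex.add_re, Complex.add_im,
    Complex.mul_re, Complex.mul_im, Complex.neg_re, Complex.neg_im, Complex.ofReal_re,
    Complex.ofReal_im]
  ring

/-- The energy density of a function with angular momentum `m` in polar form. -/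
theorem en_polar (Φ R₀ : ℝ) {m : ℤ} {F : ℝ × ℝ → ℂ} (hF : Equi m F) {p : ℝ × ℝ}
    (hd : DifferentiableAt ℝ F p) :
    sq2 p * en Φ R₀ F p =
      ‖fderiv ℝ F p p‖ ^ 2 + ((m : ℝ) - ca Φ R₀ p * sq2 p) ^ 2 * ‖F p‖ ^ 2 := by
  have ht := fderiv_tangent hF hd
  obtain ⟨D, hD⟩ : ∃ D, D = fderiv ℝ F p := ⟨_, rfl⟩
  have lin : ∀ u v : ℝ, D ((u, v) : ℝ × ℝ) = (u : ℂ) * D (1, 0) + (v : ℂ) * D (0, 1) := by
    intro u v
    have e : ((u, v) : ℝ × ℝ) = u • ((1, 0) : ℝ × ℝ) + v • ((0, 1) : ℝ × ℝ) := by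
      ext <;> simp
    rw [e, map_add, map_smul, map_smul, Complex.real_smul, Complex.real_smul]
  have hp : D p = (p.1 : ℂ) * D (1, 0) + (p.2 : ℂ) * D (0, 1) := lin p.1 p.2
  rw [← hD, lin] at ht
  unfold en
  rw [← hD]
  have key := norm_rot_pair p.1 p.2 (-Complex.I * D (1, 0) - (P1 Φ R₀ p : ℂ) * F p)
    (-Complex.I * D (0, 1) - (P2 Φ R₀ p : ℂ) * F p)
  have e1 : (p.1 : ℂ) * (-Complex.I * D (1, 0) - (P1 Φ R₀ p : ℂ) * F p)
      + (p.2 : ℂ) * (-Complex.I * D (0, 1) - (P2 Φ R₀ p : ℂ) * F p) = -Complex.I * D p := by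
    rw [hp]
    unfold P1 P2
    push_cast
    ring
  have e2 : -(p.2 : ℂ) * (-Complex.I * D (1, 0) - (P1 Φ R₀ p : ℂ) * F p)
      + (p.1 : ℂ) * (-Complex.I * D (0, 1) - (P2 Φ R₀ p : ℂ) * F p)
      = (((m : ℝ) - ca Φ R₀ p * sq2 p : ℝ) : ℂ) * F p := by
    unfold P1 P2 sq2
    push_cast at ht ⊢
    linear_combination (-Complex.I) * ht - (m : ℂ) * F p * Complex.I_mul_I
  rw [e1, e2, norm_mul, norm_mul, norm_neg, Complex.norm_I, one_mul, mul_pow, Complex.norm_real,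
    Real.norm_eq_abs, sq_abs] at key
  rw [key]
  rfl

/-- The modulus of a function with angular momentum `m` is radial. -/
theorem norm_radial {m : ℤ} {F : ℝ × ℝ → ℂ} (hF : Equi m F) (p : ℝ × ℝ) :
    ‖F p‖ = ‖F (Real.sqrt (sq2 p), 0)‖ := by
  obtain ⟨z, hz⟩ : ∃ z : ℂ, z = ⟨p.1, p.2⟩ := ⟨_, rfl⟩
  have hn : Real.sqrt (sq2 p) = ‖z‖ := by
    rw [hz, Complex.norm_def, Complex.normSq_mk, sq2, sq, sq]
  have e : rot (Complex.arg z) (Real.sqrt (sq2 p), 0) = p := by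
    rw [hn]
    unfold rot
    have h1 := Complex.norm_mul_cos_arg z
    have h2 := Complex.norm_mul_sin_arg z
    have h3 : z.re = p.1 := by rw [hz]
    have h4 : z.im = p.2 := by rw [hz]
    ext
    · simp only; linarith
    · simp only; linarith
  have h := hF (Complex.arg z) (Real.sqrt (sq2 p), 0)
  rw [e] at h
  have e2 : (m : ℂ) * (Complex.arg z : ℂ) * Complex.I
      = (((m : ℝ) * Complex.arg z : ℝ) : ℂ) * Complex.I := by push_cast; ring
  rw [h, norm_mul, e2, Complex.norm_exp_ofReal_mul_I, one_mul]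

/-- Weinberger's comparison of two integrals. -/
theorem compare {S B : Set (ℝ × ℝ)} (hS : MeasurableSet S) (hB : MeasurableSet B)
    (hSf : volume S ≠ ⊤) (hBf : volume B ≠ ⊤) {G : ℝ × ℝ → ℝ} (iS : IntegrableOn G S)
    (iB : IntegrableOn G B) {γ : ℝ} (hin : ∀ᵐ p, p ∈ B → p ∉ S → γ ≤ G p)
    (hout : ∀ᵐ p, p ∈ S → p ∉ B → G p ≤ γ) :
    ∫ p in S, G p ≤ (∫ p in B, G p) + γ * ((volume S).toReal - (volume B).toReal) := by
  have cS : IntegrableOn (fun _ : ℝ × ℝ => γ) S := integrableOn_const hSf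
  have cB : IntegrableOn (fun _ : ℝ × ℝ => γ) B := integrableOn_const hBf
  have a1 := integral_inter_add_sdiff (μ := volume) hB iS
  have a2 := integral_inter_add_sdiff (μ := volume) hS iB
  have b1 := integral_inter_add_sdiff (μ := volume) hB cS
  have b2 := integral_inter_add_sdiff (μ := volume) hS cB
  rw [inter_comm B S] at a2 b2
  have c1 : ∫ p in S \ B, G p ≤ ∫ _p in S \ B, γ := by
    refine setIntegral_mono_on_ae (iS.mono_set sdiff_subset) (cS.mono_set sdiff_subset)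
      (hS.diff hB) ?_
    filter_upwards [hout] with p hp hq using hp hq.1 hq.2
  have c2 : ∫ _p in B \ S, γ ≤ ∫ p in B \ S, G p := by
    refine setIntegral_mono_on_ae (cB.mono_set sdiff_subset) (iB.mono_set sdiff_subset)
      (hB.diff hS) ?_
    filter_upwards [hin] with p hp hq using hp hq.1 hq.2
  have d1 : ∫ _p in S, γ = (volume S).toReal * γ := by
    rw [setIntegral_const, smul_eq_mul, Measure.real]
  have d2 : ∫ _p in B, γ = (volume B).toReal * γ := by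
    rw [setIntegral_const, smul_eq_mul, Measure.real]
  linarith

end Pool.Agent.Lib.MP_d36e13_an.DC
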